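import Pool.Agent.W_d799b0_h82.Parse

/-!
# Disjunctive and majority reductions are threshold reductions of degree 1

`DisjRed`: `y ↦ (true, [y])`; the weight is the number of `y` in `S`.
`MajRed`: for each `y` the queries `(true, [y]), (true, [y]), (false, [])`; the weight is
`2 * (number of y in S) - (length of the list)`.
Machines: from `encL` to trees (`Poly.toTree` for the alphabet `Option Bool`, then a fold from the
right), `PF`, then from trees to `encQ` (`Poly.rawOfNat` for `Sym` with the codes `0, .., 4`).
-/

set_option autoImplicit false

open Turing Computability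

namespace Pool.Agent.W_d799b0_h82

open Pool.Agent.PolyTime Function

/-- parse a list of strings from the right; `none` is the symbol `(false, false)` and `some b` is
`(true, b)`; state `(current string, list)` -/
def lstep (t : Bool × Bool) (s : List Bool × List (List Bool)) : List Bool × List (List Bool) :=
  if t.1 then (t.2 :: s.1, s.2) else ([], s.1 :: s.2)

private theorem Cor_str (y : List Bool) (L : List (List Bool)) :
    ((y.map some).map fun o : Option Bool => (o.isSome, o.getD false)).foldr lstep ([], L)
      = (y, L) := by
  induction y with
  | nil => rfl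
  | cons b y ih =>
    simp only [List.map_cons, List.foldr_cons]
    rw [ih]
    simp [lstep]

private theorem Cor_parse (L : List (List Bool)) :
    ((encL L).map fun o => (o.isSome, o.getD false)).foldr lstep ([], []) = ([], L) := by
  induction L with
  | nil => rfl
  | cons y L ih =>
    have h : encL (y :: L) = none :: (y.map some ++ encL L) := rfl
    rw [h, List.map_cons, List.map_append, List.foldr_cons, List.foldr_append, ih, Cor_str]
    simp [lstep]

theorem parseL_encL (L : List (List Bool)) :
    (((encL L).map fun o => (o.isSome, o.getD false)).foldr lstep ([], [])).2 = L := by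
  rw [Cor_parse]

private theorem Cor_pf_lstep :
    PF (fun l : List (Bool × Bool) => (l.foldr lstep ([], [])).2) := by
  refine PF.snd ?_
  refine pf_foldr_add (γ := List (Bool × Bool)) (f := fun _ t s => lstep t s)
    (b := fun _ => ([], [])) (l := fun l => l) ?_ (PF.const _) PF.id' 10 ?_
  · unfold lstep
    fun_prop
  · intro c a _ s
    obtain ⟨s1, s2⟩ := s
    obtain ⟨t, b⟩ := a
    cases t
    · simp [lstep]
      omega
    · have := sz_bool b
      simp [lstep]
      omega

theorem pf_of_encL {f : List Bool → List (List Bool)}
    (h : Nonempty (TM2ComputableInPolyTime (fun x : List Bool => x) encL f)) : PF f := by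
  have h1 : Poly en encL f := Poly.comp treeStr h
  have h2 : Poly encL en
      (fun L : List (List Bool) => (encL L).map fun o => (o.isSome, o.getD false)) := by
    refine (Poly.toTree (fun o : Option Bool => toD (o.isSome, o.getD false))).restrict encL
      (fun _ => rfl) ?_
    intro L
    simp only [en, toD, List.map_map]
    rfl
  have h3 := Poly.comp h2 Cor_pf_lstep
  have h4 := Poly.comp h1 h3
  refine h4.restrict id (fun _ => rfl) ?_
  intro x
  simp only [id_eq]
  rw [parseL_encL]

private def Cor_cd : Sym → ℕ
  | .bit false => 0
  | .bit true => 1
  | .sign false => 2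
  | .sign true => 3
  | .sep => 4

private def Cor_dec : ℕ → Sym
  | 0 => .bit false
  | 1 => .bit true
  | 2 => .sign false
  | 3 => .sign true
  | _ => .sep

theorem toEncQ {f : List Bool → List Query} (h : PF f) :
    Nonempty (TM2ComputableInPolyTime (fun x : List Bool => x) encQ f) := by
  let _ : Fintype Sym := ⟨{.bit false, .bit true, .sign false, .sign true, .sep}, by
    intro x
    rcases x with b | b | _
    · cases b <;> simp
    · cases b <;> simp
    · simp⟩
  let _ : Inhabited Sym := ⟨.sep⟩
  have h1 : Poly (fun x : List Bool => x) en f := Poly.comp strTree h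
  have h2 : PF (fun L : List Query => L.flatMap fun q =>
      (if q.1 then 3 else 2) :: q.2.flatMap fun y => 4 :: y.map fun b => if b then 1 else 0) := by
    fun_prop
  have h3 : ∀ L : List Query, (encQ L).map Cor_cd = L.flatMap fun q =>
      (if q.1 then 3 else 2) :: q.2.flatMap fun y => 4 :: y.map fun b => if b then 1 else 0 := by
    intro L
    unfold encQ
    rw [List.map_flatMap]
    congr 1
    funext q
    rw [List.map_cons, List.map_flatMap]
    congr 1
    · cases q.1 <;> rfl
    · congr 1
      funext y
      rw [List.map_cons, List.map_map]
      congr 1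
      apply List.map_congr_left
      intro b _
      cases b <;> rfl
  have h4 : Poly en (fun w : List Sym => en (w.map Cor_cd)) encQ := by
    refine h2.restrict id (fun _ => rfl) ?_
    intro L
    rw [h3]
    rfl
  have h5 : Poly (fun w : List Sym => en (w.map Cor_cd)) (fun w : List Sym => w) (fun w => w) :=
    Poly.rawOfNat 4 Cor_dec Cor_cd (by
      intro a
      rcases a with b | b | _
      · cases b <;> simp [Cor_cd]
      · cases b <;> simp [Cor_cd]
      · simp [Cor_cd]) (by
      intro a
      rcases a with b | b | _
      · cases b <;> rfl
      · cases b <;> rfl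
      · rfl)
  have h6 := Poly.comp h1 (Poly.comp h4 h5)
  exact h6.restrict id (fun _ => rfl) (fun _ => rfl)

private theorem Cor_weight_append (S : Set (List Bool)) (L L' : List Query) :
    weight S (L ++ L') = weight S L + weight S L' := by
  simp [weight]

open Classical in
private theorem Cor_weight_disj (S : Set (List Bool)) (L : List (List Bool)) :
    0 ≤ weight S (L.map fun y => (true, [y])) ∧
    (0 < weight S (L.map fun y => (true, [y])) ↔ ∃ y ∈ L, y ∈ S) := by
  induction L with
  | nil => simp [weight]
  | cons y L ih =>
    have h : weight S ((y :: L).map fun y => (true, [y]))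
        = (if y ∈ S then 1 else 0) + weight S (L.map fun y => (true, [y])) := by
      simp [weight]
    rw [h]
    by_cases hy : y ∈ S
    · simp only [hy, if_true]
      refine ⟨by omega, ⟨fun _ => ⟨y, List.mem_cons_self, hy⟩, fun _ => by omega⟩⟩
    · simp only [hy, if_false, zero_add]
      refine ⟨ih.1, ih.2.trans ?_⟩
      simp [hy]

theorem DisjRed.thr {A S : Set (List Bool)} (h : DisjRed A S) : ThrRed 1 A S := by
  obtain ⟨f, hf, hA⟩ := h
  have hp := pf_of_encL hf
  refine ⟨fun x => (f x).map fun y => (true, [y]), toEncQ ?_, ?_, ?_⟩
  · fun_prop
  · intro x q hq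
    obtain ⟨y, _, rfl⟩ := List.mem_map.1 hq
    simp
  · intro x
    rw [hA, (Cor_weight_disj S (f x)).2]

open Classical in
private theorem Cor_weight_maj (S : Set (List Bool)) (L : List (List Bool)) :
    weight S (L.flatMap fun y => [(true, [y]), (true, [y]), (false, [])])
      = 2 * ((L.filter fun y => y ∈ S).length : ℤ) - L.length := by
  induction L with
  | nil => simp [weight]
  | cons y L ih =>
    rw [List.flatMap_cons, Cor_weight_append, ih]
    by_cases hy : y ∈ S
    · simp [weight, hy]
      ring
    · simp [weight, hy]
      ring

theorem MajRed.thr {A S : Set (List Bool)} (h : MajRed A S) : ThrRed 1 A S := by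
  classical
  obtain ⟨f, hf, hA⟩ := h
  have hp := pf_of_encL hf
  refine ⟨fun x => (f x).flatMap fun y => [(true, [y]), (true, [y]), (false, [])],
    toEncQ ?_, ?_, ?_⟩
  · fun_prop
  · intro x q hq
    obtain ⟨y, _, hq⟩ := List.mem_flatMap.1 hq
    simp only [List.mem_cons, List.not_mem_nil, or_false] at hq
    rcases hq with rfl | rfl | rfl <;> simp
  · intro x
    rw [hA, Cor_weight_maj]
    omega

end Pool.Agent.W_d799b0_h82
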