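import Pool.Agent.W_d799b0_h82.Conv

/-!
# Parsing lists of queries

`pf_of_reduction`: `Poly.toTree` with `δ : Sym → D` the tree of `symC`, restricted to the strings
`encQ L` (`Poly.restrict`), then `parseQ` by `pf_foldr_add` (with `parseQ_encQ`); `Poly.comp`.
(`Sym` needs `Fintype` and `Inhabited` instances.)
-/

set_option autoImplicit false

open Turing Computability

namespace Pool.Agent.W_d799b0_h82

open Pool.Agent.PolyTime Function

/-- the code of a symbol: `(is it a bit, is it the separator, value)` -/
def symC : Sym → Bool × Bool × Bool
  | .bit b => (true, false, b)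
  | .sep => (false, true, false)
  | .sign b => (false, false, b)

/-- one step of parsing from the right; state `(current string, current strings, queries)` -/
def pstep (t : Bool × Bool × Bool) (s : List Bool × List (List Bool) × List Query) :
    List Bool × List (List Bool) × List Query :=
  if t.1 then (t.2.2 :: s.1, s.2.1, s.2.2)
  else if t.2.1 then ([], s.1 :: s.2.1, s.2.2)
  else ([], [], (t.2.2, s.2.1) :: s.2.2)

/-- parse a list of queries -/
def parseQ (l : List (Bool × Bool × Bool)) : List Query :=
  (l.foldr pstep ([], [], [])).2.2

theorem Parse_bits (y : List Bool) (s : List Bool) (Y : List (List Bool)) (Q : List Query) :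
    ((y.map Sym.bit).map symC).foldr pstep (s, Y, Q) = (y ++ s, Y, Q) := by
  induction y with
  | nil => rfl
  | cons b y ih =>
    rw [List.map_cons, List.map_cons, List.foldr_cons, ih]
    rfl

theorem Parse_strs (Ys : List (List Bool)) (Y : List (List Bool)) (Q : List Query) :
    ((Ys.flatMap fun y => Sym.sep :: y.map Sym.bit).map symC).foldr pstep ([], Y, Q) =
      ([], Ys ++ Y, Q) := by
  induction Ys with
  | nil => rfl
  | cons y Ys ih =>
    rw [List.flatMap_cons, List.map_append, List.foldr_append, ih, List.map_cons,
      List.foldr_cons, Parse_bits]
    simp [pstep, symC]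

theorem Parse_queries (L : List Query) (Q : List Query) :
    ((encQ L).map symC).foldr pstep ([], [], Q) = ([], [], L ++ Q) := by
  induction L with
  | nil => rfl
  | cons q L ih =>
    have h : encQ (q :: L) = (Sym.sign q.1 :: q.2.flatMap fun y => Sym.sep :: y.map Sym.bit) ++
        encQ L := rfl
    rw [h, List.map_append, List.foldr_append, ih, List.map_cons, List.foldr_cons, Parse_strs]
    simp [pstep, symC]

theorem parseQ_encQ (L : List Query) : parseQ ((encQ L).map symC) = L := by
  unfold parseQ
  rw [Parse_queries]
  simp

theorem Parse_size (t : Bool × Bool × Bool) (s : List Bool × List (List Bool) × List Query) :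
    sz (pstep t s) ≤ sz s + 6 := by
  obtain ⟨t1, t2, t3⟩ := t
  obtain ⟨s1, s2, s3⟩ := s
  have h1 := sz_bool t3
  have h2 := sz_pos s1
  cases t1 <;> cases t2 <;> simp only [pstep, Bool.false_eq_true, if_true, if_false, sz_pair,
    sz_cons, sz_nil] <;> omega

theorem pf_parseQ : PF parseQ := by
  have h : PF (fun c : List (Bool × Bool × Bool) => c.foldr pstep ([], [], [])) := by
    refine pf_foldr_add (γ := List (Bool × Bool × Bool)) (α := Bool × Bool × Bool)
      (β := List Bool × List (List Bool) × List Query) (f := fun _ a s => pstep a s)
      (b := fun _ => ([], [], [])) (l := fun c => c) ?_ (PF.const _) PF.id' 6 ?_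
    · unfold pstep
      fun_prop
    · intro c a _ s
      have := Parse_size a s
      simpa using this
  exact h.snd.snd

theorem encQ_injective : Injective encQ := by
  intro L L' h
  rw [← parseQ_encQ L, ← parseQ_encQ L', h]

theorem length_le_encQ (L : List Query) : L.length ≤ (encQ L).length := by
  induction L with
  | nil => simp
  | cons q L ih =>
    have h : encQ (q :: L) = (Sym.sign q.1 :: q.2.flatMap fun y => Sym.sep :: y.map Sym.bit) ++
        encQ L := rfl
    rw [h, List.length_append, List.length_cons, List.length_cons]
    omega

theorem length_mem_encQ {L : List Query} {q : Query} (hq : q ∈ L) {y : List Bool}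
    (hy : y ∈ q.2) : y.length ≤ (encQ L).length := by
  have h1 : ∀ Ys : List (List Bool), y ∈ Ys →
      y.length ≤ (Ys.flatMap fun y => Sym.sep :: y.map Sym.bit).length := by
    intro Ys
    induction Ys with
    | nil => intro h; simp at h
    | cons z Ys ih =>
      intro h
      rw [List.flatMap_cons, List.length_append, List.length_cons, List.length_map]
      rcases List.mem_cons.1 h with h | h
      · subst h; omega
      · have := ih h; omega
  induction L with
  | nil => simp at hq
  | cons p L ih =>
    have h : encQ (p :: L) = (Sym.sign p.1 :: p.2.flatMap fun y => Sym.sep :: y.map Sym.bit) ++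
        encQ L := rfl
    rw [h, List.length_append, List.length_cons]
    rcases List.mem_cons.1 hq with h2 | h2
    · subst h2
      have := h1 _ hy
      omega
    · have := ih h2
      omega

theorem Parse_tree : Poly encQ en (fun L : List Query => (encQ L).map symC) := by
  letI : Inhabited Sym := ⟨Sym.sep⟩
  letI : Fintype Sym := ⟨{Sym.bit true, Sym.bit false, Sym.sign true, Sym.sign false, Sym.sep},
    by
      intro x
      rcases x with b | b | _
      · cases b <;> simp
      · cases b <;> simp
      · simp⟩
  have h := Poly.toTree (fun s : Sym => toD (symC s))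
  refine h.restrict encQ (fun _ => rfl) (fun L => ?_)
  change (D.ofList ((encQ L).map fun s : Sym => toD (symC s))).enc =
    (D.ofList (((encQ L).map symC).map toD)).enc
  rw [List.map_map]
  rfl

/-- Reductions. -/
theorem pf_of_reduction {f : List Bool → List Query}
    (h : Nonempty (TM2ComputableInPolyTime (fun x : List Bool => x) encQ f)) : PF f := by
  letI : Inhabited Sym := ⟨Sym.sep⟩
  letI : Fintype Sym := ⟨{Sym.bit true, Sym.bit false, Sym.sign true, Sym.sign false, Sym.sep},
    by
      intro x
      rcases x with b | b | _
      · cases b <;> simp
      · cases b <;> simp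
      · simp⟩
  have h1 : Poly en encQ f := Poly.comp treeStr h
  have h2 : Poly en en (fun x => (encQ (f x)).map symC) :=
    Poly.comp (f := f) (g := fun L : List Query => (encQ L).map symC) h1 Parse_tree
  have h3 : Poly en en (fun x => parseQ ((encQ (f x)).map symC)) :=
    Poly.comp (f := fun x => (encQ (f x)).map symC) (g := parseQ) h2 pf_parseQ
  have h4 : (fun x => parseQ ((encQ (f x)).map symC)) = f := funext fun x => parseQ_encQ (f x)
  rw [h4] at h3
  exact h3

end Pool.Agent.W_d799b0_h82
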