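import Pool.Agent.W_d799b0_h82.PFun

/-!
# Polynomial-time functions on lists

`pf_drop`: iterate `List.tail` (`PF.iter`); `pf_take`: fold with a counter, or
`l.take n = ((l.zipIdx).filter (fun p => p.2 < n)).map Prod.fst`; `pf_headD`: `PF.listCases`;
`pf_getD`: `headD` of `drop`; `pf_count`: length of the filtered list; `pf_foldr`: `foldl` over the
reversed list (`List.foldr_reverse`, `List.foldl_reverse`), with `PF.foldl'`.
-/

set_option autoImplicit false
set_option linter.unusedSectionVars false

namespace Pool.Agent.W_d799b0_h82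

open Pool.Agent.PolyTime Function

variable {α β γ δ : Type} [ToD α] [ToD β] [ToD γ] [ToD δ]

@[fun_prop]
theorem pf_drop {n : γ → ℕ} {l : γ → List α} (hn : PF n) (hl : PF l) :
    PF (fun c => (l c).drop (n c)) := by
  obtain ⟨P, hP⟩ := hl.bound
  have key : ∀ (m : List α) (i : ℕ), (fun x : List α => x.tail)^[i] m = m.drop i := by
    intro m i
    induction i with
    | zero => simp
    | succ i ih => rw [iterate_succ_apply', ih, List.tail_drop]
  have h : PF (fun c => (fun x : List α => x.tail)^[n c] (l c)) := by
    refine PF.iter (f := fun _ x => x.tail) PF.id'.snd.tail hl hn P ?_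
    intro c i _
    rw [key]
    exact (sz_drop _ _).trans (hP c)
  exact h.cast (fun c => by rw [key])

@[fun_prop]
theorem pf_take {n : γ → ℕ} {l : γ → List α} (hn : PF n) (hl : PF l) :
    PF (fun c => (l c).take (n c)) := by
  have h : PF (fun c => ((l c).reverse.drop ((l c).length - n c)).reverse) :=
    (pf_drop (hl.length.sub hn) hl.reverse).reverse
  refine h.cast (fun c => ?_)
  congr 1
  rw [List.drop_reverse, List.reverse_reverse]
  rcases le_total (n c) (l c).length with h1 | h1
  · congr 1
    omega
  · rw [List.take_of_length_le h1, List.take_of_length_le (by omega)]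

@[fun_prop]
theorem pf_headD {d : γ → α} {l : γ → List α} (hd : PF d) (hl : PF l) :
    PF (fun c => (l c).headD (d c)) := by
  refine PF.listCases (g := l) (h1 := d) (h2 := fun y : γ × (α × List α) => y.2.1) hl hd
    PF.id'.snd.fst ?_ ?_
  · intro c hc
    rw [hc]
    rfl
  · intro c a l' hc
    rw [hc]
    rfl

@[fun_prop]
theorem pf_getD {n : γ → ℕ} {d : γ → α} {l : γ → List α} (hn : PF n) (hd : PF d) (hl : PF l) :
    PF (fun c => (l c).getD (n c) (d c)) := by
  refine (pf_headD hd (pf_drop hn hl)).cast (fun c => ?_)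
  congr 1
  rw [List.headD_eq_head?_getD, List.head?_drop, List.getD_eq_getElem?_getD]

@[fun_prop]
theorem pf_isEmpty {l : γ → List α} (hl : PF l) : PF (fun c => (l c).isEmpty) := by
  refine hl.isCons.not.cast (fun c => ?_)
  rw [Bool.not_not]

@[fun_prop]
theorem pf_count [Inj α] [BEq α] [LawfulBEq α] {a : γ → α} {l : γ → List α} (ha : PF a)
    (hl : PF l) : PF (fun c => (l c).count (a c)) := by
  have h : PF (fun c => ((l c).filter (fun x => x == a c)).length) :=
    (PF.filter (g := fun c x => x == a c)
      (pf_beq PF.id'.snd (ha.comp PF.id'.fst)) hl).length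
  refine h.cast (fun c => ?_)
  congr 1
  rw [List.count, List.countP_eq_length_filter]

/-- folding from the right -/
theorem pf_foldr {f : γ → α → β → β} {b : γ → β} {l : γ → List α}
    (hf : PF (fun x : (γ × α) × β => f x.1.1 x.1.2 x.2)) (hb : PF b) (hl : PF l)
    (P : Polynomial ℕ)
    (hP : ∀ c (l' : List α), l' <:+ l c → sz (l'.foldr (f c) (b c)) ≤ P.eval (sz c)) :
    PF (fun c => (l c).foldr (f c) (b c)) := by
  have h : PF (fun c => (l c).reverse.foldl (fun s a => f c a s) (b c)) := by
    refine PF.foldl' (f := fun c s a => f c a s) ?_ hb hl.reverse P ?_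
    · exact hf.comp ((PF.id'.fst.fst.pair PF.id'.snd).pair PF.id'.fst.snd)
    · intro c l' hl'
      have h1 : l'.reverse <:+ l c := by
        rw [← List.reverse_prefix, List.reverse_reverse]
        exact hl'
      have h2 := hP c l'.reverse h1
      rw [List.foldr_reverse] at h2
      exact h2
  refine h.cast (fun c => ?_)
  rw [List.foldl_reverse]

/-- folding from the left where every step increases the size by a bounded amount -/
theorem pf_foldl_add {f : γ → β → α → β} {b : γ → β} {l : γ → List α}
    (hf : PF (fun x : (γ × β) × α => f x.1.1 x.1.2 x.2)) (hb : PF b) (hl : PF l)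
    (P : Polynomial ℕ)
    (hP : ∀ c s, ∀ a ∈ l c, sz (f c s a) ≤ sz s + P.eval (sz c)) :
    PF (fun c => (l c).foldl (f c) (b c)) := by
  obtain ⟨B, hB⟩ := hb.bound
  obtain ⟨L, hL⟩ := hl.bound
  refine PF.foldl' hf hb hl (B + L * P) ?_
  intro c l' hl'
  have key : ∀ (m : List α) (s : β), (∀ a ∈ m, a ∈ l c) →
      sz (m.foldl (f c) s) ≤ sz s + m.length * P.eval (sz c) := by
    intro m
    induction m with
    | nil => intro s _; simp
    | cons a m ih =>
      intro s hm
      rw [List.foldl_cons]
      have h1 := ih (f c s a) (fun x hx => hm x (List.mem_cons_of_mem _ hx))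
      have h2 := hP c s a (hm a List.mem_cons_self)
      rw [List.length_cons, add_mul, one_mul]
      omega
  have h1 := key l' (b c) (fun a ha => hl'.subset ha)
  have h2 := hB c
  have h3 : l'.length ≤ L.eval (sz c) :=
    (length_le_sz l').trans ((sz_prefix hl').trans (hL c))
  have h4 := Nat.mul_le_mul_right (P.eval (sz c)) h3
  rw [Polynomial.eval_add, Polynomial.eval_mul]
  omega

/-- folding from the right where every step increases the size by a bounded amount -/
theorem pf_foldr_add {f : γ → α → β → β} {b : γ → β} {l : γ → List α}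
    (hf : PF (fun x : (γ × α) × β => f x.1.1 x.1.2 x.2)) (hb : PF b) (hl : PF l)
    (P : Polynomial ℕ)
    (hP : ∀ c, ∀ a ∈ l c, ∀ s, sz (f c a s) ≤ sz s + P.eval (sz c)) :
    PF (fun c => (l c).foldr (f c) (b c)) := by
  obtain ⟨B, hB⟩ := hb.bound
  obtain ⟨L, hL⟩ := hl.bound
  refine pf_foldr hf hb hl (B + L * P) ?_
  intro c l' hl'
  have key : ∀ (m : List α) (s : β), (∀ a ∈ m, a ∈ l c) →
      sz (m.foldr (f c) s) ≤ sz s + m.length * P.eval (sz c) := by
    intro m
    induction m with
    | nil => intro s _; simp
    | cons a m ih =>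
      intro s hm
      rw [List.foldr_cons]
      have h1 := ih s (fun x hx => hm x (List.mem_cons_of_mem _ hx))
      have h2 := hP c a (hm a List.mem_cons_self) (m.foldr (f c) s)
      rw [List.length_cons, add_mul, one_mul]
      omega
  have h1 := key l' (b c) (fun a ha => hl'.subset ha)
  have h2 := hB c
  have h3 : l'.length ≤ L.eval (sz c) := by
    have h5 := hl'.length_le
    exact h5.trans ((length_le_sz (l c)).trans (hL c))
  have h4 := Nat.mul_le_mul_right (P.eval (sz c)) h3
  rw [Polynomial.eval_add, Polynomial.eval_mul]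
  omega

/-- iteration where every step increases the size by a bounded amount -/
theorem pf_iter_add {f : γ → β → β} {b : γ → β} {n : γ → ℕ}
    (hf : PF (fun x : γ × β => f x.1 x.2)) (hb : PF b) (hn : PF n) (P : Polynomial ℕ)
    (hP : ∀ c s, sz (f c s) ≤ sz s + P.eval (sz c)) :
    PF (fun c => (f c)^[n c] (b c)) := by
  obtain ⟨B, hB⟩ := hb.bound
  obtain ⟨N, hN⟩ := hn.bound
  refine PF.iter hf hb hn (B + N * P) ?_
  intro c i hi
  have key : ∀ j : ℕ, sz ((f c)^[j] (b c)) ≤ sz (b c) + j * P.eval (sz c) := by
    intro j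
    induction j with
    | zero => simp
    | succ j ih =>
      rw [iterate_succ_apply']
      have h2 := hP c ((f c)^[j] (b c))
      rw [add_mul, one_mul]
      omega
  have h1 := key i
  have h2 := hB c
  have h3 : i ≤ N.eval (sz c) := by
    have h5 := hN c
    rw [sz_nat] at h5
    omega
  have h4 := Nat.mul_le_mul_right (P.eval (sz c)) h3
  rw [Polynomial.eval_add, Polynomial.eval_mul]
  omega

end Pool.Agent.W_d799b0_h82
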