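import Pool.Agent.W_d799b0_h82.PFunL

set_option autoImplicit false

namespace Pool.Agent.W_d799b0_h82

open Pool.Agent.PolyTime Function

variable {γ : Type} [ToD γ]

theorem pnat_mod_iter (g x n : ℕ) (_ : 0 < g) (h : x < n * g + g) :
    (fun y => if decide (y < g) then y else y - g)^[n] x = x % g := by
  induction n generalizing x with
  | zero => 
    rw [Function.iterate_zero, id]
    exact (Nat.mod_eq_of_lt (by omega)).symm
  | succ n ih =>
    rw [Function.iterate_succ_apply]
    by_cases hx : x < g
    · have h1 : (if decide (x < g) then x else x - g) = x := by simp [hx]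
      rw [h1]
      exact ih x (by nlinarith)
    · have h1 : (if decide (x < g) then x else x - g) = x - g := by simp [hx]
      rw [h1, ih (x - g) (by rw [Nat.add_mul] at h; omega)]
      exact (Nat.mod_eq_sub_mod (by omega)).symm

theorem pnat_mod_iter_le (g x n : ℕ) :
    (fun y => if decide (y < g) then y else y - g)^[n] x ≤ x := by
  induction n with
  | zero => exact le_rfl
  | succ n ih =>
    rw [Function.iterate_succ_apply']
    refine le_trans ?_ ih
    split <;> omega

@[fun_prop]
theorem pf_mod {f g : γ → ℕ} (hf : PF f) (hg : PF g) : PF (fun c => f c % g c) := by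
  obtain ⟨P, hP⟩ := hf.bound
  have h : PF (fun c => (fun y => if decide (y < g c) then y else y - g c)^[f c] (f c)) := by
    refine PF.iter (f := fun c y => if decide (y < g c) then y else y - g c)
      ((PF.id'.snd.lt (hg.comp PF.id'.fst)).ite PF.id'.snd
        (PF.id'.snd.sub (hg.comp PF.id'.fst))) hf hf P ?_
    intro c i _
    refine le_trans ?_ (hP c)
    rw [sz_nat, sz_nat]
    have := pnat_mod_iter_le (g c) (f c) i
    omega
  refine h.cast (fun c => ?_)
  congr 1
  rcases Nat.eq_zero_or_pos (g c) with h0 | h0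
  · rw [h0, Nat.mod_zero]
    have : ∀ n : ℕ, (fun y => if decide (y < 0) then y else y - 0)^[n] (f c) = f c := by
      intro n
      induction n with
      | zero => rfl
      | succ n ih => rw [Function.iterate_succ_apply', ih]; simp
    rw [this]
  · exact (pnat_mod_iter (g c) (f c) (f c) h0 (by nlinarith)).symm

theorem pnat_half_iter (n i : ℕ) :
    (fun s : ℕ × ℕ => if decide (2 ≤ s.1) then (s.1 - 2, s.2 + 1) else s)^[i] (n, 0) =
      (n - 2 * min i (n / 2), min i (n / 2)) := by
  induction i with
  | zero => simp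
  | succ i ih =>
    rw [Function.iterate_succ_apply', ih]
    by_cases h : i + 1 ≤ n / 2
    · have h2 : min i (n / 2) = i := by omega
      have h3 : min (i + 1) (n / 2) = i + 1 := by omega
      have h4 : 2 ≤ n - 2 * i := by omega
      simp only [h2, h3, h4, decide_true, if_true]
      congr 1
    · have h2 : min i (n / 2) = n / 2 := by omega
      have h3 : min (i + 1) (n / 2) = n / 2 := by omega
      have h4 : ¬ 2 ≤ n - 2 * (n / 2) := by omega
      simp only [h2, h3, h4, decide_false]
      simp

@[fun_prop]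
theorem pf_half {f : γ → ℕ} (hf : PF f) : PF (fun c => f c / 2) := by
  obtain ⟨P, hP⟩ := hf.bound
  have h : PF (fun c => (fun s : ℕ × ℕ =>
      if decide (2 ≤ s.1) then (s.1 - 2, s.2 + 1) else s)^[f c] (f c, 0)) := by
    refine PF.iter (f := fun _ s => if decide (2 ≤ s.1) then (s.1 - 2, s.2 + 1) else s)
      (((PF.const 2).le PF.id'.snd.fst).ite
        ((PF.id'.snd.fst.sub (PF.const 2)).pair PF.id'.snd.snd.succ) PF.id'.snd)
      (hf.pair (PF.const 0)) hf (2 * P + 10) ?_
    intro c i _
    have h1 := hP c
    rw [pnat_half_iter, sz_pair, sz_nat, sz_nat]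
    rw [sz_nat] at h1
    simp only [Polynomial.eval_add, Polynomial.eval_mul, Polynomial.eval_ofNat]
    omega
  refine h.snd.cast (fun c => ?_)
  congr 1
  rw [pnat_half_iter]
  simp only
  omega

theorem two_pow_size_le (n : ℕ) : 2 ^ Nat.size n ≤ 2 * n + 1 := by
  rcases Nat.eq_zero_or_pos (Nat.size n) with h | h
  · rw [h]; omega
  · have h1 : Nat.size n - 1 < Nat.size n := by omega
    have h2 := Nat.lt_size.1 h1
    have h3 : 2 ^ Nat.size n = 2 * 2 ^ (Nat.size n - 1) := by
      rw [← pow_succ']; congr 1; omega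
    omega

theorem pnat_size_iter (n i : ℕ) :
    (fun s : ℕ × ℕ => if decide (s.1 ≤ n) then (2 * s.1, s.2 + 1) else s)^[i] (1, 0) =
      (2 ^ min i (Nat.size n), min i (Nat.size n)) := by
  induction i with
  | zero => simp
  | succ i ih =>
    rw [Function.iterate_succ_apply', ih]
    by_cases h : i + 1 ≤ Nat.size n
    · have h2 : min i (Nat.size n) = i := by omega
      have h3 : min (i + 1) (Nat.size n) = i + 1 := by omega
      have h4 : 2 ^ i ≤ n := Nat.lt_size.1 (by omega)
      simp only [h2, h3, h4, decide_true, if_true]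
      rw [pow_succ']
    · have h2 : min i (Nat.size n) = Nat.size n := by omega
      have h3 : min (i + 1) (Nat.size n) = Nat.size n := by omega
      have h4 : ¬ 2 ^ Nat.size n ≤ n := by
        have := Nat.lt_size_self n
        omega
      simp only [h2, h3, h4, decide_false]
      simp

theorem pnat_pf_size {f : γ → ℕ} (hf : PF f) :
    PF (fun c => (2 ^ Nat.size (f c), Nat.size (f c))) := by
  obtain ⟨P, hP⟩ := hf.bound
  have h : PF (fun c => (fun s : ℕ × ℕ =>
      if decide (s.1 ≤ f c) then (2 * s.1, s.2 + 1) else s)^[f c] (1, 0)) := by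
    refine PF.iter (f := fun c s => if decide (s.1 ≤ f c) then (2 * s.1, s.2 + 1) else s)
      ((PF.id'.snd.fst.le (hf.comp PF.id'.fst)).ite
        (((PF.const 2).mul PF.id'.snd.fst).pair PF.id'.snd.snd.succ) PF.id'.snd)
      (PF.const (1, 0)) hf (4 * P + 10) ?_
    intro c i hi
    have h1 := hP c
    rw [pnat_size_iter, sz_pair, sz_nat, sz_nat]
    rw [sz_nat] at h1
    have h2 : 2 ^ min i (Nat.size (f c)) ≤ 2 ^ Nat.size (f c) :=
      Nat.pow_le_pow_right (by norm_num) (min_le_right _ _)
    have h3 := two_pow_size_le (f c)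
    have h4 : min i (Nat.size (f c)) ≤ f c := by omega
    simp only [Polynomial.eval_add, Polynomial.eval_mul, Polynomial.eval_ofNat]
    omega
  refine h.cast (fun c => ?_)
  congr 1
  rw [pnat_size_iter]
  have h5 : Nat.size (f c) ≤ f c := Nat.size_le.2 (Nat.lt_pow_self (by norm_num))
  rw [min_eq_right h5]

@[fun_prop]
theorem pf_size {f : γ → ℕ} (hf : PF f) : PF (fun c => Nat.size (f c)) := (pnat_pf_size hf).snd

@[fun_prop]
theorem pf_pow_size {f : γ → ℕ} (hf : PF f) : PF (fun c => 2 ^ Nat.size (f c)) :=
  (pnat_pf_size hf).fst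

@[fun_prop]
theorem pf_prime {f : γ → ℕ} (hf : PF f) : PF (fun c => decide (Nat.Prime (f c))) := by
  have hf1 : PF (fun x : γ × ℕ => f x.1) := hf.comp PF.id'.fst
  have h : PF (fun c => decide (2 ≤ f c) && (List.range (f c)).all (fun k =>
      !(decide (2 ≤ k) && decide (f c % k = 0)))) :=
    ((PF.const 2).le hf).and (PF.all (g := fun c k => !(decide (2 ≤ k) && decide (f c % k = 0)))
      ((((PF.const 2).le PF.id'.snd).and ((pf_mod hf1 PF.id'.snd).natEq (PF.const 0))).not)
      hf.range)
  refine h.cast (fun c => ?_)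
  congr 1
  rw [Bool.eq_iff_iff]
  simp only [decide_eq_true_eq, Bool.and_eq_true, List.all_eq_true, List.mem_range,
    Bool.not_eq_true', Bool.and_eq_false_iff, decide_eq_false_iff_not]
  rw [Nat.prime_def_lt']
  refine and_congr_right fun _ => ?_
  constructor
  · intro h1 k hk
    by_cases h2 : 2 ≤ k
    · right
      intro h3
      exact h1 k h2 hk (Nat.dvd_of_mod_eq_zero h3)
    · exact Or.inl h2
  · intro h1 m hm1 hm2 hd
    rcases h1 m hm2 with h3 | h3
    · exact h3 hm1
    · exact h3 (Nat.mod_eq_zero_of_dvd hd)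

end Pool.Agent.W_d799b0_h82
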