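import Pool.Agent.W_d799b0_h42.BinA

/-!
# The size of the instances that occur

`X = |x|`, `M` blocks, `n' = 4 e M`, all numbers are at most `r < 2 ^ (4 e + 1)`, so
`Nat.size ≤ 4 e + 1` and `sz (Bn.mk m) ≤ 4 * (4 e + 1) + 1 = 16 e + 5` (`sz_bn`,
`Nat.size_le`).  `sz x ≤ 4 X + 1`, `sz` of a unary number `m` is `2 m + 1` (`sz_nat`),
`sz` of a pair is the sum plus one, `sz (a :: l) = sz a + sz l + 1`.
Header: at most `4X + 1 + 2e + 1 + 8eM + 1 + 16e + 5 + 3`.  A test: `8eM + 64e + 25`, two of them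
`16eM + 128e + 53`.  A seed: `96e + 35`; all phases together (at most `2M` seeds, at most `2M + 1`
phases): at most `2M (96e + 36) + 2 (2M + 1) + 1`.  The sum is at most
`4X + 146 e + 216 eM + 76 M + 71 ≤ 300 (X + 1) (M + 1) (e + 1)`.
-/

set_option autoImplicit false

namespace Pool.Agent.W_d799b0_h82

open Pool.Agent.PolyTime Function

theorem sz_list_le {α : Type} [ToD α] (B : ℕ) (l : List α) (h : ∀ a ∈ l, sz a ≤ B) :
    sz l ≤ l.length * (B + 1) + 1 := by
  induction l with
  | nil => rw [sz_nil]; simp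
  | cons a l ih =>
    have h1 := h a (by simp)
    have h2 := ih fun b hb => h b (List.mem_cons_of_mem _ hb)
    rw [sz_cons, List.length_cons, Nat.succ_mul]
    omega

theorem sz_str_le (x : List Bool) : sz x ≤ 4 * x.length + 1 := by
  have := sz_list_le 3 x fun b _ => sz_bool b
  omega

theorem sz_phases_le (B : ℕ) (ph : List (List Seed)) (h : ∀ σ ∈ ph, ∀ s ∈ σ, sz s ≤ B) :
    sz ph ≤ (ph.map List.length).sum * (B + 1) + 2 * ph.length + 1 := by
  induction ph with
  | nil => rw [sz_nil]; simp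
  | cons σ ph ih =>
    have h1 := sz_list_le B σ (h σ (by simp))
    have h2 := ih fun τ hτ => h τ (List.mem_cons_of_mem _ hτ)
    rw [sz_cons, List.length_cons, List.map_cons, List.sum_cons, Nat.add_mul]
    omega

theorem used_sz {E : Env} (hP : Params E) {I : Inst} (hU : Used E I) :
    sz I ≤ 300 * (((eX E).length + 1) * (eM E + 1) * (eE E + 1)) := by
  obtain ⟨h1, h2, h3, h4, h5, h6⟩ := hU
  have hn := hP.n_eq
  have hb : ∀ b : Bn, b.n ≤ eR E → sz b ≤ 16 * eE E + 5 := by
    intro b hb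
    have h7 : Nat.size b.n ≤ 4 * eE E + 1 := Nat.size_le.2 (lt_of_le_of_lt hb hP.r_lt)
    have h8 := sz_bn b.n
    have h9 : (Bn.mk b.n) = b := rfl
    rw [h9] at h8
    omega
  obtain ⟨H, T, ph⟩ := I
  simp only at h1 h2 h3 h4 h5 h6
  subst h1
  -- header
  have hH : sz (hdE E) ≤ 4 * (eX E).length + 18 * eE E + 2 * eN E + 11 := by
    have h7 := sz_str_le (eX E)
    have h8 := hb ⟨eR E⟩ le_rfl
    unfold hdE
    rw [sz_pair, sz_pair, sz_pair, sz_nat, sz_nat]
    omega
  -- tests
  have hT : sz T ≤ 2 * (2 * eN E + 64 * eE E + 26) + 1 := by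
    have h7 : sz T ≤ T.length * (2 * eN E + 64 * eE E + 25 + 1) + 1 := by
      apply sz_list_le
      intro τ hτ
      obtain ⟨g1, g2, g3, g4, g5⟩ := h3 τ hτ
      obtain ⟨j, b1, b2, b3, b4⟩ := τ
      simp only at g1 g2 g3 g4 g5
      have k1 := hb b1 g2
      have k2 := hb b2 g3
      have k3 := hb b3 g4
      have k4 := hb b4 g5
      rw [sz_pair, sz_pair, sz_pair, sz_pair, sz_nat]
      omega
    have h8 : T.length * (2 * eN E + 64 * eE E + 25 + 1) ≤ 2 * (2 * eN E + 64 * eE E + 25 + 1) :=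
      Nat.mul_le_mul_right _ h2
    omega
  -- phases
  have hph : sz ph ≤ 2 * eM E * (96 * eE E + 36) + 2 * (2 * eM E + 1) + 1 := by
    have h7 := sz_phases_le (96 * eE E + 35) ph (by
      intro σ hσ s hs
      obtain ⟨⟨p1, p2, p3⟩, q1, q2, q3⟩ := h6 σ hσ s hs
      obtain ⟨⟨a1, a2, a3⟩, b1, b2, b3⟩ := s
      simp only at p1 p2 p3 q1 q2 q3
      have k1 := hb a1 p1.le
      have k2 := hb a2 p2.le
      have k3 := hb a3 p3.le
      have k4 := hb b1 q1.le
      have k5 := hb b2 q2.le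
      have k6 := hb b3 q3.le
      rw [sz_pair, sz_pair, sz_pair, sz_pair, sz_pair]
      omega)
    have h8 : (ph.map List.length).sum * (96 * eE E + 35 + 1) ≤ 2 * eM E * (96 * eE E + 35 + 1) :=
      Nat.mul_le_mul_right _ h5
    have h9 : 2 * eM E * (96 * eE E + 35 + 1) = 2 * eM E * (96 * eE E + 36) := rfl
    omega
  have key : 4 * (eX E).length + 146 * eE E + 216 * (eE E * eM E) + 76 * eM E + 71 ≤
      300 * (((eX E).length + 1) * (eM E + 1) * (eE E + 1)) := by
    have h7 : (eX E).length + (eM E * eE E + eM E + eE E + 1) ≤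
        ((eX E).length + 1) * (eM E + 1) * (eE E + 1) := by
      have h8 : ((eX E).length + 1) * (eM E + 1) * (eE E + 1) =
        (eX E).length * ((eM E + 1) * (eE E + 1)) + (eM E * eE E + eM E + eE E + 1) := by ring
      have h9 : (eX E).length * 1 ≤ (eX E).length * ((eM E + 1) * (eE E + 1)) :=
        Nat.mul_le_mul_left _ (Nat.one_le_iff_ne_zero.2 (by positivity))
      omega
    have h10 : eM E * eE E = eE E * eM E := Nat.mul_comm _ _
    omega
  have hn2 : eN E = 4 * (eE E * eM E) := by rw [hn]; ring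
  have hm2 : 2 * eM E * (96 * eE E + 36) = 192 * (eE E * eM E) + 72 * eM E := by ring
  rw [sz_pair (hdE E) (T, ph), sz_pair T ph]
  omega

end Pool.Agent.W_d799b0_h82
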