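import Mathlib

/-!
# Sparse hard sets for NP: definitions

Languages are sets of bit strings.  Polynomial time is Mathlib's `TM2ComputableInPolyTime`.
-/

set_option autoImplicit false

open Turing Computability

namespace Pool.Agent.W_d799b0_h82

/-- A language is in P if its characteristic function is computable in polynomial time. -/
def InP (A : Set (List Bool)) : Prop :=
  ∃ χ : List Bool → Bool,
    Nonempty (TM2ComputableInPolyTime (fun x : List Bool => x) encodeBool χ) ∧
    ∀ x, x ∈ A ↔ χ x = true

/-- A language is in NP if it has a polynomial-time verifier: there are a polynomial `p` and a
polynomial-time computable predicate `V` such that `x` is in the language iff `V (x, y)` holds for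
some certificate `y` of length at most `p |x|`. -/
def InNP (A : Set (List Bool)) : Prop :=
  ∃ (p : Polynomial ℕ) (V : List Bool × List Bool → Bool),
    Nonempty (TM2ComputableInPolyTime
      (encodingProd (encodingList Bool) (encodingList Bool)).encode encodeBool V) ∧
    ∀ x, x ∈ A ↔ ∃ y : List Bool, y.length ≤ p.eval x.length ∧ V (x, y) = true

/-- A set is sparse if it contains at most polynomially many strings of length at most `n`. -/
def Sparse (S : Set (List Bool)) : Prop :=
  ∃ p : Polynomial ℕ, ∀ n, {y | y ∈ S ∧ y.length ≤ n}.ncard ≤ p.eval n

/-- A signed query: a sign (`true` for plus) and a list of strings.  The query is satisfied by an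
oracle set if all the strings are in the set; a query without strings is always satisfied. -/
abbrev Query := Bool × List (List Bool)

open Classical in
/-- The number of satisfied positive queries minus the number of satisfied negative queries. -/
noncomputable def weight (S : Set (List Bool)) (L : List Query) : ℤ :=
  (L.map fun q => if ∀ y ∈ q.2, y ∈ S then (if q.1 then (1 : ℤ) else -1) else 0).sum

/-- Symbols used for writing down a list of queries. -/
inductive Sym
  | bit (b : Bool)
  | sign (b : Bool)
  | sep
  deriving DecidableEq

/-- A list of queries is written down query by query; a query is written as its sign, followed by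
its strings, each of them preceded by a separator. -/
def encQ (L : List Query) : List Sym :=
  L.flatMap fun q => Sym.sign q.1 :: q.2.flatMap fun y => Sym.sep :: y.map Sym.bit

/-- `A` reduces to `S` by a polynomial-time threshold reduction of degree `k`: in polynomial time
one computes from `x` a list of signed queries, each of them asking for at most `k` strings, and
`x` is in `A` iff more positive than negative queries are satisfied by `S`. -/
def ThrRed (k : ℕ) (A S : Set (List Bool)) : Prop :=
  ∃ f : List Bool → List Query,
    Nonempty (TM2ComputableInPolyTime (fun x : List Bool => x) encQ f) ∧
    (∀ x, ∀ q ∈ f x, q.2.length ≤ k) ∧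
    ∀ x, x ∈ A ↔ 0 < weight S (f x)

/-- A list of strings is written down with a separator `none` before each string. -/
def encL (L : List (List Bool)) : List (Option Bool) :=
  L.flatMap fun y => none :: y.map some

/-- `A` is disjunctively reducible to `S`: some polynomial-time computable `f` maps each string to
a finite list of strings, and `x` is in `A` iff `f x` contains an element of `S`. -/
def DisjRed (A S : Set (List Bool)) : Prop :=
  ∃ f : List Bool → List (List Bool),
    Nonempty (TM2ComputableInPolyTime (fun x : List Bool => x) encL f) ∧
    ∀ x, x ∈ A ↔ ∃ y ∈ f x, y ∈ S

/-- `A` is conjunctively reducible to `S`: some polynomial-time computable `f` maps each string to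
a finite list of strings, and `x` is in `A` iff all elements of `f x` are in `S`. -/
def ConjRed (A S : Set (List Bool)) : Prop :=
  ∃ f : List Bool → List (List Bool),
    Nonempty (TM2ComputableInPolyTime (fun x : List Bool => x) encL f) ∧
    ∀ x, x ∈ A ↔ ∀ y ∈ f x, y ∈ S

open Classical in
/-- `A` is majority reducible to `S`: some polynomial-time computable `f` maps each string to
a finite list of strings, and `x` is in `A` iff more than half of the entries of the list `f x`
are in `S`. -/
def MajRed (A S : Set (List Bool)) : Prop :=
  ∃ f : List Bool → List (List Bool),
    Nonempty (TM2ComputableInPolyTime (fun x : List Bool => x) encL f) ∧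
    ∀ x, x ∈ A ↔ (f x).length < 2 * ((f x).filter fun y => y ∈ S).length

end Pool.Agent.W_d799b0_h82
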