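import Pool.Agent.W_d799b0_h82.PNat
import Pool.Agent.W_d799b0_h82.Defs

/-!
# Between Mathlib's encodings and trees

Tools: `Poly.toTree`, `Poly.ofTree`, `Poly.rawOfNat`, `Poly.restrict`, `Poly.comp`, `PF.toPB`,
`PB.toPF` of the library `Pool/Agent/PolyTime`.
`pairTree`: `(encodingProd ..).encode (x, y) = x.map Sum.inl ++ y.map Sum.inr`; `Poly.toTree` with
`δ : Bool ⊕ Bool → D` the tree of the pair `(is the symbol a left one, its value)`; then `PF`
(filter and map).  `treePair`: `Poly.rawOfNat` with `Bool ⊕ Bool` coded by `0, 1, 2, 3`.
-/

set_option autoImplicit false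

open Turing Computability

namespace Pool.Agent.W_d799b0_h82

open Pool.Agent.PolyTime Function

theorem strTree : Poly (fun x : List Bool => x) en (fun x : List Bool => x) :=
  (Poly.toTree D.ofBool).restrict id (fun _ => rfl) (fun _ => rfl)

theorem treeStr : Poly en (fun x : List Bool => x) (fun x : List Bool => x) :=
  Poly.ofTree.restrict id (fun _ => rfl) (fun _ => rfl)

/-- letters as pairs -/
private def Conv_code : Bool ⊕ Bool → Bool × Bool
  | .inl b => (true, b)
  | .inr b => (false, b)

private theorem Conv_toTree : Poly (id : List (Bool ⊕ Bool) → List (Bool ⊕ Bool)) en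
    (fun w : List (Bool ⊕ Bool) => w.map Conv_code) := by
  refine (Poly.toTree (fun s : Bool ⊕ Bool => toD (Conv_code s))).restrict
    (ea' := id) (eb' := en) (f' := fun w : List (Bool ⊕ Bool) => w.map Conv_code) id
    (fun _ => rfl) (fun w => ?_)
  show (D.ofList (w.map _)).enc = (D.ofList ((w.map Conv_code).map toD)).enc
  rw [List.map_map]
  rfl

theorem pairTree : Poly (encodingProd (encodingList Bool) (encodingList Bool)).encode en
    (fun p : List Bool × List Bool => p) := by
  have h2 : PF (fun l : List (Bool × Bool) =>
      ((l.filter (fun p => p.1)).map (fun p => p.2),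
        (l.filter (fun p => !p.1)).map (fun p => p.2))) := by
    fun_prop
  have h3 := Poly.comp Conv_toTree h2
  refine h3.restrict (encodingProd (encodingList Bool) (encodingList Bool)).encode
    (fun _ => rfl) ?_
  rintro ⟨x, y⟩
  congr 1
  have e : (encodingProd (encodingList Bool) (encodingList Bool)).encode (x, y) =
      x.map Sum.inl ++ y.map Sum.inr := rfl
  rw [e]
  have hx : ((x.map Sum.inl : List (Bool ⊕ Bool)).map Conv_code) = x.map (fun b => (true, b)) := by
    simp [Conv_code, Function.comp_def]
  have hy : ((y.map Sum.inr : List (Bool ⊕ Bool)).map Conv_code) =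
      y.map (fun b => (false, b)) := by
    simp [Conv_code, Function.comp_def]
  simp only [List.map_append, hx, hy, List.filter_append, List.filter_map, Function.comp_def]
  simp

/-- letters as numbers -/
private def Conv_cd : Bool ⊕ Bool → ℕ
  | .inl false => 0
  | .inl true => 1
  | .inr false => 2
  | .inr true => 3

/-- numbers as letters -/
private def Conv_dec : ℕ → Bool ⊕ Bool
  | 0 => .inl false
  | 1 => .inl true
  | 2 => .inr false
  | _ => .inr true

theorem treePair : Poly en (encodingProd (encodingList Bool) (encodingList Bool)).encode
    (fun p : List Bool × List Bool => p) := by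
  let F : List Bool × List Bool → List ℕ := fun p =>
    p.1.map (fun b => if b then 1 else 0) ++ p.2.map (fun b => if b then 3 else 2)
  have h1 : PF F := by
    show PF (fun p : List Bool × List Bool =>
      p.1.map (fun b => if b then 1 else 0) ++ p.2.map (fun b => if b then 3 else 2))
    fun_prop
  have h1' : Poly en (fun p : List Bool × List Bool => en (F p))
      (fun p : List Bool × List Bool => p) :=
    Poly.restrict h1 id (fun _ => rfl) (fun _ => rfl)
  have h2 := Poly.rawOfNat 3 Conv_dec Conv_cd
    (by rintro (_ | _) <;> rename_i b <;> cases b <;> decide)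
    (by rintro (_ | _) <;> rename_i b <;> cases b <;> rfl)
  have h2' : Poly (fun p : List Bool × List Bool => en (F p))
      (encodingProd (encodingList Bool) (encodingList Bool)).encode
      (fun p : List Bool × List Bool => p) := by
    refine h2.restrict (encodingProd (encodingList Bool) (encodingList Bool)).encode ?_
      (fun _ => rfl)
    rintro ⟨x, y⟩
    congr 1
    have e : (encodingProd (encodingList Bool) (encodingList Bool)).encode (x, y) =
        x.map Sum.inl ++ y.map Sum.inr := rfl
    rw [e]
    simp only [F, List.map_append, List.map_map]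
    congr 1
    · apply List.map_congr_left
      intro b _
      cases b <;> rfl
    · apply List.map_congr_left
      intro b _
      cases b <;> rfl
  exact Poly.comp h1' h2'

/-- Characteristic functions given by trees. -/
theorem raw_of_pf {χ : List Bool → Bool} (h : PF χ) :
    Nonempty (TM2ComputableInPolyTime (fun x : List Bool => x) encodeBool χ) :=
  Poly.comp strTree h.toPB

/-- Verifiers. -/
theorem pf_of_verifier {V : List Bool × List Bool → Bool}
    (h : Nonempty (TM2ComputableInPolyTime
      (encodingProd (encodingList Bool) (encodingList Bool)).encode encodeBool V)) : PF V :=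
  PB.toPF (Poly.comp treePair h)

end Pool.Agent.W_d799b0_h82
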