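import Pool.Agent.W_d799b0_h82.Defs

/-!
# The universal NP language and the algorithm

All functions here are ordinary functions on natural numbers, bit strings and lists.  That they
are computable in polynomial time is proved elsewhere.
-/

set_option autoImplicit false

namespace Pool.Agent.W_d799b0_h82

/-- A natural number that is written in binary. -/
structure Bn where
  n : ℕ
  deriving DecidableEq

/-- A point of `F ^ 3`, where `F` is the field with `r` elements: `(i, c, d)`. -/
abbrev Pt := Bn × Bn × Bn

/-- A seed: the points `α` and `β` of `F ^ 3`; it describes the points `α + l β`. -/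
abbrev Seed := Pt × Pt

/-- A plain test `(j, i, c, d, h)`: `c * (value at i of the first j bits) + d mod r < h`. -/
abbrev Test := ℕ × (Bn × Bn × Bn × Bn)

/-- The fixed part of an instance: `(x, e, n', r)`. -/
abbrev Hd := List Bool × (ℕ × ℕ × Bn)

/-- An instance of the universal language: fixed part, plain tests, and phases (last first). -/
abbrev Inst := Hd × (List Test × List (List Seed))

/-- The value of a binary numeral, least significant bit first. -/
def val : List Bool → ℕ
  | [] => 0
  | b :: l => b.toNat + 2 * val l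

/-- The value modulo `r` at `i` of the polynomial with the list `l` of coefficients. -/
def ev (r : ℕ) (l : List ℕ) (i : ℕ) : ℕ := l.foldr (fun a s => (a + i * s) % r) 0

/-- The `j`-th block of length `w`. -/
def chunk (w j : ℕ) (B : List Bool) : List Bool := (B.drop (j * w)).take w

/-- The value at `i` of the polynomial whose coefficients are the blocks of length `4 e` of `B`
(the coefficients beyond the end of `B` are zero). -/
def zB (e r : ℕ) (B : List Bool) (i : ℕ) : ℕ :=
  ev r ((List.range B.length).map fun j => val (chunk (4 * e) j B)) i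

/-- The value at `i` of the polynomial whose coefficients are the bits of `B`. -/
def bB (r : ℕ) (B : List Bool) (i : ℕ) : ℕ := ev r (B.map Bool.toNat) i

/-- first coordinate of the `l`-th point of a seed -/
def pI (r : ℕ) (s : Seed) (l : ℕ) : ℕ := (s.1.1.n + s.2.1.n * l) % r

/-- second coordinate of the `l`-th point of a seed -/
def pC (r : ℕ) (s : Seed) (l : ℕ) : ℕ := (s.1.2.1.n + s.2.2.1.n * l) % r

/-- third coordinate of the `l`-th point of a seed -/
def pD (r : ℕ) (s : Seed) (l : ℕ) : ℕ := (s.1.2.2.n + s.2.2.2.n * l) % r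

/-- The `2 e` bits `y`, read as a pair `(l, v)`, satisfy `c_l * z_B (i_l) + d_l = v`. -/
def symOK (e r : ℕ) (s : Seed) (B y : List Bool) : Bool :=
  decide ((pC r s (val (y.take e)) * zB e r B (pI r s (val (y.take e))) +
    pD r s (val (y.take e))) % r = val (y.drop e))

/-- `B'` consists of correct symbols for `B` and the seeds `σ`. -/
def link (e r : ℕ) (σ : List Seed) (B B' : List Bool) : Bool :=
  decide (B'.length = 2 * e * σ.length) &&
    σ.zipIdx.all fun p => symOK e r p.1 B (chunk (2 * e) p.2 B')

/-- The string `B` passes the plain test `τ`. -/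
def testOK (r : ℕ) (τ : Test) (B : List Bool) : Bool :=
  decide ((τ.2.2.1.n * bB r (B.take τ.1) τ.2.1.n + τ.2.2.2.1.n) % r < τ.2.2.2.2.n)

/-- Chains: the strings that are reached from witnesses that pass the plain tests. -/
def Ch (V : List Bool → List Bool → Bool) (H : Hd) (T : List Test) :
    List (List Seed) → List Bool → Prop
  | [], B => B.length = H.2.2.1 ∧ V H.1 B = true ∧ ∀ τ ∈ T, testOK H.2.2.2.n τ B = true
  | σ :: ph, B' => ∃ B, Ch V H T ph B ∧ link H.2.1 H.2.2.2.n σ B B' = true

/-- The universal language. -/
def Theta (V : List Bool → List Bool → Bool) (I : Inst) : Prop :=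
  ∃ B, Ch V I.1 I.2.1 I.2.2 B

/-! ### The algorithm -/

/-- The parameters computed from the input: `(x, (e, w), (n', r), (K, m))` with `w = 2 ^ e`. -/
abbrev Env := List Bool × (ℕ × ℕ) × (ℕ × ℕ) × (ℕ × ℕ)

/-- the input -/
def eX (E : Env) : List Bool := E.1
/-- the block length is `4 e` -/
def eE (E : Env) : ℕ := E.2.1.1
/-- `w = 2 ^ e` -/
def eW (E : Env) : ℕ := E.2.1.2
/-- the length of the witnesses -/
def eN (E : Env) : ℕ := E.2.2.1.1
/-- the size of the field -/
def eR (E : Env) : ℕ := E.2.2.1.2
/-- the bound for the number of queries and of labels -/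
def eK (E : Env) : ℕ := E.2.2.2.1
/-- the number of blocks -/
def eM (E : Env) : ℕ := E.2.2.2.2

/-- the fixed part of all instances -/
def hdE (E : Env) : Hd := (eX E, (eE E, eN E, ⟨eR E⟩))

/-- all points of `F ^ 3` -/
def pts (r : ℕ) : List Pt :=
  (List.range r).flatMap fun i => (List.range r).flatMap fun c =>
    (List.range r).map fun d => (⟨i⟩, ⟨c⟩, ⟨d⟩)

/-- all seeds -/
def seeds (r : ℕ) : List Seed := (pts r).flatMap fun a => (pts r).map fun b => (a, b)

/-- the zero point -/
def zpt : Pt := (⟨0⟩, ⟨0⟩, ⟨0⟩)

/-- the `l`-th point of a seed -/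
def pt (r : ℕ) (s : Seed) (l : ℕ) : Pt := (⟨pI r s l⟩, ⟨pC r s l⟩, ⟨pD r s l⟩)

/-- The instance used for the point `u` in the large case. -/
def instL (E : Env) (ph : List (List Seed)) (σ : List Seed) (u : Pt) : Inst :=
  (hdE E, ([], (σ ++ [(u, zpt)]) :: ph))

/-- All labels have on the sample `FS` (of size `w`) about the same frequency as on all points
(`FU`, of size `R = r ^ 3`). -/
def accOK (K w R : ℕ) (FU FS : List Query) : Bool :=
  FU.all fun q =>
    decide (4 * K * (R * FS.count (true, q.2) + w * FU.count (false, q.2)) ≤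
      4 * K * (R * FS.count (false, q.2) + w * FU.count (true, q.2)) + w * R) &&
    decide (4 * K * (R * FS.count (false, q.2) + w * FU.count (true, q.2)) ≤
      4 * K * (R * FS.count (true, q.2) + w * FU.count (false, q.2)) + w * R)

/-- The multipliers of the seed `s` do not vanish and its evaluation points are new. -/
def distOK (r w : ℕ) (σ : List Seed) (s : Seed) : Bool :=
  (List.range w).all fun l => !decide (pC r s l = 0) &&
    σ.all fun s' => (List.range w).all fun l' => !decide (pI r s' l' = pI r s l)

section

variable (V : List Bool → List Bool → Bool) (g : Inst → List Query)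

/-- the queries for all points -/
def allQ (E : Env) (ph : List (List Seed)) (σ : List Seed) : List Query :=
  (pts (eR E)).flatMap fun u => g (instL E ph σ u)

/-- the queries for the points of the seed `s` -/
def smpQ (E : Env) (ph : List (List Seed)) (σ : List Seed) (s : Seed) : List Query :=
  (List.range (eW E)).flatMap fun l => g (instL E ph σ (pt (eR E) s l))

/-- the seed `s` may be used -/
def goodSeed (E : Env) (ph : List (List Seed)) (σ : List Seed) (s : Seed) : Bool :=
  distOK (eR E) (eW E) σ s &&
    accOK (eK E) (eW E) (eR E ^ 3) (allQ g E ph σ) (smpQ g E ph σ s)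

/-- the first seed that may be used -/
def pickSeed (E : Env) (ph : List (List Seed)) (σ : List Seed) : Seed :=
  ((seeds (eR E)).filter (goodSeed g E ph σ)).headD (zpt, zpt)

/-- The instance used in the small case: the value at `i0` of the witness is `b0`, and its first
`j` bits pass the test given by the point `u`. -/
def instS (E : Env) (ph : List (List Seed)) (i0 b0 j : ℕ) (u : Pt) : Inst :=
  (hdE E, ([(eN E, (⟨i0⟩, ⟨1⟩, ⟨eR E - b0⟩, ⟨1⟩)),
    (j, (u.1, u.2.1, u.2.2, ⟨(eR E + 1) / 2⟩))], ph))

/-- the test given by the point `u`, applied to the whole string `v` -/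
def chi (r : ℕ) (u : Pt) (v : List Bool) : Bool :=
  testOK r (v.length, (u.1, u.2.1, u.2.2, ⟨(r + 1) / 2⟩)) v

/-- change the sign of a query -/
def flipQ (q : Query) : Query := (!q.1, q.2)

/-- the queries of a table, with signs changed at the points where the test on `v` fails -/
def corr (r : ℕ) (Tab : List (Pt × List Query)) (v : List Bool) : List Query :=
  Tab.flatMap fun p => if chi r p.1 v then p.2 else p.2.map flipQ

/-- some label is correlated with `v` -/
def keep (r K : ℕ) (Tab : List (Pt × List Query)) (v : List Bool) : Bool :=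
  (corr r Tab v).any fun q =>
    decide (2 * K * (corr r Tab v).count (false, q.2) + r ^ 3 ≤
      2 * K * (corr r Tab v).count (true, q.2))

/-- all extensions by one bit -/
def extL (L : List (List Bool)) : List (List Bool) :=
  L.flatMap fun v => [v ++ [false], v ++ [true]]

/-- the table for prefixes of length `j` -/
def tabS (E : Env) (ph : List (List Seed)) (i0 b0 j : ℕ) : List (Pt × List Query) :=
  (pts (eR E)).map fun u => (u, g (instS E ph i0 b0 j u))

/-- one step of the search -/
def stepS (E : Env) (ph : List (List Seed)) (i0 b0 : ℕ) (L : List (List Bool)) (j : ℕ) :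
    List (List Bool) :=
  ((extL L).filter (keep (eR E) (eK E) (tabS g E ph i0 b0 (j + 1)))).take (8 * eK E ^ 4)

/-- the candidates -/
def searchS (E : Env) (ph : List (List Seed)) (i0 b0 : ℕ) : List (List Bool) :=
  (List.range (eN E)).foldl (stepS g E ph i0 b0) [[]]

/-- the small search finds a witness -/
def small (E : Env) (ph : List (List Seed)) : Bool :=
  (List.range (eR E)).any fun i0 => (List.range (eR E)).any fun b0 =>
    (searchS g E ph i0 b0).any fun v => V (eX E) v

/-- State of the main loop: `(found, phases, current phase, number of blocks)`. -/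
abbrev St := Bool × (List (List Seed) × (List Seed × ℕ))

/-- One step of the main loop. -/
def step (E : Env) (s : St) : St :=
  if s.2.2.2 = 0 then s else
    if (s.2.2.1 ++ [pickSeed g E s.2.1 s.2.2.1]).length = s.2.2.2 then
      (s.1 || small V g E (s.2.2.1 :: s.2.1),
        ((s.2.2.1 ++ [pickSeed g E s.2.1 s.2.2.1]) :: s.2.1, ([], s.2.2.2 / 2)))
    else
      (s.1 || small V g E (s.2.2.1 :: s.2.1),
        (s.2.1, (s.2.2.1 ++ [pickSeed g E s.2.1 s.2.2.1], s.2.2.2)))

/-- The main loop. -/
def loop (E : Env) : St := (step V g E)^[2 * eM E] (false, ([], ([], eM E)))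

/-- The algorithm. -/
def run (E : Env) : Bool := (loop V g E).1 || small V g E (loop V g E).2.1

end

/-! ### What is needed of the parameters -/

/-- The numbers occurring in a point are less than `r`. -/
def PtLt (r : ℕ) (u : Pt) : Prop := u.1.n < r ∧ u.2.1.n < r ∧ u.2.2.n < r

/-- The instances that occur in the algorithm. -/
def Used (E : Env) (I : Inst) : Prop :=
  I.1 = hdE E ∧ I.2.1.length ≤ 2 ∧
    (∀ τ ∈ I.2.1, τ.1 ≤ eN E ∧ τ.2.1.n ≤ eR E ∧ τ.2.2.1.n ≤ eR E ∧ τ.2.2.2.1.n ≤ eR E ∧
      τ.2.2.2.2.n ≤ eR E) ∧
    I.2.2.length ≤ 2 * eM E + 1 ∧ (I.2.2.map List.length).sum ≤ 2 * eM E ∧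
    ∀ σ ∈ I.2.2, ∀ s ∈ σ, PtLt (eR E) s.1 ∧ PtLt (eR E) s.2

/-- The conditions on the parameters. -/
structure Params (E : Env) : Prop where
  prime : (eR E).Prime
  lt_r : 2 ^ (4 * eE E) < eR E
  r_lt : eR E < 2 ^ (4 * eE E + 1)
  w_eq : eW E = 2 ^ eE E
  pos_e : 0 < eE E
  pow_m : ∃ P, eM E = 2 ^ P
  n_eq : eN E = 4 * eE E * eM E
  pos_K : 0 < eK E
  large : 64 * (eN E + 1) * eK E ^ 4 ≤ 2 ^ eE E

/-- The conditions on the reduction `g` of the universal language to the sparse set `S`: it is
correct, and there are few queries and few relevant labels. -/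
structure Red (V : List Bool → List Bool → Bool) (g : Inst → List Query) (E : Env)
    (S : Set (List Bool)) (R : Finset (List (List Bool))) : Prop where
  corr : ∀ I, Used E I → (Theta V I ↔ 0 < weight S (g I))
  len : ∀ I, Used E I → (g I).length ≤ eK E
  card : R.card ≤ eK E
  sub : ∀ Y ∈ R, ∀ y ∈ Y, y ∈ S
  mem : ∀ I, Used E I → ∀ q ∈ g I, (∀ y ∈ q.2, y ∈ S) → q.2 ∈ R

end Pool.Agent.W_d799b0_h82
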