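import Pool.Agent.W_d799b0_h82.PNat
import Pool.Agent.W_d799b0_h82.Alg

/-!
# Witnesses of fixed length

A certificate `y` with at most `p (|x|)` bits is padded to `n = p (|x|) + 1` bits:
`false, ..., false, true, y`; then arbitrary bits follow up to the length `n'`.
`unpad` removes the leading `false`s (at most `B.length` steps) and the first `true`.
-/

set_option autoImplicit false

namespace Pool.Agent.W_d799b0_h82

open Pool.Agent.PolyTime Function

/-- remove the padding -/
def unpad (B : List Bool) : List Bool :=
  ((fun l : List Bool => if l.headD true then l else l.tail)^[B.length] B).tail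

private theorem pad_iter_length (n : ℕ) (B : List Bool) :
    ((fun l : List Bool => if l.headD true then l else l.tail)^[n] B).length ≤ B.length := by
  induction n with
  | zero => simp
  | succ n ih =>
    rw [Function.iterate_succ_apply']
    refine le_trans ?_ ih
    split_ifs
    · exact le_rfl
    · rw [List.length_tail]; omega

private theorem pad_iter_sz (n : ℕ) (B : List Bool) :
    sz ((fun l : List Bool => if l.headD true then l else l.tail)^[n] B) ≤ sz B := by
  induction n with
  | zero => simp
  | succ n ih =>
    rw [Function.iterate_succ_apply']
    refine le_trans ?_ ih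
    split_ifs
    · exact le_rfl
    · rw [← List.drop_one]; exact sz_drop _ _

private theorem pad_iter_true (m : ℕ) (y : List Bool) :
    (fun l : List Bool => if l.headD true then l else l.tail)^[m] (true :: y) = true :: y := by
  induction m with
  | zero => rfl
  | succ m ih => rw [Function.iterate_succ_apply', ih]; rfl

private theorem pad_iter_false (k m : ℕ) (y : List Bool) (h : k ≤ m) :
    (fun l : List Bool => if l.headD true then l else l.tail)^[m]
      (List.replicate k false ++ true :: y) = true :: y := by
  induction k generalizing m with
  | zero => simpa using pad_iter_true m y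
  | succ k ih =>
    obtain ⟨m, rfl⟩ : ∃ m', m = m' + 1 := ⟨m - 1, by omega⟩
    rw [Function.iterate_succ_apply]
    exact ih m (by omega)

theorem unpad_length (B : List Bool) : (unpad B).length ≤ B.length - 1 := by
  unfold unpad
  rw [List.length_tail]
  have := pad_iter_length B.length B
  omega

theorem unpad_pad (k : ℕ) (y : List Bool) :
    unpad (List.replicate k false ++ true :: y) = y := by
  unfold unpad
  rw [pad_iter_false k _ y (by simp)]
  rfl

theorem pf_unpad : PF unpad := by
  have h1 : PF (fun x : List Bool × List Bool =>
      if x.2.headD true then x.2 else x.2.tail) := by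
    refine PF.ite (p := fun x : List Bool × List Bool => x.2.headD true) ?_ PF.snd' ?_
    · exact pf_headD (PF.const true) PF.snd'
    · exact PF.tail PF.snd'
  have h2 : PF (fun B : List Bool =>
      (fun l : List Bool => if l.headD true then l else l.tail)^[B.length] B) := by
    refine PF.iter (f := fun (_ : List Bool) (l : List Bool) =>
      if l.headD true then l else l.tail) h1 PF.id' (PF.length PF.id') Polynomial.X ?_
    intro c i _
    rw [Polynomial.eval_X]
    exact pad_iter_sz i c
  exact h2.tail

/-- the verifier for padded certificates -/
noncomputable def Vof (p : Polynomial ℕ) (V : List Bool × List Bool → Bool)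
    (x B : List Bool) : Bool :=
  V (x, unpad (B.take (p.eval x.length + 1)))

theorem pf_Vof (p : Polynomial ℕ) {V : List Bool × List Bool → Bool} (hV : PF V) :
    PF (fun q : List Bool × List Bool => Vof p V q.1 q.2) := by
  unfold Vof
  refine hV.comp (PF.pair PF.fst' (pf_unpad.comp (pf_take ?_ PF.snd')))
  exact PF.succ (PF.evalPoly p (PF.length PF.fst'))

theorem witness_iff (p : Polynomial ℕ) (V : List Bool × List Bool → Bool) (x : List Bool)
    (n' : ℕ) (h : p.eval x.length + 1 ≤ n') :
    (∃ B : List Bool, B.length = n' ∧ Vof p V x B = true) ↔
      ∃ y : List Bool, y.length ≤ p.eval x.length ∧ V (x, y) = true := by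
  unfold Vof
  constructor
  · rintro ⟨B, hB, hV⟩
    refine ⟨_, ?_, hV⟩
    refine (unpad_length _).trans ?_
    rw [List.length_take]
    omega
  · rintro ⟨y, hy, hV⟩
    refine ⟨List.replicate (p.eval x.length - y.length) false ++ true :: y ++
      List.replicate (n' - (p.eval x.length + 1)) false, ?_, ?_⟩
    · simp only [List.length_append, List.length_replicate, List.length_cons]
      omega
    · have hl : (List.replicate (p.eval x.length - y.length) false ++ true :: y).length =
          p.eval x.length + 1 := by
        simp only [List.length_append, List.length_replicate, List.length_cons]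
        omega
      rw [List.take_left' hl, unpad_pad]
      exact hV

end Pool.Agent.W_d799b0_h82
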