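import Pool.Agent.W_d799b0_h82.Parse

/-!
# P is contained in NP
-/

set_option autoImplicit false

open Turing Computability

namespace Pool.Agent.W_d799b0_h82

open Pool.Agent.PolyTime Function

theorem InP.inNP {A : Set (List Bool)} (h : InP A) : InNP A := by
  obtain ⟨χ, hχ, hA⟩ := h
  refine ⟨0, fun p => χ p.1, ?_, ?_⟩
  · have h1 : Poly en encodeBool χ := Poly.comp treeStr hχ
    have h2 : Poly (encodingProd (encodingList Bool) (encodingList Bool)).encode en
        (fun p : List Bool × List Bool => p.1) :=
      Poly.comp (g := fun p : List Bool × List Bool => p.1) pairTree PF.fst'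
    exact Poly.comp h2 h1
  · intro x
    rw [hA]
    constructor
    · intro hx
      exact ⟨[], by simp, hx⟩
    · rintro ⟨y, _, hy⟩
      exact hy

end Pool.Agent.W_d799b0_h82
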