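import Pool.Agent.W_d799b0_h82.Inv

/-!
# Inequalities between the parameters

From `Params`: `64 (n' + 1) K ^ 4 ≤ 2 ^ e`, `2 ^ (4 e) < r`, `n' = 4 e M`, `M = 2 ^ P ≥ 1`, `e > 0`.
`w0 = r / n'` (floor).  `w0_small`: `(w0 - 1) * (n' - 1) < r` since `w0 * n' ≤ r`.
`w0_large`: `r ≤ 2 * w0 * n'` since `r < (w0 + 1) n'` and `w0 ≥ 1` (`n' ≤ 2 ^ e ≤ r`).
`pow_lt_w0`: `2 ^ (2 e) * n' < 2 ^ (4 e) < r`, so `2 ^ (2 e) + 1 ≤ r / n'` after a little slack
(`(2 ^ (2 e) + 1) * n' ≤ 2 ^ (4 e)`).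
`hit_arith`: from `N * (w0 * w) ≤ r ^ 4 + m * r ^ 3 * w0`, `m ≤ n'`, `r ≤ 2 w0 n'`,
`w ≥ 64 n' K`: `4 K N w0 w ≤ 4 K (2 w0 n' r^3 + n' r^3 w0) = 12 K n' w0 r^3 ≤ w w0 r^3`, divide by
`w0 w > 0`.
-/

set_option autoImplicit false

namespace Pool.Agent.W_d799b0_h82

variable {E : Env}

theorem Params.pos_M (hP : Params E) : 0 < eM E := by
  obtain ⟨P, h⟩ := hP.pow_m
  rw [h]
  positivity

theorem Params.pos_N (hP : Params E) : 0 < eN E := by
  rw [hP.n_eq]
  have h1 := hP.pos_M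
  have h2 := hP.pos_e
  positivity

theorem Params.pos_r (hP : Params E) : 0 < eR E := hP.prime.pos

private theorem Num_pow4 (hP : Params E) : (eW E) ^ 4 < eR E := by
  rw [hP.w_eq, ← pow_mul, mul_comm]
  exact hP.lt_r

private theorem Num_K (hP : Params E) : 1 ≤ eK E ^ 4 := Nat.one_le_pow _ _ hP.pos_K

private theorem Num_large (hP : Params E) : 64 * (eN E + 1) * eK E ^ 4 ≤ eW E := by
  rw [hP.w_eq]
  exact hP.large

private theorem Num_NW (hP : Params E) : 64 * (eN E + 1) ≤ eW E := by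
  have h1 := Num_large hP
  have h2 := Num_K hP
  nlinarith

private theorem Num_W (hP : Params E) : 64 ≤ eW E := by
  have h1 := Num_NW hP
  omega

theorem Params.odd_r (hP : Params E) : 2 * ((eR E + 1) / 2) = eR E + 1 := by
  have h1 : eR E ≠ 2 := by
    have h2 := Num_pow4 hP
    have h3 := Num_W hP
    have h4 : 64 ^ 4 ≤ eW E ^ 4 := Nat.pow_le_pow_left h3 4
    norm_num at h4
    omega
  have h2 := hP.prime.eq_two_or_odd
  rcases h2 with h2 | h2
  · exact absurd h2 h1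
  · omega

private theorem Num_W_le (hP : Params E) : eW E ^ 3 * 64 ≤ eR E := by
  have h1 := Num_pow4 hP
  have h2 := Num_W hP
  have h3 : eW E ^ 4 = eW E ^ 3 * eW E := pow_succ _ _
  have h4 : eW E ^ 3 * 64 ≤ eW E ^ 3 * eW E := Nat.mul_le_mul_left _ h2
  omega

private theorem Num_W1 (hP : Params E) : eW E * 64 ≤ eR E := by
  have h1 := Num_W_le hP
  have h2 := Num_W hP
  have h3 : eW E ≤ eW E ^ 3 := by
    calc eW E = eW E ^ 1 := (pow_one _).symm
      _ ≤ eW E ^ 3 := Nat.pow_le_pow_right (by omega) (by norm_num)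
  omega

theorem Params.w_lt_r (hP : Params E) : eW E < eR E := by
  have h1 := Num_W1 hP
  have h2 := Num_W hP
  omega

private theorem Num_N_le (hP : Params E) : 64 * eN E ≤ eW E := by
  have h1 := Num_NW hP
  omega

theorem Params.pos_w0 (hP : Params E) : 0 < w0 E := by
  unfold w0
  have h1 := Num_N_le hP
  have h2 := hP.w_lt_r
  exact Nat.div_pos (by omega) hP.pos_N

theorem Params.w0_small (hP : Params E) : (w0 E - 1) * (eN E - 1) < eR E := by
  have h1 : w0 E * eN E ≤ eR E := Nat.div_mul_le_self _ _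
  have h2 := hP.pos_w0
  have h3 := hP.pos_N
  have h4 : (w0 E - 1) * (eN E - 1) < w0 E * eN E := by
    calc (w0 E - 1) * (eN E - 1) ≤ (w0 E - 1) * eN E := Nat.mul_le_mul_left _ (by omega)
      _ < w0 E * eN E := Nat.mul_lt_mul_of_pos_right (by omega) h3
  omega

theorem Params.w0_large (hP : Params E) : eR E ≤ 2 * w0 E * eN E := by
  have h1 : eR E < eN E * (w0 E + 1) := Nat.lt_mul_div_succ _ hP.pos_N
  have h2 := hP.pos_w0
  have h3 : eN E * (w0 E + 1) ≤ eN E * (2 * w0 E) := Nat.mul_le_mul_left _ (by omega)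
  calc eR E ≤ eN E * (2 * w0 E) := (h1.trans_le h3).le
    _ = 2 * w0 E * eN E := by ring

theorem Params.pow_lt_w0 (hP : Params E) : 2 ^ (2 * eE E) < w0 E := by
  have h0 : 2 ^ (2 * eE E) = eW E ^ 2 := by
    rw [hP.w_eq, ← pow_mul, mul_comm]
  rw [h0]
  unfold w0
  rw [Nat.lt_iff_add_one_le, Nat.le_div_iff_mul_le hP.pos_N]
  have h1 := Num_N_le hP
  have h2 := Num_pow4 hP
  have h3 := Num_W hP
  have h4 : (eW E ^ 2 + 1) * eN E ≤ (eW E ^ 2 + 1) * eW E := Nat.mul_le_mul_left _ (by omega)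
  have h6 := Num_W_le hP
  have h7 : eW E ≤ eW E ^ 3 := by
    calc eW E = eW E ^ 1 := (pow_one _).symm
      _ ≤ eW E ^ 3 := Nat.pow_le_pow_right (by omega) (by norm_num)
  have h5 : (eW E ^ 2 + 1) * eW E = eW E ^ 3 + eW E := by ring
  omega

theorem Params.r_large (hP : Params E) : 16 * eN E * eK E ^ 4 ≤ eR E := by
  have h1 := Num_large hP
  have h2 := hP.w_lt_r
  have h3 : 16 * eN E * eK E ^ 4 ≤ 64 * (eN E + 1) * eK E ^ 4 :=
    Nat.mul_le_mul_right _ (by omega)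
  omega

theorem Params.w_large (hP : Params E) : 64 * eK E ^ 4 ≤ eW E := by
  have h1 := Num_large hP
  have h3 : 64 * eK E ^ 4 ≤ 64 * (eN E + 1) * eK E ^ 4 :=
    Nat.mul_le_mul_right _ (by omega)
  omega

private theorem Num_M_le (hP : Params E) : eM E ≤ eN E := by
  rw [hP.n_eq]
  have h1 := hP.pos_e
  exact Nat.le_mul_of_pos_left _ (by omega)

/-- `8 w * (number of used points) ≤ r`. -/
theorem Params.coll (hP : Params E) : 8 * eW E * (eM E * eW E) ≤ eR E := by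
  have h1 := Num_W_le hP
  have h2 := Num_N_le hP
  have h3 := Num_M_le hP
  have h4 : eM E ≤ eW E := by omega
  calc 8 * eW E * (eM E * eW E) ≤ 8 * eW E * (eW E * eW E) :=
        Nat.mul_le_mul_left _ (Nat.mul_le_mul_right _ h4)
    _ = 8 * eW E ^ 3 := by ring
    _ ≤ eR E := by omega

theorem Params.eight_w (hP : Params E) : 8 * eW E ≤ eR E := by
  have h1 := Num_W1 hP
  omega

theorem Params.hit_arith (hP : Params E) (m N : ℕ) (hm : m ≤ eN E)
    (h : N * (w0 E * eW E) ≤ eR E ^ 4 + m * eR E ^ 3 * w0 E) :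
    4 * eK E * N ≤ eR E ^ 3 := by
  have hw0 := hP.pos_w0
  have hW := Num_W hP
  have hl := hP.w0_large
  have hK : 12 * eK E * eN E ≤ eW E := by
    have h1 := Num_large hP
    have h2 : eK E ≤ eK E ^ 4 := by
      calc eK E = eK E ^ 1 := (pow_one _).symm
        _ ≤ eK E ^ 4 := Nat.pow_le_pow_right hP.pos_K (by norm_num)
    calc 12 * eK E * eN E ≤ 64 * eK E ^ 4 * (eN E + 1) :=
          Nat.mul_le_mul (Nat.mul_le_mul (by norm_num) h2) (by omega)
      _ = 64 * (eN E + 1) * eK E ^ 4 := by ring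
      _ ≤ eW E := h1
  have key : (4 * eK E * N) * (w0 E * eW E) ≤ eR E ^ 3 * (w0 E * eW E) := by
    calc (4 * eK E * N) * (w0 E * eW E) = 4 * eK E * (N * (w0 E * eW E)) := by ring
      _ ≤ 4 * eK E * (eR E ^ 4 + m * eR E ^ 3 * w0 E) := Nat.mul_le_mul_left _ h
      _ ≤ 4 * eK E * (2 * w0 E * eN E * eR E ^ 3 + eN E * eR E ^ 3 * w0 E) := by
          refine Nat.mul_le_mul_left _ (Nat.add_le_add ?_ ?_)
          · calc eR E ^ 4 = eR E * eR E ^ 3 := by ring
              _ ≤ 2 * w0 E * eN E * eR E ^ 3 := Nat.mul_le_mul_right _ hl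
          · exact Nat.mul_le_mul_right _ (Nat.mul_le_mul_right _ hm)
      _ = (12 * eK E * eN E) * (w0 E * eR E ^ 3) := by ring
      _ ≤ eW E * (w0 E * eR E ^ 3) := Nat.mul_le_mul_right _ hK
      _ = eR E ^ 3 * (w0 E * eW E) := by ring
  exact Nat.le_of_mul_le_mul_right key (by positivity)

end Pool.Agent.W_d799b0_h82
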