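import Pool.Agent.W_d799b0_h82.PtsA
import Pool.Agent.W_d799b0_h82.Num

/-!
# The instances that occur

`SInv E ph σ m` is the invariant of the main loop while `m > 0`.  The lengths of the phases in
`ph` are `2 m, 4 m, ..., M` (from `Lens M (2 m) ph`), so `m * 2 ^ ph.length = M` and their sum is
`2 M - 2 m`; with `σ.length < m` the total number of seeds including one additional seed is at most
`2 M - 1`, and the number of phases is at most `M` (as `2 ^ ph.length ≤ M` and
`ph.length < 2 ^ ph.length`).  The remaining conditions of `Used` are immediate.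
-/

set_option autoImplicit false

namespace Pool.Agent.W_d799b0_h82

/-- The invariant of the main loop while the number `m` of blocks is positive. -/
structure SInv (E : Env) (ph : List (List Seed)) (σ : List Seed) (m : ℕ) : Prop where
  pos : 0 < m
  inv : PInv E (2 * m) ph
  ok : PhOK (eR E) (eW E) σ
  lt : σ.length < m

theorem lens_sum (M k : ℕ) (ph : List (List Seed)) (h : Lens M k ph) :
    (ph.map List.length).sum + k = 2 * M := by
  induction ph generalizing k with
  | nil => simpa [Lens] using h
  | cons τ ph ih =>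
    obtain ⟨h1, h2⟩ := h
    have h3 := ih _ h2
    simp only [List.map_cons, List.sum_cons]
    omega

theorem lens_length (M k : ℕ) (ph : List (List Seed)) (h : Lens M k ph) :
    k * 2 ^ ph.length = 2 * M := by
  induction ph generalizing k with
  | nil => simpa [Lens] using h
  | cons τ ph ih =>
    obtain ⟨-, h2⟩ := h
    have h3 := ih _ h2
    rw [← h3, List.length_cons, pow_succ]
    ring

private theorem usedA_ptLt_zpt (E : Env) (hP : Params E) : PtLt (eR E) zpt :=
  ⟨hP.prime.pos, hP.prime.pos, hP.prime.pos⟩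

private theorem usedA_tests (E : Env) (hP : Params E) (ph : List (List Seed)) (i0 b0 j : ℕ)
    (hi : i0 < eR E) (hj : j ≤ eN E) (u : Pt) (hu : PtLt (eR E) u) :
    ∀ τ ∈ (instS E ph i0 b0 j u).2.1, τ.1 ≤ eN E ∧ τ.2.1.n ≤ eR E ∧ τ.2.2.1.n ≤ eR E ∧
      τ.2.2.2.1.n ≤ eR E ∧ τ.2.2.2.2.n ≤ eR E := by
  have h1 : 1 ≤ eR E := hP.prime.pos
  obtain ⟨u1, u2, u3⟩ := hu
  intro τ hτ
  simp only [instS, List.mem_cons, List.not_mem_nil, or_false] at hτ
  rcases hτ with rfl | rfl
  · exact ⟨le_rfl, hi.le, h1, Nat.sub_le _ _, h1⟩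
  · refine ⟨hj, u1.le, u2.le, u3.le, ?_⟩
    show (eR E + 1) / 2 ≤ eR E
    omega

theorem used_instL (E : Env) (hP : Params E) (ph : List (List Seed)) (σ : List Seed) (m : ℕ)
    (h : SInv E ph σ m) (u : Pt) (hu : PtLt (eR E) u) : Used E (instL E ph σ u) := by
  have h1 := lens_sum _ _ _ h.inv.lens
  have h2 := lens_length _ _ _ h.inv.lens
  have h3 : ph.length < 2 ^ ph.length := Nat.lt_two_pow_self
  have h4 : 1 * 2 ^ ph.length ≤ 2 * m * 2 ^ ph.length :=
    Nat.mul_le_mul_right _ (by have := h.pos; omega)
  have h5 := h.lt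
  refine ⟨rfl, by simp [instL], by simp [instL], ?_, ?_, ?_⟩
  · simp only [instL, List.length_cons]
    omega
  · simp only [instL, List.map_cons, List.sum_cons, List.length_append, List.length_cons,
      List.length_nil]
    omega
  · intro τ hτ s hs
    simp only [instL, List.mem_cons] at hτ
    rcases hτ with rfl | hτ
    · rw [List.mem_append] at hs
      rcases hs with hs | hs
      · exact h.ok.1 s hs
      · rw [List.mem_singleton] at hs
        subst hs
        exact ⟨hu, usedA_ptLt_zpt E hP⟩
    · exact (h.inv.ok τ hτ).1 s hs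

theorem used_instS (E : Env) (hP : Params E) (ph : List (List Seed)) (σ : List Seed) (m : ℕ)
    (h : SInv E ph σ m) (i0 b0 j : ℕ) (hi : i0 < eR E) (hb : b0 < eR E) (hj : j ≤ eN E) (u : Pt)
    (hu : PtLt (eR E) u) : Used E (instS E (σ :: ph) i0 b0 j u) := by
  have h1 := lens_sum _ _ _ h.inv.lens
  have h2 := lens_length _ _ _ h.inv.lens
  have h3 : ph.length < 2 ^ ph.length := Nat.lt_two_pow_self
  have h4 : 1 * 2 ^ ph.length ≤ 2 * m * 2 ^ ph.length :=
    Nat.mul_le_mul_right _ (by have := h.pos; omega)
  have h5 := h.lt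
  refine ⟨rfl, by simp [instS], usedA_tests E hP _ i0 b0 j hi hj u hu, ?_, ?_, ?_⟩
  · simp only [instS, List.length_cons]
    omega
  · simp only [instS, List.map_cons, List.sum_cons]
    omega
  · intro τ hτ s hs
    simp only [instS, List.mem_cons] at hτ
    rcases hτ with rfl | hτ
    · exact h.ok.1 s hs
    · exact (h.inv.ok τ hτ).1 s hs

/-- The instances of the last small search. -/
theorem used_instS_final (E : Env) (hP : Params E) (ph : List (List Seed))
    (h : PInv E 1 ph) (i0 b0 j : ℕ) (hi : i0 < eR E) (hb : b0 < eR E) (hj : j ≤ eN E) (u : Pt)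
    (hu : PtLt (eR E) u) : Used E (instS E ph i0 b0 j u) := by
  have h1 := lens_sum _ _ _ h.lens
  have h2 := lens_length _ _ _ h.lens
  have h3 : ph.length < 2 ^ ph.length := Nat.lt_two_pow_self
  refine ⟨rfl, by simp [instS], usedA_tests E hP _ i0 b0 j hi hj u hu, ?_, ?_, ?_⟩
  · simp only [instS]
    omega
  · simp only [instS]
    omega
  · intro τ hτ s hs
    simp only [instS] at hτ
    exact (h.ok τ hτ).1 s hs

end Pool.Agent.W_d799b0_h82
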