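import Pool.Agent.W_d799b0_h82.ChA
import Pool.Agent.W_d799b0_h82.UsedA

/-!
# The small case: isolation

PROOFS.  `theta_instS`: `theta_iff_D0`, and the first test says
`(1 * bB (B0.take n') i0 + (r - b0)) % r < 1`, i.e. `bB B0 i0 = b0` (both are `< r`, and
`B0.take n' = B0` because `B0.length = n'`); the second test on `B0` is `chi` on `B0.take j`
(which has length `j`).
`isolate`: fix `a ∈ D0`.  For every other `a'` the polynomials `bP a`, `bP a'` are different
(`bP_inj`), of degree `< n'`, so they agree at at most `n' - 1` points of `ZMod r`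
(`Polynomial.card_roots'`).  As `(w0 - 1) (n' - 1) < r` (`Params.w0_small`), some point of `ZMod r`
is avoided; let `i0` be its value and `b0 = bB r a i0`.
-/

set_option autoImplicit false

namespace Pool.Agent.W_d799b0_h82

theorem theta_instS (V : List Bool → List Bool → Bool) (E : Env) (hP : Params E)
    (ph : List (List Seed)) (i0 b0 j : ℕ) (hb : b0 < eR E) (hj : j ≤ eN E) (u : Pt) :
    Theta V (instS E ph i0 b0 j u) ↔
      ∃ B0 ∈ D0 V E ph, bB (eR E) B0 i0 = b0 ∧ chi (eR E) u (B0.take j) = true := by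
  have hr : 0 < eR E := hP.pos_r
  have key : ∀ B0 ∈ D0 V E ph,
      ((∀ τ ∈ ([(eN E, (⟨i0⟩, ⟨1⟩, ⟨eR E - b0⟩, ⟨1⟩)),
        (j, (u.1, u.2.1, u.2.2, ⟨(eR E + 1) / 2⟩))] : List Test), testOK (eR E) τ B0 = true) ↔
        bB (eR E) B0 i0 = b0 ∧ chi (eR E) u (B0.take j) = true) := by
    intro B0 hB0
    have hlen : B0.length = eN E := hB0.1
    have h1 : testOK (eR E) ((eN E, (⟨i0⟩, ⟨1⟩, ⟨eR E - b0⟩, ⟨1⟩)) : Test) B0 = true ↔
        bB (eR E) B0 i0 = b0 := by
      have htake : B0.take (eN E) = B0 := by
        rw [← hlen]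
        exact List.take_length
      have hlt : bB (eR E) B0 i0 < eR E := ev_lt _ hr _ _
      simp only [testOK, htake, decide_eq_true_eq, one_mul]
      constructor
      · intro h
        have h2 : (bB (eR E) B0 i0 + (eR E - b0)) % eR E = 0 := by omega
        obtain ⟨c, hc⟩ := Nat.dvd_of_mod_eq_zero h2
        have hc1 : c < 2 := by
          by_contra hcon
          have h4 : 2 ≤ c := by omega
          have h5 : eR E * 2 ≤ eR E * c := Nat.mul_le_mul_left _ h4
          omega
        have hc0 : c ≠ 0 := by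
          rintro rfl
          omega
        have hc2 : c = 1 := by omega
        subst hc2
        omega
      · intro h
        rw [h]
        have : b0 + (eR E - b0) = eR E := by omega
        rw [this, Nat.mod_self]
        omega
    have h2 : testOK (eR E) ((j, (u.1, u.2.1, u.2.2, ⟨(eR E + 1) / 2⟩)) : Test) B0 =
        chi (eR E) u (B0.take j) := by
      have hl : (B0.take j).length = j := by
        rw [List.length_take]
        omega
      simp only [chi, testOK, hl, List.take_take, min_self]
    constructor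
    · intro h
      exact ⟨h1.1 (h _ (by simp)), by rw [← h2]; exact h _ (by simp)⟩
    · rintro ⟨a, b⟩ τ hτ
      rcases List.mem_cons.1 hτ with rfl | hτ
      · exact h1.2 a
      · rcases List.mem_cons.1 hτ with rfl | hτ
        · rw [h2]; exact b
        · simp at hτ
  unfold instS
  rw [theta_iff_D0]
  constructor
  · rintro ⟨B0, hB0, h⟩
    exact ⟨B0, hB0, (key B0 hB0).1 h⟩
  · rintro ⟨B0, hB0, h⟩
    exact ⟨B0, hB0, (key B0 hB0).2 h⟩

theorem D0_finite (V : List Bool → List Bool → Bool) (E : Env) (ph : List (List Seed)) :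
    (D0 V E ph).Finite := by
  refine (List.finite_length_eq Bool (eN E)).subset ?_
  rintro B hB
  exact hB.1

theorem isolate (V : List Bool → List Bool → Bool) (E : Env) (hP : Params E)
    (ph : List (List Seed)) (hne : (D0 V E ph).Nonempty) (hlt : (D0 V E ph).ncard < w0 E) :
    ∃ a ∈ D0 V E ph, ∃ i0 < eR E, ∃ b0 < eR E, bB (eR E) a i0 = b0 ∧
      ∀ B0 ∈ D0 V E ph, bB (eR E) B0 i0 = b0 → B0 = a := by
  classical
  have : Fact (eR E).Prime := ⟨hP.prime⟩
  have hr : 0 < eR E := hP.pos_r
  obtain ⟨a, ha⟩ := hne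
  have hfin := D0_finite V E ph
  set T : Finset (List Bool) := hfin.toFinset with hT
  have hTm : ∀ B, B ∈ T ↔ B ∈ D0 V E ph := by
    intro B
    rw [hT]
    exact hfin.mem_toFinset
  have hTc : T.card = (D0 V E ph).ncard := by
    rw [hT]
    exact (Set.ncard_eq_toFinset_card _ hfin).symm
  set Bad : Finset (ZMod (eR E)) := (T.erase a).biUnion
    (fun B => (bP (eR E) a - bP (eR E) B).roots.toFinset) with hBad
  have hcard : Bad.card < eR E := by
    have h1 : Bad.card ≤ (T.erase a).card * (eN E - 1) := by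
      refine Finset.card_biUnion_le_card_mul _ _ _ ?_
      intro B hB
      have hB1 := Finset.mem_erase.1 hB
      have hBD := (hTm B).1 hB1.2
      have hne : bP (eR E) a - bP (eR E) B ≠ 0 := by
        intro h0
        apply hB1.1
        refine (bP_inj (eR E) a B ?_ (sub_eq_zero.1 h0)).symm
        rw [ha.1, hBD.1]
      have hdeg : (bP (eR E) a - bP (eR E) B).degree < (eN E : WithBot ℕ) := by
        refine (Polynomial.degree_sub_le _ _).trans_lt (max_lt ?_ ?_)
        · have := bP_degree (eR E) a
          rwa [ha.1] at this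
        · have := bP_degree (eR E) B
          rwa [hBD.1] at this
      have hnd : (bP (eR E) a - bP (eR E) B).natDegree < eN E :=
        (Polynomial.natDegree_lt_iff_degree_lt hne).2 hdeg
      have h2 := Polynomial.card_roots' (bP (eR E) a - bP (eR E) B)
      have h3 := Multiset.toFinset_card_le (bP (eR E) a - bP (eR E) B).roots
      omega
    have h2 : (T.erase a).card ≤ w0 E - 1 := by
      rw [Finset.card_erase_of_mem ((hTm a).2 ha), hTc]
      omega
    calc Bad.card ≤ (T.erase a).card * (eN E - 1) := h1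
      _ ≤ (w0 E - 1) * (eN E - 1) := Nat.mul_le_mul_right _ h2
      _ < eR E := hP.w0_small
  have hex : ∃ x : ZMod (eR E), x ∉ Bad := by
    by_contra hcon
    have hcon' : ∀ x : ZMod (eR E), x ∈ Bad := by
      intro x
      by_contra hx
      exact hcon ⟨x, hx⟩
    have h1 : (Finset.univ : Finset (ZMod (eR E))).card ≤ Bad.card :=
      Finset.card_le_card fun x _ => hcon' x
    rw [Finset.card_univ, ZMod.card] at h1
    omega
  obtain ⟨x, hx⟩ := hex
  refine ⟨a, ha, x.val, ZMod.val_lt x, bB (eR E) a x.val, ev_lt _ hr _ _, rfl, ?_⟩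
  intro B hB hval
  by_contra hne
  apply hx
  rw [hBad, Finset.mem_biUnion]
  refine ⟨B, Finset.mem_erase.2 ⟨hne, (hTm B).2 hB⟩, ?_⟩
  rw [Multiset.mem_toFinset, Polynomial.mem_roots]
  · rw [Polynomial.IsRoot, Polynomial.eval_sub, sub_eq_zero]
    have h1 := bB_cast (eR E) a x.val
    have h2 := bB_cast (eR E) B x.val
    rw [ZMod.natCast_zmod_val] at h1 h2
    rw [← h1, ← h2, hval]
  · intro h0
    apply hne
    refine (bP_inj (eR E) a B ?_ (sub_eq_zero.1 h0)).symm
    rw [ha.1, hB.1]

end Pool.Agent.W_d799b0_h82
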