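import Mathlib

/-!
# Pairwise independent samples: collisions

Union bound over `l ∈ L` (and `x ∈ U`): for fixed `l` and `x` the seeds with
`s.1.1 + l * s.2.1 = x` are determined by the other five coordinates (`s.1.1 = x - l * s.2.1`), so
there are `card F ^ 5` of them.  The same for `s.1.2.1 + l * s.2.2.1 = 0`.
-/

set_option autoImplicit false

open Finset

namespace Pool.Agent.W_d799b0_h82

variable {F : Type} [Field F] [Fintype F] [DecidableEq F]

/-- union bound over `l` -/
lemma bad_aux (L : Finset F) (P : F → (F × F × F) × (F × F × F) → Prop)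
    [∀ l, DecidablePred (P l)] (n : ℕ)
    (h : ∀ l ∈ L, ((univ : Finset ((F × F × F) × (F × F × F))).filter (P l)).card ≤ n) :
    ((univ : Finset ((F × F × F) × (F × F × F))).filter fun s => ∃ l ∈ L, P l s).card
      ≤ L.card * n := by
  have hsub : ((univ : Finset ((F × F × F) × (F × F × F))).filter fun s => ∃ l ∈ L, P l s)
      ⊆ L.biUnion (fun l => (univ : Finset ((F × F × F) × (F × F × F))).filter (P l)) := by
    intro s hs
    obtain ⟨l, hl, h1⟩ := (Finset.mem_filter.1 hs).2
    exact Finset.mem_biUnion.2 ⟨l, hl, Finset.mem_filter.2 ⟨Finset.mem_univ _, h1⟩⟩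
  calc _ ≤ (L.biUnion (fun l =>
        (univ : Finset ((F × F × F) × (F × F × F))).filter (P l))).card :=
        Finset.card_le_card hsub
    _ ≤ ∑ l ∈ L, ((univ : Finset ((F × F × F) × (F × F × F))).filter (P l)).card :=
        Finset.card_biUnion_le
    _ ≤ ∑ l ∈ L, n := Finset.sum_le_sum h
    _ = L.card * n := by rw [Finset.sum_const, smul_eq_mul]

/-- Few seeds have an evaluation point in `U`. -/
theorem bad_eval (L U : Finset F) :
    ((univ : Finset ((F × F × F) × (F × F × F))).filter
      fun s => ∃ l ∈ L, s.1.1 + l * s.2.1 ∈ U).card ≤ L.card * U.card * Fintype.card F ^ 5 := by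
  have h := bad_aux L (fun l s => s.1.1 + l * s.2.1 ∈ U) (U.card * Fintype.card F ^ 5) ?_
  · rw [mul_assoc]; exact h
  · intro l _
    -- inject into U x F^5
    have hinj : ((univ : Finset ((F × F × F) × (F × F × F))).filter
        fun s => s.1.1 + l * s.2.1 ∈ U).card
        ≤ (U ×ˢ (univ : Finset ((F × F) × (F × F × F)))).card := by
      refine Finset.card_le_card_of_injOn
        (fun s => (s.1.1 + l * s.2.1, (s.1.2, s.2))) ?_ ?_
      · intro s hs
        have h1 := (Finset.mem_filter.1 (Finset.mem_coe.1 hs)).2
        exact Finset.mem_coe.2 (Finset.mem_product.2 ⟨h1, Finset.mem_univ _⟩)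
      · intro s _ s' _ he
        simp only [Prod.mk.injEq] at he
        obtain ⟨h1, h2, h3⟩ := he
        have h4 : s.1.1 = s'.1.1 := by
          rw [h3] at h1
          exact add_right_cancel h1
        exact Prod.ext (Prod.ext h4 h2) h3
    refine hinj.trans (le_of_eq ?_)
    rw [Finset.card_product, Finset.card_univ]
    simp only [Fintype.card_prod]
    ring

/-- Few seeds have a vanishing multiplier. -/
theorem bad_mult (L : Finset F) :
    ((univ : Finset ((F × F × F) × (F × F × F))).filter
      fun s => ∃ l ∈ L, s.1.2.1 + l * s.2.2.1 = 0).card ≤ L.card * Fintype.card F ^ 5 := by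
  have h := bad_aux L (fun l s => s.1.2.1 + l * s.2.2.1 = 0) (Fintype.card F ^ 5) ?_
  · exact h
  · intro l _
    have hinj : ((univ : Finset ((F × F × F) × (F × F × F))).filter
        fun s => s.1.2.1 + l * s.2.2.1 = 0).card
        ≤ (univ : Finset ((F × F) × (F × F × F))).card := by
      refine Finset.card_le_card_of_injOn
        (fun s => ((s.1.1, s.1.2.2), s.2)) ?_ ?_
      · intro s hs
        exact Finset.mem_coe.2 (Finset.mem_univ _)
      · intro s hs s' hs' he
        have hz := (Finset.mem_filter.1 (Finset.mem_coe.1 hs)).2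
        have hz' := (Finset.mem_filter.1 (Finset.mem_coe.1 hs')).2
        simp only [Prod.mk.injEq] at he
        obtain ⟨⟨h1, h2⟩, h3⟩ := he
        have h4 : s.1.2.1 = s'.1.2.1 := by
          rw [h3] at hz
          rw [← hz'] at hz
          exact add_right_cancel hz
        exact Prod.ext (Prod.ext h1 (Prod.ext h4 h2)) h3
    refine hinj.trans (le_of_eq ?_)
    rw [Finset.card_univ]
    simp only [Fintype.card_prod]
    ring

end Pool.Agent.W_d799b0_h82
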