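import Pool.Agent.W_d799b0_h82.Inv

/-!
# Points and seeds as elements of `F ^ 3`

`toPt` is a bijection from `(ZMod r)^3` to the points with coordinates `< r`
(`ZMod.val_lt`, `ZMod.val_natCast_of_lt`, `ZMod.natCast_zmod_val`).  `sum_pts`: the sum over
`List.range r` is the sum over `ZMod r` (`Finset.sum_range` / `List.sum_range`-type lemmas and a
bijection, e.g. by induction-free `Finset.sum_bij` from `Finset.range r` with `Nat.cast`), three
times.  `pt_toSeed`: coordinatewise, `ZMod.val_add`, `ZMod.val_mul`, `ZMod.val_natCast` and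
`Nat.mod` arithmetic (or cast to `ZMod r` and use injectivity of the cast on numbers `< r`).
-/

set_option autoImplicit false

namespace Pool.Agent.W_d799b0_h82

theorem toPt_lt (r : ℕ) [NeZero r] (u : ZMod r × ZMod r × ZMod r) : PtLt r (toPt u) :=
  ⟨ZMod.val_lt _, ZMod.val_lt _, ZMod.val_lt _⟩

theorem toPt_inj (r : ℕ) [NeZero r] (u u' : ZMod r × ZMod r × ZMod r) (h : toPt u = toPt u') :
    u = u' := by
  obtain ⟨a, b, c⟩ := u
  obtain ⟨a', b', c'⟩ := u'
  simp only [toPt, Prod.mk.injEq, Bn.mk.injEq] at h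
  obtain ⟨h1, h2, h3⟩ := h
  rw [ZMod.val_injective r h1, ZMod.val_injective r h2, ZMod.val_injective r h3]

theorem exists_toPt (r : ℕ) [NeZero r] (u : Pt) (h : PtLt r u) :
    ∃ u' : ZMod r × ZMod r × ZMod r, toPt u' = u := by
  obtain ⟨⟨a⟩, ⟨b⟩, ⟨c⟩⟩ := u
  obtain ⟨h1, h2, h3⟩ := h
  refine ⟨((a : ZMod r), (b : ZMod r), (c : ZMod r)), ?_⟩
  simp only [toPt, ZMod.val_natCast_of_lt h1, ZMod.val_natCast_of_lt h2,
    ZMod.val_natCast_of_lt h3]

theorem mem_pts (r : ℕ) (u : Pt) : u ∈ pts r ↔ PtLt r u := by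
  obtain ⟨⟨a⟩, ⟨b⟩, ⟨c⟩⟩ := u
  simp only [pts, List.mem_flatMap, List.mem_map, List.mem_range, Prod.mk.injEq, Bn.mk.injEq,
    PtLt]
  constructor
  · rintro ⟨i, hi, j, hj, k, hk, rfl, rfl, rfl⟩
    exact ⟨hi, hj, hk⟩
  · rintro ⟨h1, h2, h3⟩
    exact ⟨a, h1, b, h2, c, h3, rfl, rfl, rfl⟩

theorem length_pts (r : ℕ) : (pts r).length = r ^ 3 := by
  simp only [pts, List.length_flatMap, List.length_map, List.length_range, List.map_const',
    List.sum_replicate, smul_eq_mul]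
  ring

private theorem PtsA_sum_range (r : ℕ) [NeZero r] (f : ℕ → ℤ) :
    ((List.range r).map f).sum = ∑ x : ZMod r, f x.val := by
  have h1 : ((List.range r).map f).sum = ∑ i ∈ Finset.range r, f i := by
    simp [Finset.sum, Finset.range, Multiset.range]
  rw [h1]
  refine Finset.sum_nbij' (fun i => (i : ZMod r)) (fun x => x.val) ?_ ?_ ?_ ?_ ?_
  · intro i _; exact Finset.mem_univ _
  · intro x _; exact Finset.mem_range.2 (ZMod.val_lt x)
  · intro i hi; exact ZMod.val_natCast_of_lt (Finset.mem_range.1 hi)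
  · intro x _; exact ZMod.natCast_zmod_val x
  · intro i hi
    simp only [ZMod.val_natCast_of_lt (Finset.mem_range.1 hi)]

private theorem PtsA_sum_flatMap {α β : Type} (l : List α) (g : α → List β) (f : β → ℤ) :
    ((l.flatMap g).map f).sum = (l.map fun a => ((g a).map f).sum).sum := by
  induction l with
  | nil => simp
  | cons a l ih => simp [List.flatMap_cons, ih]

theorem sum_pts (r : ℕ) [NeZero r] (f : Pt → ℤ) :
    ((pts r).map f).sum = ∑ u : ZMod r × ZMod r × ZMod r, f (toPt u) := by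
  rw [pts, PtsA_sum_flatMap, PtsA_sum_range, Fintype.sum_prod_type]
  refine Finset.sum_congr rfl fun a _ => ?_
  rw [PtsA_sum_flatMap, PtsA_sum_range, Fintype.sum_prod_type]
  refine Finset.sum_congr rfl fun b _ => ?_
  rw [List.map_map, PtsA_sum_range]
  rfl

theorem mem_seeds (r : ℕ) (s : Seed) : s ∈ seeds r ↔ PtLt r s.1 ∧ PtLt r s.2 := by
  obtain ⟨a, b⟩ := s
  simp only [seeds, List.mem_flatMap, List.mem_map, Prod.mk.injEq, mem_pts]
  constructor
  · rintro ⟨a', ha, b', hb, rfl, rfl⟩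
    exact ⟨ha, hb⟩
  · rintro ⟨ha, hb⟩
    exact ⟨a, ha, b, hb, rfl, rfl⟩

private theorem PtsA_val (r : ℕ) [NeZero r] (a b : ZMod r) (l : ℕ) :
    (a.val + b.val * l) % r = (a + (l : ZMod r) * b).val := by
  have h : ((a.val + b.val * l : ℕ) : ZMod r) = a + (l : ZMod r) * b := by
    push_cast
    rw [ZMod.natCast_zmod_val, ZMod.natCast_zmod_val]
    ring
  rw [← h, ZMod.val_natCast]

theorem pt_toSeed (r : ℕ) [NeZero r]
    (s : (ZMod r × ZMod r × ZMod r) × (ZMod r × ZMod r × ZMod r)) (l : ℕ) :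
    pt r (toSeed s) l = toPt (s.1 + (l : ZMod r) • s.2) := by
  obtain ⟨⟨a, b, c⟩, ⟨a', b', c'⟩⟩ := s
  simp only [pt, toSeed, toPt, pI, pC, pD, PtsA_val, Prod.fst_add, Prod.snd_add, Prod.smul_fst,
    Prod.smul_snd, smul_eq_mul]

theorem pt_lt (r : ℕ) (hr : 0 < r) (s : Seed) (l : ℕ) : PtLt r (pt r s l) :=
  ⟨Nat.mod_lt _ hr, Nat.mod_lt _ hr, Nat.mod_lt _ hr⟩

end Pool.Agent.W_d799b0_h82
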