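import Pool.Agent.W_d799b0_h82.CountC1

/-!
# The list bound

PROOF.  Let `M = card Vs`, `r = card F`, `Q = ∑ u, h u ^ 2`.  Summing `hcor` over `v ∈ Vs`:
`M r^3 ≤ 2 K ∑ u, h u * (∑ v ∈ Vs, sg H v u)`; by Cauchy-Schwarz
(`Finset.sum_mul_sq_le_sq_mul_sq`) `M^2 r^6 ≤ 4 K^2 Q * ∑ u, (∑ v ∈ Vs, sg H v u)^2`.
The last sum is `∑ v v', ∑ u, sg v u * sg v' u ≤ M r^3 + M^2 (m r^2 + r) ≤ M r^3 + 2 M^2 m r^2`
by `sg_orth` (the diagonal terms are `r^3` since `sg^2 = 1`; use `r ≤ m r^2`).  So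
`M^2 r^6 ≤ 4 K^2 Q M r^3 + 8 K^2 Q M^2 m r^2`, and by `hh` and `hr`
`8 K^2 Q m r^2 ≤ 8 K^4 m r^5 ≤ r^6 / 2`.  Hence `M^2 r^6 ≤ 8 K^2 Q M r^3`; divide by `M r^3`
(`M = 0` is trivial).
-/

set_option autoImplicit false

open Finset Polynomial

namespace Pool.Agent.W_d799b0_h82

variable {F : Type} [Field F] [Fintype F] [DecidableEq F]

/-- Few polynomials are correlated with a function `h`. -/
theorem list_bound (H : Finset F) (hH : 2 * H.card = Fintype.card F + 1) (m K : ℕ) (hm : 0 < m)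
    (hK : 0 < K) (hr : 16 * m * K ^ 4 ≤ Fintype.card F) (h : F × F × F → ℤ)
    (hh : ∑ u, h u ^ 2 ≤ (K : ℤ) ^ 2 * (Fintype.card F : ℤ) ^ 3) (Vs : Finset F[X])
    (hdeg : ∀ v ∈ Vs, v.degree < m)
    (hcor : ∀ v ∈ Vs, (Fintype.card F : ℤ) ^ 3 ≤ 2 * K * ∑ u, h u * sg H v u) :
    (Vs.card : ℤ) * (Fintype.card F : ℤ) ^ 3 ≤ 8 * (K : ℤ) ^ 2 * ∑ u, h u ^ 2 := by
  classical
  rcases Nat.eq_zero_or_pos Vs.card with h0 | hpos
  · rw [h0]
    have : 0 ≤ 8 * (K : ℤ) ^ 2 * ∑ u, h u ^ 2 :=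
      mul_nonneg (by positivity) (Finset.sum_nonneg fun u _ => sq_nonneg _)
    simpa using this
  set r : ℕ := Fintype.card F with hr0
  have hrpos : 0 < r := Fintype.card_pos
  set M : ℤ := (Vs.card : ℤ) with hM
  set Q : ℤ := ∑ u, h u ^ 2 with hQ
  have hQ0 : 0 ≤ Q := Finset.sum_nonneg fun u _ => sq_nonneg _
  have hM0 : 0 < M := by rw [hM]; exact_mod_cast hpos
  have hr1 : (1 : ℤ) ≤ r := by exact_mod_cast hrpos
  have hm1 : (1 : ℤ) ≤ m := by exact_mod_cast hm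
  have hK1 : (1 : ℤ) ≤ K := by exact_mod_cast hK
  let G : F × F × F → ℤ := fun u => ∑ v ∈ Vs, sg H v u
  -- summation of the correlations
  have h1 : M * (r : ℤ) ^ 3 ≤ 2 * K * ∑ u, h u * G u := by
    have h2 : ∑ v ∈ Vs, (r : ℤ) ^ 3 ≤ ∑ v ∈ Vs, 2 * K * ∑ u, h u * sg H v u :=
      Finset.sum_le_sum hcor
    rw [Finset.sum_const, nsmul_eq_mul, ← Finset.mul_sum, Finset.sum_comm] at h2
    have h3 : ∑ u, h u * G u = ∑ u, ∑ v ∈ Vs, h u * sg H v u := by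
      refine Finset.sum_congr rfl fun u _ => ?_
      simp only [G]; rw [Finset.mul_sum]
    rw [h3]; exact h2
  -- Cauchy-Schwarz
  have h4 : (∑ u, h u * G u) ^ 2 ≤ Q * ∑ u, G u ^ 2 :=
    Finset.sum_mul_sq_le_sq_mul_sq Finset.univ h G
  have hsg2 : ∀ (v : F[X]) (u : F × F × F), sg H v u * sg H v u = 1 := by
    intro v u; unfold sg; split_ifs <;> norm_num
  have hcardU : (Fintype.card (F × F × F) : ℤ) = (r : ℤ) ^ 3 := by
    simp only [Fintype.card_prod]; push_cast; ring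
  have h5 : ∑ u, G u ^ 2 ≤ M * r ^ 3 + 2 * M ^ 2 * (m * r ^ 2) := by
    have h6 : ∀ u, G u ^ 2 = ∑ v ∈ Vs, ∑ v' ∈ Vs, sg H v u * sg H v' u := by
      intro u; simp only [G]; rw [sq, Finset.sum_mul_sum]
    simp only [h6]
    rw [Finset.sum_comm]
    have h7 : ∀ v ∈ Vs, ∑ u, ∑ v' ∈ Vs, sg H v u * sg H v' u
        ≤ (r : ℤ) ^ 3 + M * (2 * (m * r ^ 2)) := by
      intro v hv
      rw [Finset.sum_comm]
      have h8 : ∀ v' ∈ Vs, ∑ u, sg H v u * sg H v' u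
          ≤ (if v' = v then (r : ℤ) ^ 3 else 0) + 2 * (m * r ^ 2) := by
        intro v' hv'
        by_cases e : v' = v
        · subst e
          rw [if_pos rfl]
          simp only [hsg2, Finset.sum_const, Finset.card_univ, nsmul_eq_mul, mul_one]
          rw [hcardU]
          have : (0 : ℤ) ≤ 2 * (m * r ^ 2) := by positivity
          linarith
        · rw [if_neg e, zero_add]
          have h9 := sg_orth H hH m v v' (hdeg v hv) (hdeg v' hv') (fun e' => e e'.symm)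
          refine h9.trans ?_
          have h10 : (r : ℤ) ≤ m * r ^ 2 := by nlinarith
          linarith
      refine (Finset.sum_le_sum h8).trans ?_
      rw [Finset.sum_add_distrib, Finset.sum_ite_eq' Vs v, if_pos hv, Finset.sum_const,
        nsmul_eq_mul]
    refine (Finset.sum_le_sum h7).trans ?_
    rw [Finset.sum_const, nsmul_eq_mul]
    exact le_of_eq (by rw [← hM]; ring)
  -- combine
  have h11 : (M * (r : ℤ) ^ 3) ^ 2 ≤ 4 * K ^ 2 * (Q * (M * r ^ 3 + 2 * M ^ 2 * (m * r ^ 2))) := by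
    have h12 : 0 ≤ M * (r : ℤ) ^ 3 := by positivity
    calc (M * (r : ℤ) ^ 3) ^ 2 ≤ (2 * K * ∑ u, h u * G u) ^ 2 := pow_le_pow_left₀ h12 h1 2
      _ = 4 * K ^ 2 * (∑ u, h u * G u) ^ 2 := by ring
      _ ≤ 4 * K ^ 2 * (Q * ∑ u, G u ^ 2) := mul_le_mul_of_nonneg_left h4 (by positivity)
      _ ≤ _ := mul_le_mul_of_nonneg_left (mul_le_mul_of_nonneg_left h5 hQ0) (by positivity)
  have hrr : (16 * m * K ^ 4 : ℤ) ≤ r := by exact_mod_cast hr
  -- second term is at most half of the left side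
  have h13 : 4 * (K : ℤ) ^ 2 * (Q * (2 * M ^ 2 * (m * r ^ 2))) * 2 ≤ (M * (r : ℤ) ^ 3) ^ 2 := by
    calc 4 * (K : ℤ) ^ 2 * (Q * (2 * M ^ 2 * (m * r ^ 2))) * 2
        = (16 * K ^ 2 * M ^ 2 * m * r ^ 2) * Q := by ring
      _ ≤ (16 * K ^ 2 * M ^ 2 * m * r ^ 2) * (K ^ 2 * r ^ 3) :=
          mul_le_mul_of_nonneg_left hh (by positivity)
      _ = (16 * m * K ^ 4) * (M ^ 2 * r ^ 5) := by ring
      _ ≤ r * (M ^ 2 * r ^ 5) := mul_le_mul_of_nonneg_right hrr (by positivity)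
      _ = (M * (r : ℤ) ^ 3) ^ 2 := by ring
  have h14 : (M * (r : ℤ) ^ 3) ^ 2 ≤ 8 * K ^ 2 * Q * (M * r ^ 3) := by
    have h15 : 4 * (K : ℤ) ^ 2 * (Q * (M * r ^ 3 + 2 * M ^ 2 * (m * r ^ 2)))
        = 4 * (K : ℤ) ^ 2 * Q * (M * r ^ 3) + 4 * (K : ℤ) ^ 2 * (Q * (2 * M ^ 2 * (m * r ^ 2))) := by
      ring
    rw [h15] at h11
    linarith
  have h16 : 0 < M * (r : ℤ) ^ 3 := by positivity
  have h17 : (M * (r : ℤ) ^ 3) * (M * (r : ℤ) ^ 3) ≤ (8 * K ^ 2 * Q) * (M * r ^ 3) := by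
    rw [← sq]; exact h14
  exact le_of_mul_le_mul_right h17 h16

end Pool.Agent.W_d799b0_h82
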