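import Pool.Agent.W_d799b0_h82.Inv

/-!
# Counting queries

Inductions on lists.  `hq (q :: L) Y = hq L Y + (if q.2 = Y then (if q.1 then 1 else -1) else 0)`.
`weight_eq_sum`: induction on `L`; for a satisfied query `q` exactly one `Y ∈ R` equals `q.2`, for
a query that is not satisfied none (by `hR`).
`sum_sq_hq_le`: `∑ Y ∈ Lab, |hq L Y| ≤ L.length` by induction, and `∑ a^2 ≤ (∑ |a|)^2`.
`accOK_iff`: each of the two inequalities is one of the two inequalities contained in `|.| ≤ .`
(cast to `ℤ`, `abs_le`).  `keep_iff`: if `hq (corr ..) Y` is positive then the count of `(true, Y)`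
is positive, so `(true, Y)` occurs.
-/

set_option autoImplicit false

namespace Pool.Agent.W_d799b0_h82

theorem hq_nil (Y : List (List Bool)) : hq [] Y = 0 := by
  simp [hq]

theorem hq_cons (q : Query) (L : List Query) (Y : List (List Bool)) :
    hq (q :: L) Y = (if q.2 = Y then (if q.1 then 1 else -1) else 0) + hq L Y := by
  obtain ⟨b, Z⟩ := q
  unfold hq
  rw [List.count_cons, List.count_cons]
  by_cases h : Z = Y
  · subst h
    cases b
    · simp
      ring
    · simp
      ring
  · have h1 : ∀ c : Bool, ¬ ((b, Z) = (c, Y)) := by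
      intro c hc
      exact h (Prod.mk.inj hc).2
    simp [h]

theorem HqA_hq_append (L M : List Query) (Y : List (List Bool)) :
    hq (L ++ M) Y = hq L Y + hq M Y := by
  unfold hq
  rw [List.count_append, List.count_append]
  push_cast
  ring

theorem hq_flatMap {α : Type} (l : List α) (f : α → List Query) (Y : List (List Bool)) :
    hq (l.flatMap f) Y = (l.map fun a => hq (f a) Y).sum := by
  induction l with
  | nil => simp [hq_nil]
  | cons a l ih =>
    rw [List.flatMap_cons, HqA_hq_append, ih, List.map_cons, List.sum_cons]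

theorem hq_of_not_mem (L : List Query) (Y : List (List Bool)) (h : ∀ q ∈ L, q.2 ≠ Y) :
    hq L Y = 0 := by
  induction L with
  | nil => exact hq_nil Y
  | cons q L ih =>
    rw [hq_cons, ih (fun p hp => h p (List.mem_cons_of_mem _ hp)),
      if_neg (h q (List.mem_cons_self))]
    rfl

theorem HqA_weight_nil (S : Set (List Bool)) : weight S [] = 0 := by
  simp [weight]

open Classical in
theorem HqA_weight_cons (S : Set (List Bool)) (q : Query) (L : List Query) :
    weight S (q :: L) = (if ∀ y ∈ q.2, y ∈ S then (if q.1 then (1 : ℤ) else -1) else 0)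
      + weight S L := by
  unfold weight
  rw [List.map_cons, List.sum_cons]

theorem HqA_weight_append (S : Set (List Bool)) (L M : List Query) :
    weight S (L ++ M) = weight S L + weight S M := by
  unfold weight
  rw [List.map_append, List.sum_append]

theorem weight_flatMap (S : Set (List Bool)) {α : Type} (l : List α) (f : α → List Query) :
    weight S (l.flatMap f) = (l.map fun a => weight S (f a)).sum := by
  induction l with
  | nil => simp [HqA_weight_nil]
  | cons a l ih =>
    rw [List.flatMap_cons, HqA_weight_append, ih, List.map_cons, List.sum_cons]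

theorem weight_le (S : Set (List Bool)) (L : List Query) : weight S L ≤ L.length := by
  induction L with
  | nil => simp [HqA_weight_nil]
  | cons q L ih =>
    rw [HqA_weight_cons, List.length_cons]
    push_cast
    split_ifs <;> linarith

theorem neg_le_weight (S : Set (List Bool)) (L : List Query) :
    -(L.length : ℤ) ≤ weight S L := by
  induction L with
  | nil => simp [HqA_weight_nil]
  | cons q L ih =>
    rw [HqA_weight_cons, List.length_cons]
    push_cast
    split_ifs <;> linarith

theorem weight_eq_sum (S : Set (List Bool)) (R : Finset (List (List Bool)))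
    (hR : ∀ Y ∈ R, ∀ y ∈ Y, y ∈ S) (L : List Query)
    (hL : ∀ q ∈ L, (∀ y ∈ q.2, y ∈ S) → q.2 ∈ R) : weight S L = ∑ Y ∈ R, hq L Y := by
  induction L with
  | nil => simp [HqA_weight_nil, hq_nil]
  | cons q L ih =>
    rw [HqA_weight_cons, ih (fun p hp => hL p (List.mem_cons_of_mem _ hp))]
    simp only [hq_cons, Finset.sum_add_distrib]
    congr 1
    rw [Finset.sum_ite_eq]
    by_cases h : ∀ y ∈ q.2, y ∈ S
    · rw [if_pos h, if_pos (hL q (List.mem_cons_self) h)]
    · rw [if_neg h, if_neg (fun hm => h (hR _ hm))]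

theorem HqA_sum_abs (L : List Query) (Lab : Finset (List (List Bool))) :
    ∑ Y ∈ Lab, |hq L Y| ≤ (L.length : ℤ) := by
  induction L with
  | nil => simp [hq_nil]
  | cons q L ih =>
    have h1 : ∑ Y ∈ Lab, |hq (q :: L) Y| ≤
        ∑ Y ∈ Lab, ((if q.2 = Y then (1 : ℤ) else 0) + |hq L Y|) := by
      apply Finset.sum_le_sum
      intro Y _
      rw [hq_cons]
      refine le_trans (abs_add_le _ _) ?_
      gcongr
      split_ifs <;> simp
    refine le_trans h1 ?_
    rw [Finset.sum_add_distrib, Finset.sum_ite_eq, List.length_cons]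
    push_cast
    split_ifs <;> linarith

theorem sum_sq_hq_le (L : List Query) (Lab : Finset (List (List Bool))) :
    ∑ Y ∈ Lab, hq L Y ^ 2 ≤ (L.length : ℤ) ^ 2 := by
  have h0 := HqA_sum_abs L Lab
  have h1 : ∑ Y ∈ Lab, hq L Y ^ 2 ≤ ∑ Y ∈ Lab, |hq L Y| * (L.length : ℤ) := by
    apply Finset.sum_le_sum
    intro Y hY
    have h2 : |hq L Y| ≤ (L.length : ℤ) :=
      le_trans (Finset.single_le_sum (f := fun Y => |hq L Y|) (fun _ _ => abs_nonneg _) hY) h0
    calc hq L Y ^ 2 = |hq L Y| * |hq L Y| := by rw [← sq, sq_abs]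
      _ ≤ _ := mul_le_mul_of_nonneg_left h2 (abs_nonneg _)
  refine le_trans h1 ?_
  rw [← Finset.sum_mul, sq]
  exact mul_le_mul_of_nonneg_right h0 (by positivity)

theorem accOK_iff (K w R : ℕ) (FU FS : List Query) :
    accOK K w R FU FS = true ↔ ∀ q ∈ FU,
      4 * (K : ℤ) * |(R : ℤ) * hq FS q.2 - w * hq FU q.2| ≤ w * R := by
  unfold accOK
  rw [List.all_eq_true]
  apply forall₂_congr
  intro q _
  rw [Bool.and_eq_true, decide_eq_true_iff, decide_eq_true_iff]
  have h0 : 4 * (K : ℤ) * |(R : ℤ) * hq FS q.2 - w * hq FU q.2|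
      = |4 * (K : ℤ) * ((R : ℤ) * hq FS q.2 - w * hq FU q.2)| := by
    rw [abs_mul, abs_of_nonneg (show (0 : ℤ) ≤ 4 * (K : ℤ) by positivity)]
  rw [h0, abs_le]
  unfold hq
  zify
  constructor
  · rintro ⟨h1, h2⟩
    constructor <;> nlinarith
  · rintro ⟨h1, h2⟩
    constructor <;> nlinarith

theorem hq_map_flip (L : List Query) (Y : List (List Bool)) :
    hq (L.map flipQ) Y = -hq L Y := by
  induction L with
  | nil => simp [hq_nil]
  | cons q L ih =>
    rw [List.map_cons, hq_cons, hq_cons, ih]
    obtain ⟨b, Z⟩ := q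
    by_cases h : Z = Y
    · cases b <;> simp [flipQ, h] <;> ring
    · simp [flipQ, h]

theorem hq_corr (r : ℕ) (Tab : List (Pt × List Query)) (v : List Bool) (Y : List (List Bool)) :
    hq (corr r Tab v) Y = (Tab.map fun p => (if chi r p.1 v then 1 else -1) * hq p.2 Y).sum := by
  unfold corr
  rw [hq_flatMap]
  congr 1
  apply List.map_congr_left
  intro p _
  by_cases h : chi r p.1 v = true
  · simp [h]
  · simp [h, hq_map_flip]

theorem keep_iff (r K : ℕ) (hr : 0 < r) (Tab : List (Pt × List Query)) (v : List Bool) :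
    keep r K Tab v = true ↔
      ∃ Y, (r : ℤ) ^ 3 ≤ 2 * K * hq (corr r Tab v) Y := by
  unfold keep
  rw [List.any_eq_true]
  constructor
  · rintro ⟨q, _, hq1⟩
    rw [decide_eq_true_iff] at hq1
    refine ⟨q.2, ?_⟩
    unfold hq
    zify at hq1
    nlinarith
  · rintro ⟨Y, hY⟩
    have hr3 : (0 : ℤ) < (r : ℤ) ^ 3 := by positivity
    have hpos : 0 < hq (corr r Tab v) Y := by
      by_contra hcon
      push Not at hcon
      have : 2 * (K : ℤ) * hq (corr r Tab v) Y ≤ 0 :=
        mul_nonpos_of_nonneg_of_nonpos (by positivity) hcon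
      linarith
    have hc : 0 < (corr r Tab v).count (true, Y) := by
      unfold hq at hpos
      have h1 : (0 : ℤ) ≤ ((corr r Tab v).count (false, Y) : ℤ) := by positivity
      have h2 : (0 : ℤ) < ((corr r Tab v).count (true, Y) : ℤ) := by linarith
      exact_mod_cast h2
    refine ⟨(true, Y), List.count_pos_iff.mp hc, ?_⟩
    rw [decide_eq_true_iff]
    unfold hq at hY
    zify
    nlinarith

end Pool.Agent.W_d799b0_h82
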