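import Pool.Agent.W_d799b0_h82.SmallA
import Pool.Agent.W_d799b0_h82.HqA
import Pool.Agent.W_d799b0_h82.CountC2

/-!
# The small case: the signs

`F = ZMod r`, `H` = image of `{0, .., (r+1)/2 - 1}` in `F`, so `2 * card H = r + 1`
(`Params.odd_r`; the cast is injective on numbers `< r`).  `chi_eq_sg`: unfold `chi`, `testOK`,
`bB_cast`; a number `n < r` has its cast in `HH r` iff `n < (r + 1) / 2`.
`tab_sum`: `hq_corr`, `List.map_map`, `sum_pts`, `chi_eq_sg`.
-/

set_option autoImplicit false

open Finset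

namespace Pool.Agent.W_d799b0_h82

/-- The residues that pass the tests of the small case. -/
def HH (r : ℕ) : Finset (ZMod r) := (Finset.range ((r + 1) / 2)).image fun n : ℕ => (n : ZMod r)

theorem cast_inj_lt {r a b : ℕ} (ha : a < r) (hb : b < r) (h : (a : ZMod r) = b) : a = b := by
  have h' := (ZMod.natCast_eq_natCast_iff' _ _ _).1 h
  rwa [Nat.mod_eq_of_lt ha, Nat.mod_eq_of_lt hb] at h'

theorem card_HH (E : Env) (hP : Params E) : 2 * (HH (eR E)).card = eR E + 1 := by
  have h1 := hP.odd_r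
  have h2 := hP.prime.two_le
  unfold HH
  rw [Finset.card_image_of_injOn, Finset.card_range, h1]
  intro a ha b hb hab
  simp only [Finset.coe_range, Set.mem_Iio] at ha hb
  exact cast_inj_lt (by omega) (by omega) hab

theorem cast_mem_HH {r n : ℕ} (h2 : 2 ≤ r) (hn : n < r) :
    (n : ZMod r) ∈ HH r ↔ n < (r + 1) / 2 := by
  unfold HH
  rw [Finset.mem_image]
  constructor
  · rintro ⟨a, ha, hab⟩
    rw [Finset.mem_range] at ha
    have := cast_inj_lt (by omega) hn hab
    omega
  · intro h
    exact ⟨n, Finset.mem_range.2 h, rfl⟩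

theorem chi_eq_sg (r : ℕ) [Fact r.Prime] (u : ZMod r × ZMod r × ZMod r) (v : List Bool) :
    sg (HH r) (bP r v) u = if chi r (toPt u) v then 1 else -1 := by
  have h2 := (Fact.out : r.Prime).two_le
  have hpos := (Fact.out : r.Prime).pos
  have key : (u.2.1 * (bP r v).eval u.1 + u.2.2 ∈ HH r) ↔ chi r (toPt u) v = true := by
    simp only [chi, testOK, toPt, List.take_length, decide_eq_true_eq]
    rw [← cast_mem_HH h2 (Nat.mod_lt _ hpos)]
    rw [ZMod.natCast_mod]
    push_cast
    rw [bB_cast]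
    simp only [ZMod.natCast_val, ZMod.cast_id', id_eq]
  unfold sg
  simp only [key]

theorem tab_sum (g : Inst → List Query) (E : Env) [Fact (eR E).Prime] (ph : List (List Seed))
    (i0 b0 j : ℕ) (v : List Bool) (Y : List (List Bool)) :
    hq (corr (eR E) (tabS g E ph i0 b0 j) v) Y =
      ∑ u : ZMod (eR E) × ZMod (eR E) × ZMod (eR E),
        hq (g (instS E ph i0 b0 j (toPt u))) Y * sg (HH (eR E)) (bP (eR E) v) u := by
  have : NeZero (eR E) := ⟨(Fact.out : (eR E).Prime).ne_zero⟩
  rw [hq_corr, tabS, List.map_map]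
  have h := sum_pts (eR E) (fun u => (if chi (eR E) u v then (1 : ℤ) else -1) *
    hq (g (instS E ph i0 b0 j u)) Y)
  rw [show (List.map ((fun p : Pt × List Query => (if chi (eR E) p.1 v then (1 : ℤ) else -1) *
    hq p.2 Y) ∘ fun u => (u, g (instS E ph i0 b0 j u))) (pts (eR E))).sum =
    ((pts (eR E)).map (fun u => (if chi (eR E) u v then (1 : ℤ) else -1) *
    hq (g (instS E ph i0 b0 j u)) Y)).sum from rfl, h]
  refine Finset.sum_congr rfl fun u _ => ?_
  rw [chi_eq_sg, mul_comm]

end Pool.Agent.W_d799b0_h82
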