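import Pool.Agent.W_d799b0_h82.Cor
import Pool.Agent.W_d799b0_h82.PinNP

/-!
# Conjunctive reductions, and the converse

If P = NP then the sparse set `{[]}` is hard for NP: if `x ∈ A` then ask for the empty string,
otherwise for the string `[true]`.
-/

set_option autoImplicit false

open Turing Computability

namespace Pool.Agent.W_d799b0_h82

open Pool.Agent.PolyTime Function

open Classical in
private theorem Cor2_weight (S : Set (List Bool)) (L : List (List Bool)) :
    weight S (L.flatMap fun y => [(true, [y]), (false, [])])
      = ((L.filter fun y => y ∈ S).length : ℤ) - L.length := by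
  induction L with
  | nil => simp [weight]
  | cons y L ih =>
    have h1 : ∀ L L' : List Query, weight S (L ++ L') = weight S L + weight S L' := by
      intro L L'
      simp [weight]
    rw [List.flatMap_cons, h1, ih]
    by_cases hy : y ∈ S
    · simp [weight, hy]
    · simp [weight, hy]
      ring

theorem ConjRed.thr {A S : Set (List Bool)} (h : ConjRed A S) : ThrRed 1 A S := by
  classical
  obtain ⟨f, hf, hA⟩ := h
  have hp := pf_of_encL hf
  refine ⟨fun x => (true, []) :: (f x).flatMap fun y => [(true, [y]), (false, [])],
    toEncQ ?_, ?_, ?_⟩
  · fun_prop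
  · intro x q hq
    rcases List.mem_cons.1 hq with rfl | hq
    · simp
    · obtain ⟨y, _, hq⟩ := List.mem_flatMap.1 hq
      simp only [List.mem_cons, List.not_mem_nil, or_false] at hq
      rcases hq with rfl | rfl <;> simp
  · intro x
    have h1 : weight S ((true, []) :: (f x).flatMap fun y => [(true, [y]), (false, [])]) =
        1 + weight S ((f x).flatMap fun y => [(true, [y]), (false, [])]) := by
      simp [weight]
    rw [hA, h1, Cor2_weight]
    have h2 : ((f x).filter fun y => y ∈ S).length ≤ (f x).length := List.length_filter_le _ _
    have h3 : ((f x).filter fun y => y ∈ S).length = (f x).length ↔ ∀ y ∈ f x, y ∈ S := by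
      rw [List.length_filter_eq_length_iff]
      simp
    rw [← h3]
    omega

private def Cor2_cd : Option Bool → ℕ
  | none => 0
  | some false => 1
  | some true => 2

private def Cor2_dec : ℕ → Option Bool
  | 0 => none
  | 1 => some false
  | _ => some true

theorem toEncL {f : List Bool → List (List Bool)} (h : PF f) :
    Nonempty (TM2ComputableInPolyTime (fun x : List Bool => x) encL f) := by
  have h1 : Poly (fun x : List Bool => x) en f := Poly.comp strTree h
  have h2 : PF (fun L : List (List Bool) => L.flatMap fun y =>
      0 :: y.map fun b => if b then 2 else 1) := by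
    fun_prop
  have h3 : ∀ L : List (List Bool), (encL L).map Cor2_cd = L.flatMap fun y =>
      0 :: y.map fun b => if b then 2 else 1 := by
    intro L
    unfold encL
    rw [List.map_flatMap]
    congr 1
    funext y
    rw [List.map_cons, List.map_map]
    congr 1
    apply List.map_congr_left
    intro b _
    cases b <;> rfl
  have h4 : Poly en (fun w : List (Option Bool) => en (w.map Cor2_cd)) encL := by
    refine h2.restrict id (fun _ => rfl) ?_
    intro L
    rw [h3]
    rfl
  have h5 : Poly (fun w : List (Option Bool) => en (w.map Cor2_cd))
      (fun w : List (Option Bool) => w) (fun w => w) :=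
    Poly.rawOfNat 2 Cor2_dec Cor2_cd (by
      intro a
      rcases a with _ | b
      · simp [Cor2_cd]
      · cases b <;> simp [Cor2_cd]) (by
      intro a
      rcases a with _ | b
      · rfl
      · cases b <;> rfl)
  have h6 := Poly.comp h1 (Poly.comp h4 h5)
  exact h6.restrict id (fun _ => rfl) (fun _ => rfl)

theorem sparse_single : Sparse {([] : List Bool)} := by
  refine ⟨1, fun n => ?_⟩
  rw [Polynomial.eval_one]
  have h : {y : List Bool | y ∈ ({[]} : Set (List Bool)) ∧ y.length ≤ n} ⊆ {[]} := fun y hy => hy.1
  exact (Set.ncard_le_ncard h (Set.finite_singleton _)).trans (by simp)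

/-- Everything in P reduces to the set that contains only the empty string. -/
theorem InP.red {A : Set (List Bool)} (h : InP A) :
    DisjRed A {[]} ∧ ConjRed A {[]} ∧ MajRed A {[]} := by
  classical
  obtain ⟨χ, hχ, hA⟩ := h
  have h0 : PF χ := (PB.toPF (Poly.comp treeStr hχ : Poly en encodeBool χ))
  have hf : Nonempty (TM2ComputableInPolyTime (fun x : List Bool => x) encL
      (fun x => if χ x then [[]] else [[true]])) := by
    apply toEncL
    exact h0.ite (PF.const _) (PF.const _)
  refine ⟨⟨_, hf, fun x => ?_⟩, ⟨_, hf, fun x => ?_⟩, ⟨_, hf, fun x => ?_⟩⟩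
  · rw [hA]
    cases h : χ x <;> simp
  · rw [hA]
    cases h : χ x <;> simp
  · rw [hA]
    cases h : χ x <;> simp

end Pool.Agent.W_d799b0_h82
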