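import Pool.Agent.PolyTime.Clock
import Pool.Agent.PolyTime.Transducer

/-!
# Polynomial-time functions: more closure properties, and `fun_prop`

The predicate `PF` is registered with `fun_prop`; its side goals such as
`PF (fun c => (l c).map (fun a => F c a))` can be proved by `fun_prop` when `F` is made from the
functions below.  Functions of two or more arguments `V` for which only the uncurried form
`PF (fun p => V p.1 p.2)` is known need `pf_comp2`.
-/

set_option autoImplicit false
set_option linter.unusedSectionVars false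

namespace Pool.Agent.PolyTime

attribute [fun_prop] PF

attribute [fun_prop] PF.id' PF.const PF.comp PF.pair PF.fst PF.snd PF.fst' PF.snd' PF.cons
  PF.tail PF.succ PF.pred PF.ite PF.cond PF.not PF.and PF.or PF.isCons PF.isPos PF.revAppend
  PF.reverse PF.append PF.map PF.flatten PF.flatMap PF.any PF.all PF.filter PF.length PF.add
  PF.sub PF.lt PF.le PF.natEq PF.boolEq PF.mul PF.zipIdx PF.range PF.pow PF.evalPoly PF.replicate

end Pool.Agent.PolyTime

namespace Pool.Agent.W_d799b0_h82

open Pool.Agent.PolyTime Function

variable {α β γ δ : Type} [ToD α] [ToD β] [ToD γ] [ToD δ]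

theorem pf_comp2 {f : α → β → δ} {a : γ → α} {b : γ → β} (hf : PF (fun p : α × β => f p.1 p.2))
    (ha : PF a) (hb : PF b) : PF (fun c => f (a c) (b c)) :=
  hf.comp (ha.pair hb)

/-! ### Injective representations -/

/-- the representation of the type by trees is injective -/
class Inj (α : Type) [ToD α] : Prop where
  inj : Injective (toD : α → D)

instance : Inj D := ⟨fun _ _ h => h⟩

instance : Inj Bool := ⟨fun a b h => by
  cases a <;> cases b <;> simp_all [toD, D.ofBool]⟩

instance : Inj Unit := ⟨fun _ _ _ => rfl⟩

instance : Inj ℕ := ⟨by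
  intro m n h
  induction m generalizing n with
  | zero => cases n with
    | zero => rfl
    | succ n => simp at h
  | succ m ih => cases n with
    | zero => simp at h
    | succ n => simp only [toD_succ, D.cons.injEq, true_and] at h; rw [ih h]⟩

instance [Inj α] [Inj β] : Inj (α × β) := ⟨by
  rintro ⟨a, b⟩ ⟨a', b'⟩ h
  simp only [toD_pair, D.cons.injEq] at h
  rw [Inj.inj h.1, Inj.inj h.2]⟩

instance [Inj α] : Inj (List α) := ⟨by
  intro l
  induction l with
  | nil => intro l' h; cases l' with
    | nil => rfl
    | cons a l' => simp at h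
  | cons a l ih => intro l' h; cases l' with
    | nil => simp at h
    | cons a' l' =>
      simp only [toD_cons, D.cons.injEq] at h
      rw [Inj.inj h.1, ih h.2]⟩

theorem enc_append_inj : ∀ (a b : D) (u v : List Bool), a.enc ++ u = b.enc ++ v → a = b ∧ u = v
  | .nil, .nil, u, v, h => by simpa [D.enc] using h
  | .nil, .cons _ _, u, v, h => by simp [D.enc] at h
  | .cons _ _, .nil, u, v, h => by simp [D.enc] at h
  | .cons a b, .cons a' b', u, v, h => by
    simp only [D.enc, List.cons_append, List.cons.injEq, true_and, List.append_assoc] at h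
    obtain ⟨h1, h2⟩ := enc_append_inj a a' _ _ h
    obtain ⟨h3, h4⟩ := enc_append_inj b b' _ _ h2
    exact ⟨by rw [h1, h3], h4⟩

theorem D_enc_injective : Injective D.enc := fun a b h =>
  (enc_append_inj a b [] [] (by simpa using h)).1

theorem en_injective [Inj α] : Injective (en : α → List Bool) := fun _ _ h =>
  Inj.inj (D_enc_injective h)

/-- the code as a string -/
@[fun_prop]
theorem pf_encD {f : γ → D} (hf : PF f) : PF (fun c => (f c).enc) := by
  have h : PF (fun t : D => t.enc) :=
    (Poly.toTree D.ofBool).restrict (fun t : D => t.enc) (fun _ => rfl) (fun _ => rfl)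
  exact h.comp hf

@[fun_prop]
theorem pf_en {f : γ → α} (hf : PF f) : PF (fun c => (en (f c) : List Bool)) :=
  pf_encD (f := fun c => toD (f c)) (hf.cast (fun _ => rfl))

/-- comparison of two strings by positions -/
private def PFun_cmp (l m : List Bool) : Bool :=
  decide (l.length = m.length) &&
    l.zipIdx.all (fun p => m.zipIdx.any (fun q => decide (p.2 = q.2) && (p.1 == q.1)))

private theorem PFun_cmp_iff (l m : List Bool) : PFun_cmp l m = true ↔ l = m := by
  constructor
  · intro h
    simp only [PFun_cmp, Bool.and_eq_true, decide_eq_true_eq, List.all_eq_true,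
      List.any_eq_true, beq_iff_eq] at h
    obtain ⟨h1, h2⟩ := h
    refine List.ext_getElem h1 (fun i hi hi' => ?_)
    have h3 : (l[i], i) ∈ l.zipIdx := by
      rw [List.mem_zipIdx_iff_getElem?]
      simp [hi]
    obtain ⟨q, hq, h4, h5⟩ := h2 _ h3
    have h6 : m[q.2]? = some q.1 := by
      obtain ⟨a, b⟩ := q
      exact List.mem_zipIdx_iff_getElem?.1 hq
    simp only at h4 h5
    rw [← h4, ← h5, List.getElem?_eq_getElem hi'] at h6
    exact (Option.some.inj h6).symm
  · rintro rfl
    simp only [PFun_cmp, Bool.and_eq_true, decide_eq_true_eq, List.all_eq_true,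
      List.any_eq_true, beq_iff_eq, true_and]
    intro p hp
    exact ⟨p, hp, rfl, rfl⟩

@[fun_prop]
theorem pf_strEq {f g : γ → List Bool} (hf : PF f) (hg : PF g) :
    PF (fun c => decide (f c = g c)) := by
  have h : PF (fun c => PFun_cmp (f c) (g c)) := by
    unfold PFun_cmp
    refine (hf.length.natEq hg.length).and ?_
    refine PF.all (g := fun c (p : Bool × ℕ) =>
      (g c).zipIdx.any (fun q => decide (p.2 = q.2) && (p.1 == q.1))) ?_ hf.zipIdx
    refine PF.any (g := fun (x : γ × (Bool × ℕ)) (q : Bool × ℕ) =>
      decide (x.2.2 = q.2) && (x.2.1 == q.1)) ?_ (hg.comp PF.fst').zipIdx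
    exact (PF.natEq PF.fst'.snd.snd PF.snd'.snd).and (PF.boolEq PF.fst'.snd.fst PF.snd'.fst)
  refine h.cast (fun c => ?_)
  have h1 : decide (f c = g c) = PFun_cmp (f c) (g c) := by
    rw [Bool.eq_iff_iff, decide_eq_true_eq, PFun_cmp_iff]
  rw [h1]

/-- **equality** -/
theorem pf_eq [Inj α] [DecidableEq α] {f g : γ → α} (hf : PF f) (hg : PF g) :
    PF (fun c => decide (f c = g c)) := by
  refine (pf_strEq (pf_en hf) (pf_en hg)).cast (fun c => ?_)
  have h1 : decide (f c = g c) = decide ((en (f c) : List Bool) = en (g c)) := by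
    rw [Bool.eq_iff_iff, decide_eq_true_eq, decide_eq_true_eq, en_injective.eq_iff]
  rw [h1]

@[fun_prop]
theorem pf_beq [Inj α] [BEq α] [LawfulBEq α] {f g : γ → α} (hf : PF f) (hg : PF g) :
    PF (fun c => f c == g c) := by
  refine (pf_strEq (pf_en hf) (pf_en hg)).cast (fun c => ?_)
  have h1 : (f c == g c) = decide ((en (f c) : List Bool) = en (g c)) := by
    rw [Bool.eq_iff_iff, beq_iff_eq, decide_eq_true_eq, en_injective.eq_iff]
  rw [h1]

end Pool.Agent.W_d799b0_h82
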