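import Mathlib

/-!
# Counting over a finite field: few points miss a large set of polynomials

PROOF OF `hit_count`.  For a point `u = (i, c, d)` let `Z u` be the number of `z ∈ D` with
`c * z(i) + d ∈ A`; put `r = card F`, `s = card A`, `N = card D`.
(1) `∑ u, Z u = N * r ^ 2 * s` (for fixed `z, i, c` exactly `s` values of `d`).
(2) `∑ u, Z u ^ 2 ≤ N r^2 s + N^2 (m r s + r s^2)`: write `Z u ^ 2` as a sum over pairs `(z, z')`.
Pairs `z = z'` contribute `N r^2 s`.  For `z ≠ z'` there are fewer than `m` points `i` with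
`z(i) = z'(i)` (`Polynomial.card_roots'` for `z - z'`, degree `< m`), each of which contributes
`r s`; for the other `i` the map `(c, d) ↦ (c z(i) + d, c z'(i) + d)` is a bijection of `F × F`, so
the contribution is `s ^ 2`.
(3) With real `μ = N s / r`: `∑ (Z u - μ)^2 ≤ N r^2 s + N^2 m r s` (as `∑ Z u * μ = N r^2 s μ` and
`r^3 μ^2 = r N^2 s^2`), and every `u` with `Z u = 0` contributes `μ^2`.  So
`#{Z = 0} * N^2 s^2 / r^2 ≤ N r^2 s + N^2 m r s`; multiply by `r^2 / (N s)` (if `N s = 0` the claim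
is trivial).
-/

set_option autoImplicit false

open Finset Polynomial

namespace Pool.Agent.W_d799b0_h82

variable {F : Type} [Field F] [Fintype F] [DecidableEq F]

lemma ca_sum_pair_one (f : F → ℤ) (v : F) :
    ∑ p : F × F, f (p.1 * v + p.2) = Fintype.card F * ∑ x, f x := by
  rw [Fintype.sum_prod_type]
  have h : ∀ c : F, ∑ d : F, f (c * v + d) = ∑ x, f x := fun c =>
    Fintype.sum_equiv (Equiv.addLeft (c * v)) _ _ (fun d => rfl)
  simp only [h, Finset.sum_const, Finset.card_univ, nsmul_eq_mul]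

/-- `(c, d) ↦ (c v + d, c v' + d)` is a bijection for `v ≠ v'`. -/
def caPairEquiv (v v' : F) (h : v ≠ v') : F × F ≃ F × F where
  toFun p := (p.1 * v + p.2, p.1 * v' + p.2)
  invFun q := ((q.1 - q.2) / (v - v'), q.1 - (q.1 - q.2) / (v - v') * v)
  left_inv p := by
    have hv : v - v' ≠ 0 := sub_ne_zero.2 h
    have h1 : (p.1 * v + p.2 - (p.1 * v' + p.2)) / (v - v') = p.1 := by
      rw [div_eq_iff hv]; ring
    simp only [h1]
    ext <;> simp
  right_inv q := by
    have hv : v - v' ≠ 0 := sub_ne_zero.2 h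
    ext
    · simp
    · have h1 : (q.1 - q.2) / (v - v') * (v - v') = q.1 - q.2 := div_mul_cancel₀ _ hv
      simp only
      linear_combination (-1 : F) * h1

lemma ca_sum_pair_two (f g : F → ℤ) (v v' : F) (h : v ≠ v') :
    ∑ p : F × F, f (p.1 * v + p.2) * g (p.1 * v' + p.2)
      = (∑ x, f x) * ∑ x, g x := by
  rw [Finset.sum_mul_sum, ← Fintype.sum_prod_type']
  exact Fintype.sum_equiv (caPairEquiv v v' h) _ _ (fun p => rfl)

lemma ca_sum_U (G : F × F × F → ℤ) :
    ∑ u : F × F × F, G u = ∑ i : F, ∑ p : F × F, G (i, p.1, p.2) := by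
  rw [Fintype.sum_prod_type]

lemma ca_sum_aff (f : F → ℤ) (z : F → F) :
    ∑ u : F × F × F, f (u.2.1 * z u.1 + u.2.2)
      = Fintype.card F * (Fintype.card F * ∑ x, f x) := by
  rw [ca_sum_U]
  simp only
  simp only [ca_sum_pair_one, Finset.sum_const, Finset.card_univ, nsmul_eq_mul]

/-- two codes: correlation of a nonnegative function -/
lemma ca_sum_aff_two_le (f : F → ℤ) (hf : ∀ x, 0 ≤ f x) (hf1 : ∀ x, f x ≤ 1)
    (z z' : F → F) (n' : ℕ)
    (hag : (univ.filter fun i => z i = z' i).card ≤ n') :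
    ∑ u : F × F × F, f (u.2.1 * z u.1 + u.2.2) * f (u.2.1 * z' u.1 + u.2.2)
      ≤ Fintype.card F * (∑ x, f x) ^ 2 + n' * (Fintype.card F * ∑ x, f x) := by
  have hS : 0 ≤ ∑ x, f x := Finset.sum_nonneg fun x _ => hf x
  rw [ca_sum_U]
  have key : ∀ i : F, ∑ p : F × F,
      f (p.1 * z i + p.2) * f (p.1 * z' i + p.2)
      ≤ (∑ x, f x) ^ 2 + (if z i = z' i then Fintype.card F * ∑ x, f x else 0) := by
    intro i
    by_cases h : z i = z' i
    · rw [if_pos h]
      have h1 : ∑ p : F × F, f (p.1 * z i + p.2) * f (p.1 * z' i + p.2)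
          ≤ ∑ p : F × F, f (p.1 * z i + p.2) := by
        refine Finset.sum_le_sum fun p _ => ?_
        rw [← h]
        have h2 := hf (p.1 * z i + p.2)
        have h3 := hf1 (p.1 * z i + p.2)
        nlinarith
      rw [ca_sum_pair_one] at h1
      nlinarith [sq_nonneg (∑ x, f x)]
    · rw [if_neg h, add_zero]
      rw [ca_sum_pair_two f f _ _ h, sq]
  refine (Finset.sum_le_sum fun i _ => key i).trans ?_
  rw [Finset.sum_add_distrib, Finset.sum_const, Finset.card_univ, nsmul_eq_mul,
    ← Finset.sum_filter, Finset.sum_const, nsmul_eq_mul]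
  have h4 : (((univ.filter fun i => z i = z' i).card : ℕ) : ℤ) ≤ n' := by exact_mod_cast hag
  have h5 : 0 ≤ (Fintype.card F : ℤ) * ∑ x, f x := by positivity
  nlinarith

/-- indicator of `A` -/
def caInd (A : Finset F) (x : F) : ℤ := if x ∈ A then 1 else 0

omit [Field F] [Fintype F] in
lemma caInd_nonneg (A : Finset F) (x : F) : 0 ≤ caInd A x := by
  unfold caInd; split_ifs <;> norm_num

omit [Field F] [Fintype F] in
lemma caInd_le (A : Finset F) (x : F) : caInd A x ≤ 1 := by
  unfold caInd; split_ifs <;> norm_num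

omit [Field F] in
lemma ca_sum_ind (A : Finset F) : ∑ x, caInd A x = A.card := by
  unfold caInd
  rw [Finset.sum_ite_mem, Finset.univ_inter]
  simp

/-- polynomials of degree `< m` agree at most at `m` points -/
lemma ca_agree (m : ℕ) (z z' : F[X]) (hz : z.degree < m) (hz' : z'.degree < m) (hne : z ≠ z') :
    (univ.filter fun i : F => z.eval i = z'.eval i).card ≤ m := by
  have h0 : z - z' ≠ 0 := sub_ne_zero.2 hne
  have h1 : (univ.filter fun i : F => z.eval i = z'.eval i) ⊆ (z - z').roots.toFinset := by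
    intro i hi
    rw [Multiset.mem_toFinset, mem_roots h0, IsRoot.def, eval_sub]
    exact sub_eq_zero.2 (Finset.mem_filter.1 hi).2
  have h2 : (z - z').degree < m := lt_of_le_of_lt (degree_sub_le _ _) (max_lt hz hz')
  have h3 : (z - z').natDegree < m := (natDegree_lt_iff_degree_lt h0).2 h2
  calc _ ≤ (z - z').roots.toFinset.card := Finset.card_le_card h1
    _ ≤ Multiset.card (z - z').roots := Multiset.toFinset_card_le _
    _ ≤ (z - z').natDegree := card_roots' _
    _ ≤ m := h3.le

/-- Second moment: there are few points `(i, c, d)` at which no polynomial of `D` has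
`c * z(i) + d` in `A`. -/
theorem hit_count (D : Finset F[X]) (m : ℕ) (hm : ∀ z ∈ D, z.degree < m) (A : Finset F) :
    ((univ : Finset (F × F × F)).filter
      fun u => ∀ z ∈ D, u.2.1 * z.eval u.1 + u.2.2 ∉ A).card * (D.card * A.card) ≤
      Fintype.card F ^ 4 + m * Fintype.card F ^ 3 * D.card := by
  classical
  rcases Nat.eq_zero_or_pos (D.card * A.card) with h0 | hpos
  · rw [h0, Nat.mul_zero]; exact Nat.zero_le _
  set r : ℕ := Fintype.card F with hr
  set N := ((univ : Finset (F × F × F)).filter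
      fun u => ∀ z ∈ D, u.2.1 * z.eval u.1 + u.2.2 ∉ A).card with hN
  set w : ℤ := (D.card : ℤ) with hw
  set s : ℤ := (A.card : ℤ) with hs
  have hw0 : 0 ≤ w := by positivity
  have hs0 : 0 ≤ s := by positivity
  let Z : F × F × F → ℤ := fun u => ∑ z ∈ D, caInd A (u.2.1 * z.eval u.1 + u.2.2)
  have hone : ∀ z : F[X], ∑ u : F × F × F, caInd A (u.2.1 * z.eval u.1 + u.2.2)
      = r * (r * s) := by
    intro z
    have h1 := ca_sum_aff (caInd A) (fun i => z.eval i)
    rw [ca_sum_ind] at h1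
    exact h1
  have hZ1 : ∑ u, Z u = w * (r * (r * s)) := by
    simp only [Z]
    rw [Finset.sum_comm]
    simp only [hone, Finset.sum_const, nsmul_eq_mul]
    rfl
  have hZ2 : ∑ u, Z u ^ 2 ≤ w * (r * (r * s)) + w * w * (r * s ^ 2 + m * (r * s)) := by
    have h1 : ∀ u, Z u ^ 2 = ∑ z ∈ D, ∑ z' ∈ D,
        caInd A (u.2.1 * z.eval u.1 + u.2.2) * caInd A (u.2.1 * z'.eval u.1 + u.2.2) := by
      intro u; simp only [Z]; rw [sq, Finset.sum_mul_sum]
    simp only [h1]
    rw [Finset.sum_comm]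
    have h2 : ∀ z ∈ D, ∑ u : F × F × F, ∑ z' ∈ D,
        caInd A (u.2.1 * z.eval u.1 + u.2.2) * caInd A (u.2.1 * z'.eval u.1 + u.2.2)
        ≤ r * (r * s) + w * (r * s ^ 2 + m * (r * s)) := by
      intro z hz
      rw [Finset.sum_comm]
      have h3 : ∀ z' ∈ D, ∑ u : F × F × F,
          caInd A (u.2.1 * z.eval u.1 + u.2.2) * caInd A (u.2.1 * z'.eval u.1 + u.2.2)
          ≤ (if z' = z then r * (r * s) else 0) + (r * s ^ 2 + m * (r * s)) := by
        intro z' hz'
        by_cases h : z' = z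
        · subst h
          rw [if_pos rfl]
          have h4 : ∑ u : F × F × F,
              caInd A (u.2.1 * z'.eval u.1 + u.2.2) * caInd A (u.2.1 * z'.eval u.1 + u.2.2)
              = ∑ u : F × F × F, caInd A (u.2.1 * z'.eval u.1 + u.2.2) := by
            refine Finset.sum_congr rfl fun u _ => ?_
            unfold caInd; split_ifs <;> norm_num
          rw [h4, hone]
          have : 0 ≤ (r : ℤ) * s ^ 2 + m * (r * s) := by positivity
          linarith
        · rw [if_neg h, zero_add]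
          have h5 := ca_sum_aff_two_le (caInd A) (caInd_nonneg A) (caInd_le A)
            (fun i => z.eval i) (fun i => z'.eval i) m
            (ca_agree m z z' (hm z hz) (hm z' hz') (fun e => h e.symm))
          rw [ca_sum_ind] at h5
          exact h5
      refine (Finset.sum_le_sum h3).trans ?_
      rw [Finset.sum_add_distrib, Finset.sum_ite_eq' D z, if_pos hz, Finset.sum_const,
        nsmul_eq_mul]
    refine (Finset.sum_le_sum h2).trans ?_
    rw [Finset.sum_const, nsmul_eq_mul]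
    have : (D.card : ℤ) * (r * (r * s) + w * (r * s ^ 2 + m * (r * s)))
      = w * (r * (r * s)) + w * w * (r * s ^ 2 + m * (r * s)) := by rw [← hw]; ring
    rw [this]
  have hvar : (N : ℤ) * (w * s) ^ 2 ≤ ∑ u : F × F × F, (r * Z u - w * s) ^ 2 := by
    have h6 : ∑ u ∈ (univ : Finset (F × F × F)).filter
          (fun u => ∀ z ∈ D, u.2.1 * z.eval u.1 + u.2.2 ∉ A),
        (r * Z u - w * s) ^ 2 ≤ ∑ u : F × F × F, (r * Z u - w * s) ^ 2 :=
      Finset.sum_le_sum_of_subset_of_nonneg (Finset.subset_univ _)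
        (fun u _ _ => sq_nonneg _)
    have h7 : ∑ u ∈ (univ : Finset (F × F × F)).filter
          (fun u => ∀ z ∈ D, u.2.1 * z.eval u.1 + u.2.2 ∉ A),
        (r * Z u - w * s) ^ 2
        = ∑ u ∈ (univ : Finset (F × F × F)).filter
          (fun u => ∀ z ∈ D, u.2.1 * z.eval u.1 + u.2.2 ∉ A), (w * s) ^ 2 := by
      refine Finset.sum_congr rfl fun u hu => ?_
      have hu' := (Finset.mem_filter.1 hu).2
      have hz : Z u = 0 := by
        simp only [Z]
        refine Finset.sum_eq_zero fun z hz => ?_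
        unfold caInd; rw [if_neg (hu' z hz)]
      rw [hz]; ring
    rw [Finset.sum_const, nsmul_eq_mul] at h7
    calc (N : ℤ) * (w * s) ^ 2 = _ := h7.symm
      _ ≤ _ := h6
  have hexp : ∑ u : F × F × F, (r * Z u - w * s) ^ 2
      = r ^ 2 * ∑ u, Z u ^ 2 - w ^ 2 * s ^ 2 * r ^ 3 := by
    have h8 : ∀ u : F × F × F, (r * Z u - w * s) ^ 2
        = r ^ 2 * Z u ^ 2 - 2 * r * w * s * Z u + (w * s) ^ 2 := fun u => by ring
    simp only [h8]
    rw [Finset.sum_add_distrib, Finset.sum_sub_distrib, ← Finset.mul_sum, ← Finset.mul_sum,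
      hZ1, Finset.sum_const, Finset.card_univ, nsmul_eq_mul]
    have h9 : Fintype.card (F × F × F) = r ^ 3 := by
      simp only [Fintype.card_prod]; ring
    rw [h9]; push_cast; ring
  have hfin : (N : ℤ) * (w * s) ^ 2 ≤ (w * s) * (r ^ 4 + m * r ^ 3 * w) := by
    rw [hexp] at hvar
    have h10 : (r : ℤ) ^ 2 * ∑ u, Z u ^ 2
        ≤ r ^ 2 * (w * (r * (r * s)) + w * w * (r * s ^ 2 + m * (r * s))) :=
      mul_le_mul_of_nonneg_left hZ2 (by positivity)
    nlinarith
  have hws : 0 < w * s := by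
    have : (0 : ℤ) < ((D.card * A.card : ℕ) : ℤ) := by exact_mod_cast hpos
    push_cast at this; exact this
  have hres : (N : ℤ) * (w * s) ≤ r ^ 4 + m * r ^ 3 * w := by
    have h11 : (w * s) * ((N : ℤ) * (w * s)) ≤ (w * s) * (r ^ 4 + m * r ^ 3 * w) := by
      calc (w * s) * ((N : ℤ) * (w * s)) = (N : ℤ) * (w * s) ^ 2 := by ring
        _ ≤ _ := hfin
    exact le_of_mul_le_mul_left h11 hws
  have hcast : ((N * (D.card * A.card) : ℕ) : ℤ)
      ≤ ((r ^ 4 + m * r ^ 3 * D.card : ℕ) : ℤ) := by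
    push_cast; exact hres
  exact_mod_cast hcast

end Pool.Agent.W_d799b0_h82
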