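import Pool.Agent.W_d799b0_h82.NumA

/-!
# Symbols

PROOFS.  `link_snoc`: `chunk (2 e) j (B' ++ y)` is `chunk (2 e) j B'` for `j < σ.length` and is `y`
for `j = σ.length` (if `B'.length = 2 * e * σ.length`, `y.length = 2 * e`);
`List.zipIdx_append`.  `exists_link_snoc`: split `B''` with `take` and `drop` at
`2 * e * σ.length`.  `exists_sym`: the string `y` is `l ++ v` with `l, v` of length `e`
(`exists_val`).
-/

set_option autoImplicit false

namespace Pool.Agent.W_d799b0_h82

theorem LinkA_chunk_left (w j : ℕ) (A y : List Bool) (h : (j + 1) * w ≤ A.length) :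
    chunk w j (A ++ y) = chunk w j A := by
  unfold chunk
  have h1 : (j + 1) * w = j * w + w := by ring
  rw [h1] at h
  rw [List.drop_append_of_le_length (by omega)]
  rw [List.take_append_of_le_length]
  rw [List.length_drop]
  omega

theorem LinkA_chunk_right (w j : ℕ) (A y : List Bool) (h : A.length = j * w)
    (hy : y.length = w) : chunk w j (A ++ y) = y := by
  unfold chunk
  rw [List.drop_append, h, Nat.sub_self, List.drop_zero, List.drop_of_length_le (by omega),
    List.nil_append]
  exact List.take_of_length_le (by omega)

theorem link_length (e r : ℕ) (σ : List Seed) (B B' : List Bool) (h : link e r σ B B' = true) :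
    B'.length = 2 * e * σ.length := by
  unfold link at h
  rw [Bool.and_eq_true, decide_eq_true_eq] at h
  exact h.1

theorem LinkA_iff (e r : ℕ) (σ : List Seed) (B B' : List Bool) :
    link e r σ B B' = true ↔ B'.length = 2 * e * σ.length ∧
      ∀ (j : ℕ) (hj : j < σ.length), symOK e r (σ[j]) B (chunk (2 * e) j B') = true := by
  unfold link
  rw [Bool.and_eq_true, decide_eq_true_eq, List.all_eq_true]
  refine and_congr_right fun _ => ⟨fun h j hj => ?_, fun h p hp => ?_⟩
  · have := h (σ[j], j) (by
      rw [List.mem_zipIdx_iff_getElem?]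
      exact List.getElem?_eq_getElem hj)
    exact this
  · rw [List.mem_zipIdx_iff_getElem?] at hp
    obtain ⟨hj, he⟩ := List.getElem?_eq_some_iff.mp hp
    have := h p.2 hj
    rw [he] at this
    exact this

theorem link_get (e r : ℕ) (σ : List Seed) (B B' : List Bool) (h : link e r σ B B' = true)
    (j : ℕ) (hj : j < σ.length) : symOK e r (σ[j]) B (chunk (2 * e) j B') = true :=
  ((LinkA_iff e r σ B B').mp h).2 j hj

theorem link_snoc (e r : ℕ) (σ : List Seed) (s : Seed) (B B' y : List Bool)
    (hB : B'.length = 2 * e * σ.length) (hy : y.length = 2 * e) :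
    link e r (σ ++ [s]) B (B' ++ y) = (link e r σ B B' && symOK e r s B y) := by
  rw [Bool.eq_iff_iff, Bool.and_eq_true, LinkA_iff, LinkA_iff]
  have hlen : (B' ++ y).length = 2 * e * (σ ++ [s]).length := by
    rw [List.length_append, List.length_append, hB, hy, List.length_singleton]
    ring
  have hleft : ∀ j, j < σ.length → chunk (2 * e) j (B' ++ y) = chunk (2 * e) j B' := by
    intro j hj
    apply LinkA_chunk_left
    rw [hB]
    calc (j + 1) * (2 * e) ≤ σ.length * (2 * e) := Nat.mul_le_mul_right _ hj
      _ = 2 * e * σ.length := by ring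
  have hright : chunk (2 * e) σ.length (B' ++ y) = y := by
    apply LinkA_chunk_right
    · rw [hB]
      ring
    · exact hy
  constructor
  · rintro ⟨_, h⟩
    refine ⟨⟨hB, fun j hj => ?_⟩, ?_⟩
    · have := h j (by rw [List.length_append]; omega)
      rw [List.getElem_append_left hj, hleft j hj] at this
      exact this
    · have := h σ.length (by rw [List.length_append, List.length_singleton]; omega)
      rw [List.getElem_append_right (le_refl _), hright] at this
      simpa using this
  · rintro ⟨⟨_, h⟩, hs⟩
    refine ⟨hlen, fun j hj => ?_⟩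
    rw [List.length_append, List.length_singleton] at hj
    rcases Nat.lt_or_ge j σ.length with hj' | hj'
    · rw [List.getElem_append_left hj', hleft j hj']
      exact h j hj'
    · have hj2 : j = σ.length := by omega
      subst hj2
      rw [List.getElem_append_right (le_refl _), hright]
      simpa using hs

theorem exists_link_snoc (e r : ℕ) (σ : List Seed) (s : Seed) (B : List Bool) :
    (∃ B'', link e r (σ ++ [s]) B B'' = true) ↔
      (∃ B', link e r σ B B' = true) ∧ ∃ y : List Bool, y.length = 2 * e ∧
        symOK e r s B y = true := by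
  constructor
  · rintro ⟨B'', h⟩
    have hl := link_length _ _ _ _ _ h
    rw [List.length_append, List.length_singleton, Nat.mul_add, Nat.mul_one] at hl
    have h1 : (B''.take (2 * e * σ.length)).length = 2 * e * σ.length := by
      rw [List.length_take]
      omega
    have h2 : (B''.drop (2 * e * σ.length)).length = 2 * e := by
      rw [List.length_drop]
      omega
    have h3 := link_snoc e r σ s B _ _ h1 h2
    rw [List.take_append_drop, h] at h3
    have h4 := h3.symm
    rw [Bool.and_eq_true] at h4
    exact ⟨⟨_, h4.1⟩, _, h2, h4.2⟩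
  · rintro ⟨⟨B', h⟩, y, hy, hs⟩
    refine ⟨B' ++ y, ?_⟩
    rw [link_snoc e r σ s B B' y (link_length _ _ _ _ _ h) hy, h, hs]
    rfl

theorem exists_sym (e r : ℕ) (s : Seed) (B : List Bool) :
    (∃ y : List Bool, y.length = 2 * e ∧ symOK e r s B y = true) ↔
      ∃ l < 2 ^ e, (pC r s l * zB e r B (pI r s l) + pD r s l) % r < 2 ^ e := by
  constructor
  · rintro ⟨y, hy, h⟩
    unfold symOK at h
    rw [decide_eq_true_eq] at h
    have h1 := val_lt (y.take e)
    have h2 := val_lt (y.drop e)
    have e1 : (y.take e).length = e := by
      rw [List.length_take]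
      omega
    have e2 : (y.drop e).length = e := by
      rw [List.length_drop]
      omega
    rw [e1] at h1
    rw [e2] at h2
    exact ⟨val (y.take e), h1, by rw [h]; exact h2⟩
  · rintro ⟨l, hl, hv⟩
    obtain ⟨a, ha, hav⟩ := exists_val e l hl
    obtain ⟨b, hb, hbv⟩ := exists_val e _ hv
    refine ⟨a ++ b, ?_, ?_⟩
    · rw [List.length_append, ha, hb]
      ring
    · unfold symOK
      rw [decide_eq_true_eq]
      have e1 : (a ++ b).take e = a := by
        rw [← ha]
        exact List.take_left
      have e2 : (a ++ b).drop e = b := by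
        rw [← ha]
        exact List.drop_left
      rw [e1, e2, hav, hbv]

end Pool.Agent.W_d799b0_h82
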