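import Pool.Agent.W_d799b0_h82.NumA

/-!
# The polynomials of a bit string

PROOFS.  If `B.length = 4 * e * m` then the block `j` has length `4 e` for `j < m` and is empty for
`m ≤ j`, and `m ≤ B.length` as `0 < e`; so the list of coefficients in `zB` is the list of the `m`
values of the blocks followed by zeros (`polyL_append_zeros`), which gives the degree.  The values
are `< 2 ^ (4 e) < r`; by `polyL_inj` the polynomial determines the values, hence (`val_inj`) the
blocks, hence `B` (a list of length `4 e m` is determined by its blocks).
-/

set_option autoImplicit false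

open Polynomial

namespace Pool.Agent.W_d799b0_h82

/-- The polynomial with the blocks of `B` as coefficients. -/
noncomputable def zP (e r : ℕ) (B : List Bool) : (ZMod r)[X] :=
  polyL r ((List.range B.length).map fun j => val (chunk (4 * e) j B))

/-- The polynomial with the bits of `B` as coefficients. -/
noncomputable def bP (r : ℕ) (B : List Bool) : (ZMod r)[X] := polyL r (B.map Bool.toNat)

theorem zB_cast (e r : ℕ) (B : List Bool) (i : ℕ) :
    ((zB e r B i : ℕ) : ZMod r) = (zP e r B).eval (i : ZMod r) := ev_cast _ _ _

theorem bB_cast (r : ℕ) (B : List Bool) (i : ℕ) :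
    ((bB r B i : ℕ) : ZMod r) = (bP r B).eval (i : ZMod r) := ev_cast _ _ _

private theorem NumB_chunk_nil (w j m : ℕ) (B : List Bool) (hB : B.length = w * m) (h : m ≤ j) :
    chunk w j B = [] := by
  unfold chunk
  have h1 : B.drop (j * w) = [] := by
    apply List.drop_eq_nil_of_le
    rw [hB, Nat.mul_comm]
    exact Nat.mul_le_mul_right w h
  rw [h1, List.take_nil]

private theorem NumB_zP_eq (e r m : ℕ) (he : 0 < e) (B : List Bool)
    (hB : B.length = 4 * e * m) :
    zP e r B = polyL r ((List.range m).map fun j => val (chunk (4 * e) j B)) := by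
  unfold zP
  have hm : m ≤ B.length := by
    rw [hB]
    calc m = 1 * m := (one_mul m).symm
      _ ≤ 4 * e * m := Nat.mul_le_mul_right m (by omega)
  obtain ⟨k, hk⟩ := Nat.exists_eq_add_of_le hm
  have h2 : (List.range B.length).map (fun j => val (chunk (4 * e) j B))
      = (List.range m).map (fun j => val (chunk (4 * e) j B)) ++ List.replicate k 0 := by
    rw [hk, List.range_add, List.map_append]
    congr 1
    rw [List.map_map]
    apply List.eq_replicate_iff.mpr
    refine ⟨by simp, ?_⟩
    intro b hb
    obtain ⟨j, _, rfl⟩ := List.mem_map.mp hb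
    simp only [Function.comp]
    rw [NumB_chunk_nil (4 * e) (m + j) m B hB (by omega)]
    rfl
  rw [h2, polyL_append_zeros]

theorem zP_degree (e r m : ℕ) [Fact r.Prime] (he : 0 < e) (B : List Bool)
    (hB : B.length = 4 * e * m) : (zP e r B).degree < m := by
  rw [NumB_zP_eq e r m he B hB]
  have h := polyL_degree r ((List.range m).map fun j => val (chunk (4 * e) j B))
  simpa using h

private theorem NumB_chunk_length (w j m : ℕ) (B : List Bool) (hB : B.length = w * m)
    (h : j < m) : (chunk w j B).length = w := by
  unfold chunk
  rw [List.length_take, List.length_drop, hB]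
  have h1 : w + j * w ≤ w * m := by
    calc w + j * w = w * (j + 1) := by ring
      _ ≤ w * m := Nat.mul_le_mul_left w h
  omega

private theorem NumB_blocks (w m : ℕ) : ∀ B B' : List Bool, B.length = w * m →
    B'.length = w * m → (∀ j < m, chunk w j B = chunk w j B') → B = B' := by
  induction m with
  | zero =>
    intro B B' hB hB' _
    have h1 : B = [] := List.length_eq_zero_iff.mp (by simpa using hB)
    have h2 : B' = [] := List.length_eq_zero_iff.mp (by simpa using hB')
    rw [h1, h2]
  | succ m ih =>
    intro B B' hB hB' h
    have h0 := h 0 (by omega)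
    simp only [chunk, Nat.zero_mul, List.drop_zero] at h0
    have hd : B.drop w = B'.drop w := by
      apply ih
      · rw [List.length_drop, hB, Nat.mul_succ]; omega
      · rw [List.length_drop, hB', Nat.mul_succ]; omega
      · intro j hj
        have h1 := h (j + 1) (by omega)
        have e1 : (j + 1) * w = w + j * w := by ring
        simp only [chunk, e1] at h1
        simp only [chunk, List.drop_drop]
        exact h1
    rw [← List.take_append_drop w B, ← List.take_append_drop w B', h0, hd]

theorem zP_inj (e r m : ℕ) [Fact r.Prime] (he : 0 < e) (hr : 2 ^ (4 * e) < r) (B B' : List Bool)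
    (hB : B.length = 4 * e * m) (hB' : B'.length = 4 * e * m) (h : zP e r B = zP e r B') :
    B = B' := by
  rw [NumB_zP_eq e r m he B hB, NumB_zP_eq e r m he B' hB'] at h
  have hlt : ∀ (A : List Bool) (j : ℕ), val (chunk (4 * e) j A) < r := by
    intro A j
    have h1 := val_lt (chunk (4 * e) j A)
    have h2 : (chunk (4 * e) j A).length ≤ 4 * e := by
      unfold chunk
      exact List.length_take_le _ _
    have h3 : 2 ^ (chunk (4 * e) j A).length ≤ 2 ^ (4 * e) :=
      Nat.pow_le_pow_right (by norm_num) h2
    omega
  have hl := polyL_inj r _ _ (by simp) (by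
      intro a ha
      obtain ⟨j, _, rfl⟩ := List.mem_map.mp ha
      exact hlt B j) (by
      intro a ha
      obtain ⟨j, _, rfl⟩ := List.mem_map.mp ha
      exact hlt B' j) h
  apply NumB_blocks (4 * e) m B B' hB hB'
  intro j hj
  have hv : val (chunk (4 * e) j B) = val (chunk (4 * e) j B') :=
    List.map_inj_left.mp hl j (List.mem_range.mpr hj)
  exact val_inj _ _ (by
    rw [NumB_chunk_length (4 * e) j m B hB hj, NumB_chunk_length (4 * e) j m B' hB' hj]) hv

theorem bP_degree (r : ℕ) [Fact r.Prime] (B : List Bool) : (bP r B).degree < B.length := by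
  have h := polyL_degree r (B.map Bool.toNat)
  rw [List.length_map] at h
  exact h

theorem bP_inj (r : ℕ) [Fact r.Prime] (B B' : List Bool) (hB : B.length = B'.length)
    (h : bP r B = bP r B') : B = B' := by
  have hr : 2 ≤ r := (Fact.out : r.Prime).two_le
  have hlt : ∀ (A : List Bool), ∀ a ∈ A.map Bool.toNat, a < r := by
    intro A a ha
    obtain ⟨b, _, rfl⟩ := List.mem_map.mp ha
    have := Bool.toNat_lt b
    omega
  have hl := polyL_inj r _ _ (by simpa using hB) (hlt B) (hlt B') h
  have hinj : Function.Injective Bool.toNat := by
    intro a b hab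
    cases a <;> cases b <;> simp_all
  exact List.map_injective_iff.mpr hinj hl

end Pool.Agent.W_d799b0_h82
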