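import Pool.Agent.W_d799b0_h82.Defs

/-!
# Labels: lists of at most `k` strings of a finite set

`lists_card`: induction on `k`: `R (k + 1) = {[]} ∪ {a :: l | a ∈ A, l ∈ R k}` has at most
`1 + |A| (|A| + 1) ^ k ≤ (|A| + 1) ^ (k + 1)` elements.
`exists_labels`: the set `{y | y ∈ S ∧ y.length ≤ n}` is finite (`List.finite_length_le`).
-/

set_option autoImplicit false

namespace Pool.Agent.W_d799b0_h82

theorem lists_card {α : Type} [DecidableEq α] (A : Finset α) (k : ℕ) :
    ∃ R : Finset (List α), R.card ≤ (A.card + 1) ^ k ∧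
      ∀ Y : List α, Y ∈ R ↔ Y.length ≤ k ∧ ∀ y ∈ Y, y ∈ A := by
  induction k with
  | zero =>
    refine ⟨{[]}, by simp, fun Y => ?_⟩
    rw [Finset.mem_singleton]
    constructor
    · rintro rfl
      simp
    · rintro ⟨h, _⟩
      exact List.length_eq_zero_iff.1 (Nat.le_zero.1 h)
  | succ k ih =>
    obtain ⟨R, hR1, hR2⟩ := ih
    refine ⟨insert [] ((A ×ˢ R).image fun p => p.1 :: p.2), ?_, fun Y => ?_⟩
    · refine (Finset.card_insert_le _ _).trans ?_
      have h1 : ((A ×ˢ R).image fun p => p.1 :: p.2).card ≤ A.card * R.card :=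
        Finset.card_image_le.trans (Finset.card_product A R).le
      have h2 : A.card * R.card ≤ A.card * (A.card + 1) ^ k := Nat.mul_le_mul_left _ hR1
      have h3 : 1 ≤ (A.card + 1) ^ k := Nat.one_le_pow _ _ (Nat.succ_pos _)
      calc ((A ×ˢ R).image fun p => p.1 :: p.2).card + 1 ≤ A.card * (A.card + 1) ^ k + (A.card + 1) ^ k := by
            omega
        _ = (A.card + 1) ^ (k + 1) := by ring
    · rw [Finset.mem_insert, Finset.mem_image]
      constructor
      · rintro (rfl | ⟨⟨a, l⟩, h, rfl⟩)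
        · simp
        · rw [Finset.mem_product] at h
          obtain ⟨h1, h2⟩ := (hR2 l).1 h.2
          refine ⟨by simpa using h1, fun y hy => ?_⟩
          rcases List.mem_cons.1 hy with rfl | hy
          · exact h.1
          · exact h2 y hy
      · rintro ⟨h1, h2⟩
        match Y, h1, h2 with
        | [], _, _ => exact Or.inl rfl
        | a :: l, h1, h2 =>
          right
          refine ⟨(a, l), ?_, rfl⟩
          rw [Finset.mem_product]
          exact ⟨h2 a List.mem_cons_self, (hR2 l).2 ⟨by simpa using h1,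
            fun y hy => h2 y (List.mem_cons_of_mem _ hy)⟩⟩

theorem exists_labels (S : Set (List Bool)) (k n c : ℕ)
    (h : {y | y ∈ S ∧ y.length ≤ n}.ncard ≤ c) :
    ∃ R : Finset (List (List Bool)), R.card ≤ (c + 1) ^ k ∧
      (∀ Y ∈ R, ∀ y ∈ Y, y ∈ S) ∧
      ∀ Y : List (List Bool), Y.length ≤ k → (∀ y ∈ Y, y.length ≤ n) → (∀ y ∈ Y, y ∈ S) →
        Y ∈ R := by
  have hfin : {y | y ∈ S ∧ y.length ≤ n}.Finite := (List.finite_length_le Bool n).subset fun y hy => hy.2
  obtain ⟨R, hR1, hR2⟩ := lists_card hfin.toFinset k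
  rw [Set.ncard_eq_toFinset_card _ hfin] at h
  refine ⟨R, hR1.trans (Nat.pow_le_pow_left (Nat.succ_le_succ h) k), ?_, ?_⟩
  · intro Y hY y hy
    have h1 := ((hR2 Y).1 hY).2 y hy
    rw [Set.Finite.mem_toFinset] at h1
    exact h1.1
  · intro Y h1 h2 h3
    refine (hR2 Y).2 ⟨h1, fun y hy => ?_⟩
    rw [Set.Finite.mem_toFinset]
    exact ⟨h3 y hy, h2 y hy⟩

end Pool.Agent.W_d799b0_h82
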