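import Pool.Agent.W_d799b0_h82.Uniq

/-!
# Chains and witnesses

PROOFS.  `ch_iff`: induction on `ph`.  `theta_iff_D0` is `ch_iff` with the plain tests moved.
`D0_ncard_le`: choose for every `B0 ∈ D0 V E (σ :: ph)` a string `B` with `Reach ph B0 B` and
`link σ B B'`; then `B ∈ DD V E ph σ` (by `ch_iff`), and the choice is injective by
`reach_unique`.  `DD` is finite because its elements have the length `2 e k` (`reach_length`).
`D0_ncard_le_pow`: the same with `B` itself, which is one of the `2 ^ (2 e k)` strings of length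
`2 e k` (with `k = 1` in the application).
-/

set_option autoImplicit false

namespace Pool.Agent.W_d799b0_h82

theorem ch_iff (V : List Bool → List Bool → Bool) (H : Hd) (T : List Test)
    (ph : List (List Seed)) (B : List Bool) :
    Ch V H T ph B ↔ ∃ B0 : List Bool, B0.length = H.2.2.1 ∧ V H.1 B0 = true ∧
      (∀ τ ∈ T, testOK H.2.2.2.n τ B0 = true) ∧ Reach H.2.1 H.2.2.2.n ph B0 B := by
  induction ph generalizing B with
  | nil =>
    constructor
    · rintro ⟨h1, h2, h3⟩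
      exact ⟨B, h1, h2, h3, rfl⟩
    · rintro ⟨B0, h1, h2, h3, h4⟩
      have h5 : B = B0 := h4
      subst h5
      exact ⟨h1, h2, h3⟩
  | cons σ ph ih =>
    constructor
    · rintro ⟨B1, h1, h2⟩
      obtain ⟨B0, a, b, c, d⟩ := (ih B1).1 h1
      exact ⟨B0, a, b, c, B1, d, h2⟩
    · rintro ⟨B0, a, b, c, B1, h1, h2⟩
      exact ⟨B1, (ih B1).2 ⟨B0, a, b, c, h1⟩, h2⟩

theorem theta_iff_D0 (V : List Bool → List Bool → Bool) (E : Env) (T : List Test)
    (ph : List (List Seed)) :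
    Theta V (hdE E, (T, ph)) ↔ ∃ B0 ∈ D0 V E ph, ∀ τ ∈ T, testOK (eR E) τ B0 = true := by
  constructor
  · rintro ⟨B, hB⟩
    obtain ⟨B0, a, b, c, d⟩ := (ch_iff V (hdE E) T ph B).1 hB
    exact ⟨B0, ⟨a, b, B, d⟩, c⟩
  · rintro ⟨B0, ⟨a, b, B, d⟩, c⟩
    exact ⟨B, (ch_iff V (hdE E) T ph B).2 ⟨B0, a, b, c, d⟩⟩

theorem DD_finite (V : List Bool → List Bool → Bool) (E : Env) (hP : Params E) (k : ℕ)
    (ph : List (List Seed)) (hI : PInv E k ph) (σ : List Seed) : (DD V E ph σ).Finite := by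
  refine (List.finite_length_eq Bool (2 * eE E * k)).subset ?_
  rintro B ⟨hB, -⟩
  obtain ⟨B0, a, b, c, d⟩ := (ch_iff V (hdE E) [] ph B).1 hB
  refine reach_length (eE E) (eR E) (eM E) k ph hI.lens B0 B ?_ d
  rw [← hP.n_eq]
  exact a

theorem D0_ncard_le (V : List Bool → List Bool → Bool) (E : Env) (hP : Params E) (k : ℕ)
    (ph : List (List Seed)) (hI : PInv E k ph) (σ : List Seed) :
    (D0 V E (σ :: ph)).ncard ≤ (DD V E ph σ).ncard := by
  classical
  have key : ∀ B0 ∈ D0 V E (σ :: ph), ∃ B, Reach (eE E) (eR E) ph B0 B ∧ B ∈ DD V E ph σ := by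
    rintro B0 ⟨a, b, B', B, hB, hl⟩
    exact ⟨B, hB, (ch_iff V (hdE E) [] ph B).2 ⟨B0, a, b, by simp, hB⟩, B', hl⟩
  choose! f hf1 hf2 using key
  refine Set.ncard_le_ncard_of_injOn f hf2 ?_ (DD_finite V E hP k ph hI σ)
  intro B0 hB0 C0 hC0 hfe
  have h1 := hf1 B0 hB0
  have h2 := hf1 C0 hC0
  rw [← hfe] at h2
  refine reach_unique (eE E) (eR E) (eM E) k hP.prime hP.pos_e hP.lt_r ph hI.lens ?_ B0 C0
    (f B0) ?_ ?_ h1 h2
  · intro τ hτ
    rw [← hP.w_eq]
    exact hI.ok τ hτ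
  · rw [← hP.n_eq]
    exact hB0.1
  · rw [← hP.n_eq]
    exact hC0.1

theorem D0_ncard_le_pow (V : List Bool → List Bool → Bool) (E : Env) (hP : Params E) (k : ℕ)
    (ph : List (List Seed)) (hI : PInv E k ph) :
    (D0 V E ph).ncard ≤ 2 ^ (2 * eE E * k) := by
  classical
  have key : ∀ B0 ∈ D0 V E ph, ∃ B, Reach (eE E) (eR E) ph B0 B := by
    rintro B0 ⟨a, b, B, hB⟩
    exact ⟨B, hB⟩
  choose! f hf1 using key
  have hfin := List.finite_length_eq Bool (2 * eE E * k)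
  have hcard : {l : List Bool | l.length = 2 * eE E * k}.ncard = 2 ^ (2 * eE E * k) := by
    rw [← Nat.card_coe_set_eq]
    have h1 : Nat.card (List.Vector Bool (2 * eE E * k)) = 2 ^ (2 * eE E * k) := by
      rw [Nat.card_eq_fintype_card, card_vector]
      simp
    exact h1
  rw [← hcard]
  refine Set.ncard_le_ncard_of_injOn f ?_ ?_ hfin
  · intro B0 hB0
    refine reach_length (eE E) (eR E) (eM E) k ph hI.lens B0 _ ?_ (hf1 B0 hB0)
    rw [← hP.n_eq]
    exact hB0.1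
  · intro B0 hB0 C0 hC0 hfe
    have h1 := hf1 B0 hB0
    have h2 := hf1 C0 hC0
    rw [← hfe] at h2
    refine reach_unique (eE E) (eR E) (eM E) k hP.prime hP.pos_e hP.lt_r ph hI.lens ?_ B0 C0
      (f B0) ?_ ?_ h1 h2
    · intro τ hτ
      rw [← hP.w_eq]
      exact hI.ok τ hτ
    · rw [← hP.n_eq]
      exact hB0.1
    · rw [← hP.n_eq]
      exact hC0.1

/-- The witnesses are there iff the strings are there. -/
theorem D0_nonempty_iff (V : List Bool → List Bool → Bool) (E : Env)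
    (ph : List (List Seed)) (σ : List Seed) :
    (D0 V E (σ :: ph)).Nonempty ↔ (DD V E ph σ).Nonempty := by
  constructor
  · rintro ⟨B0, a, b, B', B, hB, hl⟩
    exact ⟨B, (ch_iff V (hdE E) [] ph B).2 ⟨B0, a, b, by simp, hB⟩, B', hl⟩
  · rintro ⟨B, hB, B', hl⟩
    obtain ⟨B0, a, b, c, d⟩ := (ch_iff V (hdE E) [] ph B).1 hB
    exact ⟨B0, a, b, B', B, d, hl⟩

end Pool.Agent.W_d799b0_h82
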