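import Pool.Agent.W_d799b0_h82.CountA
import Pool.Agent.W_d799b0_h82.ChA
import Pool.Agent.W_d799b0_h82.UsedA

/-!
# The large case: most tests hold

PROOF OF `theta_instL`: `Theta` of the instance says that there are `B`, `B''` with
`Ch V (hdE E) [] ph B` and `link (σ ++ [(u, zpt)]) B B''`; by `exists_link_snoc` and `exists_sym`
this means `B ∈ DD V E ph σ` and `c z_B(i) + d mod r < 2 ^ e` (the `l`-th point of the seed
`(u, zpt)` is `u` itself, as the coordinates are `< r`).
PROOF OF `few_bad`.  Let `F = ZMod r`.  All `B ∈ DD V E ph σ` have length `2 e (2 m) = 4 e m`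
(`reach_length`, `ch_iff`), so `B ↦ z_B` is injective into the polynomials of degree `< m`
(`zP_inj`, `zP_degree`).  Choose a finite subset of `DD V E ph σ` with `w0 E` elements and let `D`
be its image, with `w0 E` elements.  Let `A` be the image of `{0, .., w - 1}` in `F` (`w` elements,
`Params.w_lt_r`).  Let `Bad` be the set of the points `u` of `F^3` such that no `z ∈ D` has
`c z(i) + d ∈ A`.  `hit_count` and `Params.hit_arith` (`m ≤ n'`) give `4 K card Bad ≤ r ^ 3`; if
`u ∉ Bad` then some `B` satisfies `c z_B(i) + d mod r < w` (`zB_cast`, numbers `< r`), and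
`theta_instL` applies.
-/

set_option autoImplicit false

namespace Pool.Agent.W_d799b0_h82

theorem theta_instL (V : List Bool → List Bool → Bool) (E : Env) (ph : List (List Seed))
    (σ : List Seed) (u : Pt) (hu : PtLt (eR E) u) :
    Theta V (instL E ph σ u) ↔ ∃ B ∈ DD V E ph σ,
      (u.2.1.n * zB (eE E) (eR E) B u.1.n + u.2.2.n) % eR E < 2 ^ eE E := by
  have hI : ∀ l, pI (eR E) (u, zpt) l = u.1.n := by
    intro l
    simp only [pI, zpt, Nat.zero_mul, Nat.add_zero]
    exact Nat.mod_eq_of_lt hu.1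
  have hC : ∀ l, pC (eR E) (u, zpt) l = u.2.1.n := by
    intro l
    simp only [pC, zpt, Nat.zero_mul, Nat.add_zero]
    exact Nat.mod_eq_of_lt hu.2.1
  have hDd : ∀ l, pD (eR E) (u, zpt) l = u.2.2.n := by
    intro l
    simp only [pD, zpt, Nat.zero_mul, Nat.add_zero]
    exact Nat.mod_eq_of_lt hu.2.2
  constructor
  · rintro ⟨B'', B, hB, hl⟩
    have h1 := (exists_link_snoc (eE E) (eR E) σ (u, zpt) B).1 ⟨B'', hl⟩
    obtain ⟨⟨B', hB'⟩, h2⟩ := h1
    obtain ⟨l, -, h3⟩ := (exists_sym (eE E) (eR E) (u, zpt) B).1 h2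
    rw [hI, hC, hDd] at h3
    exact ⟨B, ⟨hB, B', hB'⟩, h3⟩
  · rintro ⟨B, ⟨hB, B', hB'⟩, h3⟩
    have h2 : ∃ y : List Bool, y.length = 2 * eE E ∧ symOK (eE E) (eR E) (u, zpt) B y = true := by
      refine (exists_sym (eE E) (eR E) (u, zpt) B).2 ⟨0, by positivity, ?_⟩
      rw [hI, hC, hDd]
      exact h3
    obtain ⟨B'', hl⟩ := (exists_link_snoc (eE E) (eR E) σ (u, zpt) B).2 ⟨⟨B', hB'⟩, h2⟩
    exact ⟨B'', B, hB, hl⟩

/-- Few points are bad. -/
theorem few_bad (V : List Bool → List Bool → Bool) (E : Env) (hP : Params E)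
    (ph : List (List Seed)) (σ : List Seed) (m : ℕ) (h : SInv E ph σ m)
    (hD : w0 E ≤ (DD V E ph σ).ncard) :
    ∃ Bad : Finset (ZMod (eR E) × ZMod (eR E) × ZMod (eR E)),
      4 * eK E * Bad.card ≤ eR E ^ 3 ∧
      ∀ u : ZMod (eR E) × ZMod (eR E) × ZMod (eR E), u ∉ Bad →
        Theta V (instL E ph σ (toPt u)) := by
  classical
  have : Fact (eR E).Prime := ⟨hP.prime⟩
  have hfin : (DD V E ph σ).Finite := DD_finite V E hP (2 * m) ph h.inv σ
  obtain ⟨t, hts, htc⟩ := Set.exists_subset_card_eq hD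
  have htf : t.Finite := hfin.subset hts
  have hlen : ∀ B ∈ DD V E ph σ, B.length = 4 * eE E * m := by
    rintro B ⟨hB, -⟩
    obtain ⟨B0, a, b, c, d⟩ := (ch_iff V (hdE E) [] ph B).1 hB
    have h1 := reach_length (eE E) (eR E) (eM E) (2 * m) ph h.inv.lens B0 B
      (by rw [← hP.n_eq]; exact a) d
    rw [h1]; ring
  set T : Finset (List Bool) := htf.toFinset with hT
  have hTm : ∀ B, B ∈ T ↔ B ∈ t := by
    intro B
    rw [hT]
    exact htf.mem_toFinset
  have hTc : T.card = w0 E := by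
    rw [← htc, hT]
    exact (Set.ncard_eq_toFinset_card t htf).symm
  set D : Finset (Polynomial (ZMod (eR E))) := T.image (zP (eE E) (eR E)) with hDdef
  have hDc : D.card = w0 E := by
    rw [hDdef, Finset.card_image_of_injOn, hTc]
    intro B hB C hC hBC
    exact zP_inj (eE E) (eR E) m hP.pos_e hP.lt_r B C
      (hlen B (hts ((hTm B).1 hB))) (hlen C (hts ((hTm C).1 hC))) hBC
  have hdeg : ∀ z ∈ D, z.degree < m := by
    intro z hz
    obtain ⟨B, hB, rfl⟩ := Finset.mem_image.1 hz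
    exact zP_degree (eE E) (eR E) m hP.pos_e B (hlen B (hts ((hTm B).1 hB)))
  set A : Finset (ZMod (eR E)) := (Finset.range (eW E)).image (fun n : ℕ => (n : ZMod (eR E)))
    with hA
  have hAc : A.card = eW E := by
    rw [hA, Finset.card_image_of_injOn, Finset.card_range]
    intro a ha b hb hab
    have ha' : a < eW E := Finset.mem_range.1 ha
    have hb' : b < eW E := Finset.mem_range.1 hb
    have h1 := (ZMod.natCast_eq_natCast_iff' a b (eR E)).1 hab
    rwa [Nat.mod_eq_of_lt (ha'.trans hP.w_lt_r), Nat.mod_eq_of_lt (hb'.trans hP.w_lt_r)] at h1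
  have hcount := hit_count D m hdeg A
  rw [hDc, hAc, ZMod.card] at hcount
  have hm : m ≤ eN E := by
    have h1 := lens_length (eM E) (2 * m) ph h.inv.lens
    have h2 : 1 ≤ 2 ^ ph.length := Nat.one_le_two_pow
    have h3 : m ≤ eM E := by nlinarith
    have h4 : eM E ≤ eN E := by
      rw [hP.n_eq]
      have := hP.pos_e
      nlinarith [Nat.zero_le (eM E)]
    exact h3.trans h4
  refine ⟨_, hP.hit_arith m _ hm hcount, ?_⟩
  intro u hu
  rw [Finset.mem_filter] at hu
  have hu2 : ∃ z ∈ D, u.2.1 * z.eval u.1 + u.2.2 ∈ A := by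
    by_contra hcon
    apply hu
    refine ⟨Finset.mem_univ _, ?_⟩
    intro z hz hzA
    exact hcon ⟨z, hz, hzA⟩
  obtain ⟨z, hz, hzA⟩ := hu2
  obtain ⟨B, hB, rfl⟩ := Finset.mem_image.1 hz
  obtain ⟨a, ha, haz⟩ := Finset.mem_image.1 hzA
  have ha' : a < eW E := Finset.mem_range.1 ha
  refine (theta_instL V E ph σ (toPt u) (toPt_lt (eR E) u)).2 ⟨B, hts ((hTm B).1 hB), ?_⟩
  have hcast : (((toPt u).2.1.n * zB (eE E) (eR E) B (toPt u).1.n + (toPt u).2.2.n : ℕ) :
      ZMod (eR E)) = (a : ZMod (eR E)) := by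
    rw [haz]
    simp only [toPt]
    push_cast
    rw [zB_cast]
    simp only [ZMod.natCast_zmod_val]
  have h1 := (ZMod.natCast_eq_natCast_iff' _ _ (eR E)).1 hcast
  rw [h1, Nat.mod_eq_of_lt (ha'.trans hP.w_lt_r), ← hP.w_eq]
  exact ha'

end Pool.Agent.W_d799b0_h82
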