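import Pool.Agent.W_d799b0_h82.CountB3
import Pool.Agent.W_d799b0_h82.HqA
import Pool.Agent.W_d799b0_h82.UsedA

/-!
# The algorithm always finds a seed

PROOF (Claim 2).  `F = ZMod r`, `L` = image of `{0, .., w - 1}` (`w` elements, as `w < r`), `U` =
the set of all evaluation points `pI r s' l'`, `s' ∈ σ`, `l' < w`, in `F`: at most
`σ.length * w ≤ M w` elements (`σ.length < m ≤ M`), `Lab` = all labels of queries in
`allQ g E ph σ`, `h Y u = hq (g (instL E ph σ (toPt u))) Y`.  The hypothesis `hsq` of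
`exists_seed` is `sum_sq_hq_le` and `Red.len` (`used_instL`, `toPt_lt`), the others are
`Params.w_large`, `Params.coll`, `Params.eight_w`.  For the seed `s` obtained, `toSeed s ∈ seeds r`
(`mem_seeds`), `distOK` holds (casts of numbers `< r`), and `accOK` holds by `accOK_iff`:
`hq (allQ ..) Y = ∑ u, h Y u` (`hq_flatMap`, `sum_pts`) and
`hq (smpQ ..) Y = ∑ l ∈ L, h Y (s.1 + l • s.2)` (`hq_flatMap`, `pt_toSeed`).  So the filtered list
in `pickSeed` is not empty and its head satisfies `goodSeed`.
-/

set_option autoImplicit false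

namespace Pool.Agent.W_d799b0_h82

private theorem SeedEx_sum_range (w : ℕ) (f : ℕ → ℤ) :
    ((List.range w).map f).sum = ∑ l ∈ Finset.range w, f l := by
  rw [Finset.sum_eq_multiset_sum]; rfl

private theorem SeedEx_inj (r w : ℕ) [NeZero r] (h : w < r) :
    Set.InjOn (fun l : ℕ => (l : ZMod r)) (Finset.range w : Set ℕ) := by
  intro a ha b hb hab
  simp only [Finset.coe_range, Set.mem_Iio] at ha hb
  have := congrArg ZMod.val hab
  simp only at this
  rwa [ZMod.val_natCast_of_lt (ha.trans h), ZMod.val_natCast_of_lt (hb.trans h)] at this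

private theorem SeedEx_exists (V : List Bool → List Bool → Bool) (g : Inst → List Query) (E : Env)
    (S : Set (List Bool)) (R : Finset (List (List Bool))) (hP : Params E)
    (hR : Red V g E S R) (ph : List (List Seed)) (σ : List Seed) (m : ℕ) (h : SInv E ph σ m) :
    ∃ s ∈ seeds (eR E), goodSeed g E ph σ s = true := by
  classical
  have : Fact (eR E).Prime := ⟨hP.prime⟩
  have : NeZero (eR E) := ⟨hP.prime.ne_zero⟩
  have hinj := SeedEx_inj (eR E) (eW E) hP.w_lt_r
  let L : Finset (ZMod (eR E)) := (Finset.range (eW E)).image (fun l : ℕ => (l : ZMod (eR E)))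
  let U : Finset (ZMod (eR E)) := (σ.toFinset ×ˢ Finset.range (eW E)).image
    (fun p => ((pI (eR E) p.1 p.2 : ℕ) : ZMod (eR E)))
  let Lab : Finset (List (List Bool)) := ((allQ g E ph σ).map Prod.snd).toFinset
  let hh : List (List Bool) → ZMod (eR E) × ZMod (eR E) × ZMod (eR E) → ℤ :=
    fun Y u => hq (g (instL E ph σ (toPt u))) Y
  have hLc : L.card = eW E := by
    rw [Finset.card_image_of_injOn hinj, Finset.card_range]
  have hσ : σ.length ≤ eM E := by
    have h1 := lens_length _ _ _ h.inv.lens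
    have h2 := h.lt
    have h3 : 1 ≤ 2 ^ ph.length := Nat.one_le_two_pow
    have h4 : 2 * m * 1 ≤ 2 * m * 2 ^ ph.length := Nat.mul_le_mul_left _ h3
    omega
  have hUc : U.card ≤ eM E * eW E := by
    refine Finset.card_image_le.trans ?_
    rw [Finset.card_product, Finset.card_range]
    exact Nat.mul_le_mul_right _ ((List.toFinset_card_le σ).trans hσ)
  have hcard : Fintype.card (ZMod (eR E)) = eR E := ZMod.card _
  have hsq : ∀ u, ∑ Y ∈ Lab, hh Y u ^ 2 ≤ (eK E : ℤ) ^ 2 := by
    intro u
    refine (sum_sq_hq_le _ _).trans ?_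
    have h1 := hR.len _ (used_instL E hP ph σ m h (toPt u) (toPt_lt _ u))
    have h2 : ((g (instL E ph σ (toPt u))).length : ℤ) ≤ (eK E : ℤ) := by exact_mod_cast h1
    have h3 : (0 : ℤ) ≤ ((g (instL E ph σ (toPt u))).length : ℤ) := by positivity
    exact pow_le_pow_left₀ h3 h2 2
  obtain ⟨s, h1, h2, h3⟩ := exists_seed Lab hh L U (eK E) hP.pos_K hsq
    (by rw [hLc]; exact hP.w_large)
    (by
      rw [hLc, hcard]
      exact (Nat.mul_le_mul_left _ hUc).trans hP.coll)
    (by rw [hLc, hcard]; exact hP.eight_w)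
  refine ⟨toSeed s, (mem_seeds _ _).2 ⟨toPt_lt _ _, toPt_lt _ _⟩, ?_⟩
  have hpt := fun l => pt_toSeed (eR E) s l
  have hpI : ∀ l : ℕ, pI (eR E) (toSeed s) l = (s.1.1 + (l : ZMod (eR E)) * s.2.1).val := by
    intro l
    have := congrArg (fun u : Pt => u.1.n) (hpt l)
    simpa [pt, toPt] using this
  have hpC : ∀ l : ℕ, pC (eR E) (toSeed s) l = (s.1.2.1 + (l : ZMod (eR E)) * s.2.2.1).val := by
    intro l
    have := congrArg (fun u : Pt => u.2.1.n) (hpt l)
    simpa [pt, toPt] using this
  have hmemL : ∀ l < eW E, ((l : ℕ) : ZMod (eR E)) ∈ L := by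
    intro l hl
    exact Finset.mem_image.2 ⟨l, Finset.mem_range.2 hl, rfl⟩
  unfold goodSeed
  rw [Bool.and_eq_true]
  constructor
  · unfold distOK
    rw [List.all_eq_true]
    intro l hl
    rw [List.mem_range] at hl
    rw [Bool.and_eq_true]
    constructor
    · have h4 := h2 _ (hmemL l hl)
      have h5 : pC (eR E) (toSeed s) l ≠ 0 := by
        rw [hpC, Ne, ZMod.val_eq_zero]
        exact h4
      simp [h5]
    · rw [List.all_eq_true]
      intro s' hs'
      rw [List.all_eq_true]
      intro l' hl'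
      rw [List.mem_range] at hl'
      have h5 : pI (eR E) s' l' ≠ pI (eR E) (toSeed s) l := by
        intro h6
        apply h1 _ (hmemL l hl)
        refine Finset.mem_image.2 ⟨(s', l'), ?_, ?_⟩
        · exact Finset.mem_product.2 ⟨List.mem_toFinset.2 hs', Finset.mem_range.2 hl'⟩
        · simp only
          rw [h6, hpI, ZMod.natCast_zmod_val]
      simp [h5]
  · rw [accOK_iff]
    intro q hq'
    have hY : q.2 ∈ Lab := List.mem_toFinset.2 (List.mem_map.2 ⟨q, hq', rfl⟩)
    have h4 := h3 _ hY
    have h5 : hq (smpQ g E ph σ (toSeed s)) q.2 = ∑ l ∈ L, hh q.2 (s.1 + l • s.2) := by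
      unfold smpQ
      rw [hq_flatMap, SeedEx_sum_range, Finset.sum_image hinj]
      refine Finset.sum_congr rfl fun l _ => ?_
      simp only [hh]
      rw [hpt l]
    have h6 : hq (allQ g E ph σ) q.2 = ∑ u, hh q.2 u := by
      unfold allQ
      rw [hq_flatMap, sum_pts (eR E) (fun u => hq (g (instL E ph σ u)) q.2)]
    rw [h5, h6]
    rw [hLc, hcard] at h4
    push_cast
    exact h4

theorem pickSeed_good (V : List Bool → List Bool → Bool) (g : Inst → List Query) (E : Env)
    (S : Set (List Bool)) (R : Finset (List (List Bool))) (hP : Params E)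
    (hR : Red V g E S R) (ph : List (List Seed)) (σ : List Seed) (m : ℕ) (h : SInv E ph σ m) :
    goodSeed g E ph σ (pickSeed g E ph σ) = true ∧
      PtLt (eR E) (pickSeed g E ph σ).1 ∧ PtLt (eR E) (pickSeed g E ph σ).2 := by
  obtain ⟨s, hs, hg⟩ := SeedEx_exists V g E S R hP hR ph σ m h
  have hmem : s ∈ (seeds (eR E)).filter (goodSeed g E ph σ) := List.mem_filter.2 ⟨hs, hg⟩
  have hp : pickSeed g E ph σ ∈ (seeds (eR E)).filter (goodSeed g E ph σ) := by
    unfold pickSeed
    generalize (seeds (eR E)).filter (goodSeed g E ph σ) = l at hmem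
    cases l with
    | nil => simp at hmem
    | cons a t => simp
  rw [List.mem_filter, mem_seeds] at hp
  exact ⟨hp.2, hp.1⟩

/-- Adding a good seed preserves `PhOK`. -/
theorem phOK_snoc (g : Inst → List Query) (E : Env) (ph : List (List Seed)) (σ : List Seed)
    (hσ : PhOK (eR E) (eW E) σ) (s : Seed) (hs : goodSeed g E ph σ s = true)
    (h1 : PtLt (eR E) s.1) (h2 : PtLt (eR E) s.2) : PhOK (eR E) (eW E) (σ ++ [s]) := by
  unfold goodSeed at hs
  rw [Bool.and_eq_true] at hs
  have hd := hs.1
  unfold distOK at hd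
  rw [List.all_eq_true] at hd
  have hd' : ∀ l < eW E, pC (eR E) s l ≠ 0 ∧
      ∀ s' ∈ σ, ∀ l' < eW E, pI (eR E) s' l' ≠ pI (eR E) s l := by
    intro l hl
    have h3 := hd l (List.mem_range.2 hl)
    rw [Bool.and_eq_true] at h3
    refine ⟨by simpa using h3.1, fun s' hs' l' hl' => ?_⟩
    have h4 := h3.2
    rw [List.all_eq_true] at h4
    have h5 := h4 s' hs'
    rw [List.all_eq_true] at h5
    have h6 := h5 l' (List.mem_range.2 hl')
    simpa using h6
  obtain ⟨k1, k2, k3⟩ := hσ
  refine ⟨?_, ?_, ?_⟩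
  · intro t ht
    rw [List.mem_append, List.mem_singleton] at ht
    rcases ht with ht | rfl
    · exact k1 t ht
    · exact ⟨h1, h2⟩
  · intro t ht
    rw [List.mem_append, List.mem_singleton] at ht
    rcases ht with ht | rfl
    · exact k2 t ht
    · intro l hl
      exact (hd' l hl).1
  · rw [List.pairwise_append]
    refine ⟨k3, List.pairwise_singleton _ _, ?_⟩
    intro a ha b hb l hl l' hl'
    rw [List.mem_singleton] at hb
    subst hb
    exact (hd' l' hl').2 a ha l hl

end Pool.Agent.W_d799b0_h82
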