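import Pool.Agent.W_d799b0_h82.EnvA

/-!
# The parameters computed from the input

`M = 2 ^ size (p X + 1)`, `Y = (X + 1) (M + 1)`, `e = size (q Y + 1)`, `n' = 4 e M`,
`r` the first prime between `2 ^ (4 e)` and `2 ^ (4 e + 1)`, `K = Q (300 (Y (e + 1)))`.
`exists_params`: `growth` with `H = 256 X Q (300 X) ^ 4` gives
`64 (n' + 1) K ^ 4 ≤ 256 (Y (e + 1)) K ^ 4 ≤ 2 ^ e` since `4 e M + 1 ≤ 4 Y (e + 1)`.
-/

set_option autoImplicit false

namespace Pool.Agent.W_d799b0_h82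

open Pool.Agent.PolyTime Function

/-- the number of blocks -/
noncomputable def mkM (p : Polynomial ℕ) (X : ℕ) : ℕ := 2 ^ Nat.size (p.eval X + 1)

/-- the product `(X + 1) (M + 1)` -/
noncomputable def mkY (p : Polynomial ℕ) (X : ℕ) : ℕ := (X + 1) * (mkM p X + 1)

/-- the parameter `e` -/
noncomputable def mkE (p q : Polynomial ℕ) (X : ℕ) : ℕ := Nat.size (q.eval (mkY p X) + 1)

/-- the parameters for the input `x` -/
noncomputable def mkEnv (p q Q : Polynomial ℕ) (x : List Bool) : Env :=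
  (x, (mkE p q x.length, 2 ^ mkE p q x.length),
    (4 * mkE p q x.length * mkM p x.length, firstPrime ((2 ^ mkE p q x.length) ^ 4)),
    (Q.eval (300 * (mkY p x.length * (mkE p q x.length + 1))), mkM p x.length))

theorem EnvB_mkE_pos (p q : Polynomial ℕ) (X : ℕ) : 0 < mkE p q X := by
  unfold mkE
  rw [Nat.size_pos]
  exact Nat.succ_pos _

theorem exists_params (p Q : Polynomial ℕ) (hQ : ∀ n, 0 < Q.eval n) :
    ∃ q : Polynomial ℕ, ∀ x : List Bool, Params (mkEnv p q Q x) := by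
  obtain ⟨q, hq⟩ := growth (256 * Polynomial.X * (Q.comp (300 * Polynomial.X)) ^ 4)
  refine ⟨q, fun x => ?_⟩
  set X := x.length with hX
  have he : 0 < mkE p q X := EnvB_mkE_pos p q X
  have h2 : 2 ≤ 2 ^ mkE p q X := by
    calc 2 = 2 ^ 1 := rfl
      _ ≤ 2 ^ mkE p q X := Nat.pow_le_pow_right (by norm_num) he
  have h4 : 2 ≤ (2 ^ mkE p q X) ^ 4 := h2.trans (Nat.le_self_pow (by norm_num) _)
  obtain ⟨f1, f2, f3⟩ := firstPrime_spec _ h4
  have hpow : (2 ^ mkE p q X) ^ 4 = 2 ^ (4 * mkE p q X) := by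
    rw [← pow_mul, mul_comm]
  have hY : 1 ≤ mkY p X := by
    unfold mkY
    exact Nat.mul_pos (Nat.succ_pos _) (Nat.succ_pos _)
  have hH := hq (mkY p X) (mkE p q X) hY rfl
  have heval : (256 * Polynomial.X * (Q.comp (300 * Polynomial.X)) ^ 4).eval (mkY p X * (mkE p q X + 1)) =
      256 * (mkY p X * (mkE p q X + 1)) * (Q.eval (300 * (mkY p X * (mkE p q X + 1)))) ^ 4 := by
    simp only [Polynomial.eval_mul, Polynomial.eval_pow, Polynomial.eval_comp, Polynomial.eval_X,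
      Polynomial.eval_ofNat]
  rw [heval] at hH
  refine ⟨f1, ?_, ?_, rfl, he, ⟨_, rfl⟩, rfl, hQ _, ?_⟩
  · show 2 ^ (4 * mkE p q X) < firstPrime ((2 ^ mkE p q X) ^ 4)
    rw [← hpow]
    exact f2
  · show firstPrime ((2 ^ mkE p q X) ^ 4) < 2 ^ (4 * mkE p q X + 1)
    have h5 : 2 ^ (4 * mkE p q X + 1) = 2 * (2 ^ mkE p q X) ^ 4 := by
      rw [hpow, pow_succ, mul_comm]
    rw [h5]
    exact f3
  · show 64 * (4 * mkE p q X * mkM p X + 1) *
      (Q.eval (300 * (mkY p X * (mkE p q X + 1)))) ^ 4 ≤ 2 ^ mkE p q X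
    refine le_trans ?_ hH
    apply Nat.mul_le_mul_right
    have h5 : 4 * mkE p q X * mkM p X + 1 ≤ 4 * (mkY p X * (mkE p q X + 1)) := by
      have h6 : mkM p X + 1 ≤ mkY p X := by
        unfold mkY
        exact Nat.le_mul_of_pos_left _ (Nat.succ_pos _)
      have h7 : (mkM p X + 1) * (mkE p q X + 1) ≤ mkY p X * (mkE p q X + 1) := Nat.mul_le_mul_right _ h6
      nlinarith
    omega

theorem le_eN (p q Q : Polynomial ℕ) (x : List Bool) :
    p.eval x.length + 1 ≤ eN (mkEnv p q Q x) := by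
  show p.eval x.length + 1 ≤ 4 * mkE p q x.length * mkM p x.length
  have h1 : p.eval x.length + 1 ≤ mkM p x.length := by
    unfold mkM
    exact (Nat.lt_size_self _).le
  have h2 := EnvB_mkE_pos p q x.length
  calc p.eval x.length + 1 ≤ mkM p x.length := h1
    _ ≤ 4 * mkE p q x.length * mkM p x.length := Nat.le_mul_of_pos_left _ (by omega)

theorem eK_mkEnv (p q Q : Polynomial ℕ) (x : List Bool) : eK (mkEnv p q Q x) =
    Q.eval (300 * (((eX (mkEnv p q Q x)).length + 1) * (eM (mkEnv p q Q x) + 1) *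
      (eE (mkEnv p q Q x) + 1))) := by
  rfl

theorem EnvB_pf_mkM (p : Polynomial ℕ) {γ : Type} [ToD γ] {f : γ → ℕ} (hf : PF f) :
    PF (fun c => mkM p (f c)) := by
  unfold mkM
  exact pf_pow_size (PF.succ (PF.evalPoly p hf))

theorem EnvB_pf_mkY (p : Polynomial ℕ) {γ : Type} [ToD γ] {f : γ → ℕ} (hf : PF f) :
    PF (fun c => mkY p (f c)) := by
  unfold mkY
  exact PF.mul (PF.succ hf) (PF.succ (EnvB_pf_mkM p hf))

theorem EnvB_pf_mkE (p q : Polynomial ℕ) {γ : Type} [ToD γ] {f : γ → ℕ} (hf : PF f) :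
    PF (fun c => mkE p q (f c)) := by
  unfold mkE
  exact pf_size (PF.succ (PF.evalPoly q (EnvB_pf_mkY p hf)))

theorem EnvB_pf_powE (p q : Polynomial ℕ) {γ : Type} [ToD γ] {f : γ → ℕ} (hf : PF f) :
    PF (fun c => 2 ^ mkE p q (f c)) := by
  unfold mkE
  exact pf_pow_size (PF.succ (PF.evalPoly q (EnvB_pf_mkY p hf)))

theorem pf_mkEnv (p q Q : Polynomial ℕ) : PF (mkEnv p q Q) := by
  have hx : PF (fun x : List Bool => x) := PF.id'
  have hl : PF (fun x : List Bool => x.length) := PF.length hx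
  have hE := EnvB_pf_mkE p q hl
  have hM := EnvB_pf_mkM p hl
  have hY := EnvB_pf_mkY p hl
  have hW := EnvB_pf_powE p q hl
  have h4 : PF (fun x : List Bool => (2 ^ mkE p q x.length) ^ 4) := PF.pow hW 4
  have hr := pf_firstPrime h4
  have hK : PF (fun x : List Bool => Q.eval (300 * (mkY p x.length * (mkE p q x.length + 1)))) :=
    PF.evalPoly Q (PF.mul (PF.const 300) (PF.mul hY (PF.succ hE)))
  exact PF.pair hx (PF.pair (PF.pair hE hW) (PF.pair (PF.pair (PF.mul (PF.mul (PF.const 4) hE) hM) hr)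
    (PF.pair hK hM)))

end Pool.Agent.W_d799b0_h82
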