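import Pool.Agent.W_d799b0_h82.PNat
import Pool.Agent.W_d799b0_h82.Alg

/-!
# The parameters

`pow_bound`: `(e + 1) ≤ m (e / m + 1) ≤ m 2 ^ (e / m)`, so `(e + 1) ^ m ≤ m ^ m 2 ^ e`.
`poly_bound`: every polynomial with natural coefficients is at most `c (Y + 1) ^ d`
(`Polynomial.induction_on'` or `eval_eq_sum_range`), with `c, d > 0`.
`growth`: take `q = C c² 4 ^ d (2 d) ^ (2 d) X ^ (2 d)`; with `e = Nat.size (q Y + 1)` we have
`q Y < 2 ^ e` (`Nat.lt_size_self`), and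
`(c (Y (e + 1) + 1) ^ d) ^ 2 ≤ c² 4 ^ d Y ^ (2 d) (e + 1) ^ (2 d) ≤ q Y * 2 ^ e ≤ (2 ^ e) ^ 2`
(`1 ≤ Y`), so `H (Y (e + 1)) ≤ 2 ^ e`.
`firstPrime_spec`: `Nat.exists_prime_lt_and_le_two_mul`; `2 a` is not prime for `a ≥ 2`.
-/

set_option autoImplicit false

namespace Pool.Agent.W_d799b0_h82

open Pool.Agent.PolyTime Function

theorem pow_bound (m e : ℕ) : (e + 1) ^ m ≤ m ^ m * 2 ^ e := by
  rcases Nat.eq_zero_or_pos m with rfl | hm
  · simp [Nat.one_le_two_pow]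
  · have h1 : e + 1 ≤ m * (e / m + 1) := Nat.lt_mul_div_succ e hm
    have h2 : e / m + 1 ≤ 2 ^ (e / m) := Nat.lt_two_pow_self
    have h3 : e + 1 ≤ m * 2 ^ (e / m) := h1.trans (Nat.mul_le_mul_left m h2)
    calc (e + 1) ^ m ≤ (m * 2 ^ (e / m)) ^ m := Nat.pow_le_pow_left h3 m
      _ = m ^ m * 2 ^ (e / m * m) := by rw [mul_pow, ← pow_mul]
      _ ≤ m ^ m * 2 ^ e :=
        Nat.mul_le_mul_left _ (Nat.pow_le_pow_right (by norm_num) (Nat.div_mul_le_self e m))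

theorem poly_bound (H : Polynomial ℕ) :
    ∃ c d : ℕ, 0 < c ∧ 0 < d ∧ ∀ Y, H.eval Y ≤ c * (Y + 1) ^ d := by
  refine ⟨(∑ i ∈ Finset.range (H.natDegree + 1), H.coeff i) + 1, H.natDegree + 1,
    Nat.succ_pos _, Nat.succ_pos _, fun Y => ?_⟩
  rw [Polynomial.eval_eq_sum_range]
  calc ∑ i ∈ Finset.range (H.natDegree + 1), H.coeff i * Y ^ i
      ≤ ∑ i ∈ Finset.range (H.natDegree + 1), H.coeff i * (Y + 1) ^ (H.natDegree + 1) := by
        refine Finset.sum_le_sum fun i hi => Nat.mul_le_mul_left _ ?_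
        rw [Finset.mem_range] at hi
        exact (Nat.pow_le_pow_left (Nat.le_succ Y) i).trans
          (Nat.pow_le_pow_right (Nat.succ_pos Y) hi.le)
    _ = (∑ i ∈ Finset.range (H.natDegree + 1), H.coeff i) * (Y + 1) ^ (H.natDegree + 1) := by
        rw [Finset.sum_mul]
    _ ≤ ((∑ i ∈ Finset.range (H.natDegree + 1), H.coeff i) + 1) *
          (Y + 1) ^ (H.natDegree + 1) := Nat.mul_le_mul_right _ (Nat.le_succ _)

theorem growth (H : Polynomial ℕ) : ∃ q : Polynomial ℕ, ∀ Y e : ℕ, 1 ≤ Y →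
    e = Nat.size (q.eval Y + 1) → H.eval (Y * (e + 1)) ≤ 2 ^ e := by
  obtain ⟨c, d, hc, hd, hcd⟩ := poly_bound H
  refine ⟨Polynomial.C (c ^ 2 * 4 ^ d * (2 * d) ^ (2 * d)) * Polynomial.X ^ (2 * d), ?_⟩
  intro Y e hY he
  have h1 : c ^ 2 * 4 ^ d * (2 * d) ^ (2 * d) * Y ^ (2 * d) ≤ 2 ^ e := by
    have h2 : (Polynomial.C (c ^ 2 * 4 ^ d * (2 * d) ^ (2 * d)) *
        Polynomial.X ^ (2 * d) : Polynomial ℕ).eval Y + 1 < 2 ^ e := by
      rw [he]
      exact Nat.lt_size_self _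
    simp only [Polynomial.eval_mul, Polynomial.eval_C, Polynomial.eval_pow,
      Polynomial.eval_X] at h2
    omega
  have h3 : (H.eval (Y * (e + 1))) ^ 2 ≤ (2 ^ e) ^ 2 := by
    calc (H.eval (Y * (e + 1))) ^ 2 ≤ (c * (Y * (e + 1) + 1) ^ d) ^ 2 :=
          Nat.pow_le_pow_left (hcd _) 2
      _ ≤ (c * (2 * (Y * (e + 1))) ^ d) ^ 2 := by
          refine Nat.pow_le_pow_left (Nat.mul_le_mul_left _ (Nat.pow_le_pow_left ?_ _)) 2
          have h4 : 1 ≤ Y * (e + 1) := Nat.mul_pos hY (Nat.succ_pos e)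
          omega
      _ = c ^ 2 * 4 ^ d * Y ^ (2 * d) * (e + 1) ^ (2 * d) := by
          have h5 : (4 : ℕ) ^ d = 2 ^ (2 * d) := by rw [pow_mul]; norm_num
          have h6 : ((2 * (Y * (e + 1))) ^ d) ^ 2 = 2 ^ (2 * d) * Y ^ (2 * d) * (e + 1) ^ (2 * d) := by
            rw [← pow_mul, mul_comm d 2, mul_pow, mul_pow, mul_assoc]
          rw [h5, mul_pow, h6]
          ring
      _ ≤ c ^ 2 * 4 ^ d * Y ^ (2 * d) * ((2 * d) ^ (2 * d) * 2 ^ e) :=
          Nat.mul_le_mul_left _ (pow_bound (2 * d) e)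
      _ = c ^ 2 * 4 ^ d * (2 * d) ^ (2 * d) * Y ^ (2 * d) * 2 ^ e := by ring
      _ ≤ 2 ^ e * 2 ^ e := Nat.mul_le_mul_right _ h1
      _ = (2 ^ e) ^ 2 := by ring
  exact (Nat.pow_le_pow_iff_left (by norm_num)).1 h3

/-- the first prime between `a` and `2 a` -/
def firstPrime (a : ℕ) : ℕ :=
  ((List.range (2 * a)).filter fun b => decide (a < b) && decide (Nat.Prime b)).headD 2

theorem firstPrime_spec (a : ℕ) (ha : 2 ≤ a) :
    (firstPrime a).Prime ∧ a < firstPrime a ∧ firstPrime a < 2 * a := by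
  obtain ⟨p, hp, hap, hpa⟩ := Nat.exists_prime_lt_and_le_two_mul a (by omega)
  have hne : p ≠ 2 * a := by
    rintro rfl
    exact Nat.not_prime_mul (by norm_num) (by omega) hp
  have hmem : p ∈ (List.range (2 * a)).filter
      fun b => decide (a < b) && decide (Nat.Prime b) := by
    rw [List.mem_filter, List.mem_range]
    exact ⟨by omega, by simp [hap, hp]⟩
  have hhead : firstPrime a ∈ (List.range (2 * a)).filter
      fun b => decide (a < b) && decide (Nat.Prime b) := by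
    unfold firstPrime
    cases hl : (List.range (2 * a)).filter fun b => decide (a < b) && decide (Nat.Prime b) with
    | nil => rw [hl] at hmem; simp at hmem
    | cons x l => simp
  rw [List.mem_filter, List.mem_range, Bool.and_eq_true, decide_eq_true_eq,
    decide_eq_true_eq] at hhead
  exact ⟨hhead.2.2, hhead.2.1, hhead.1⟩

theorem pf_firstPrime {γ : Type} [ToD γ] {f : γ → ℕ} (hf : PF f) :
    PF (fun c => firstPrime (f c)) := by
  unfold firstPrime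
  refine pf_headD (PF.const 2) ?_
  refine PF.filter ?_ ?_
  · fun_prop
  · fun_prop

end Pool.Agent.W_d799b0_h82
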