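import Pool.Agent.W_d799b0_h42.BinA

/-! Polynomial time arithmetic on integers written in binary. -/

set_option autoImplicit false
set_option linter.unusedSectionVars false

namespace Pool.Agent.PolyTime

open Turing Function
open Pool.Agent.W_d799b0_h82 (Bn val)

/-! ### division of natural numbers -/

/-- one step of long division: state `(remainder, quotient)` -/
def divS (m : ℕ) (s : Bn × Bn) (b : Bool) : Bn × Bn :=
  if b.toNat + 2 * s.1.n < m then (⟨b.toNat + 2 * s.1.n⟩, ⟨false.toNat + 2 * s.2.n⟩)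
  else (⟨b.toNat + 2 * s.1.n - m⟩, ⟨true.toNat + 2 * s.2.n⟩)

theorem div_fold (m : ℕ) (hm : 0 < m) (l : List Bool) :
    l.foldl (divS m) (⟨0⟩, ⟨0⟩) =
      (⟨W_d799b0_h82.val l.reverse % m⟩, ⟨W_d799b0_h82.val l.reverse / m⟩) := by
  induction l using List.reverseRecOn with
  | nil => simp [W_d799b0_h82.val]
  | append_singleton l b ih =>
    rw [List.foldl_append, ih, List.reverse_append, List.reverse_singleton, List.singleton_append,
      W_d799b0_h82.val, List.foldl_cons, List.foldl_nil, divS]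
    generalize W_d799b0_h82.val l.reverse = v
    have h0 := Nat.div_add_mod v m
    have h2 := Nat.mod_lt v hm
    have h3 : b.toNat ≤ 1 := by cases b <;> simp
    generalize hw : v % m = w at h0 h2 ⊢
    generalize hx : v / m = x at h0 ⊢
    generalize b.toNat = y at h3 ⊢
    simp only
    have h4 : y + 2 * v = m * (2 * x) + (y + 2 * w) := by
      rw [← h0]; ring
    split_ifs with h
    · have h5 : (y + 2 * v) / m = 2 * x := by
        rw [h4, Nat.mul_add_div hm, Nat.div_eq_of_lt h, Nat.add_zero]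
      have h6 : (y + 2 * v) % m = y + 2 * w := by
        rw [h4, Nat.mul_add_mod, Nat.mod_eq_of_lt h]
      rw [h5, h6]
      simp
    · have h7 : y + 2 * w = m * 1 + (y + 2 * w - m) := by omega
      have h8 : y + 2 * w - m < m := by omega
      have h5 : (y + 2 * v) / m = 2 * x + 1 := by
        rw [h4, Nat.mul_add_div hm, h7, Nat.mul_add_div hm, Nat.div_eq_of_lt (by omega)]
      have h6 : (y + 2 * v) % m = y + 2 * w - m := by
        rw [h4, Nat.mul_add_mod, h7, Nat.mul_add_mod, Nat.mod_eq_of_lt (by omega)]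
        omega
      rw [h5, h6]
      simp [Nat.add_comm]

section

variable {γ α : Type} [ToD γ] [ToD α]

theorem PN.div {f g : γ → ℕ} (hf : PN f) (hg : PN g) : PN (fun c => f c / g c) := by
  obtain ⟨P, hP⟩ := hf.bound
  have h0 : PN (fun c => Max.max (g c) 1) := hg.max (PN.const 1)
  have h : PF (fun c => (Nat.bits (f c)).reverse.foldl (divS (Max.max (g c) 1)) (⟨0⟩, ⟨0⟩)) := by
    refine PF.foldl' (f := fun c s b => divS (Max.max (g c) 1) s b) ?_ (PF.const _)
      hf.bits.reverse (Polynomial.C 8 * P + 3) ?_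
    · have h1 : PN (fun x : (γ × (Bn × Bn)) × Bool => x.2.toNat + 2 * x.1.2.1.n) :=
        PN.dbl (PN.ofBn PF.id'.fst.snd.fst) PF.id'.snd
      have h2 : PN (fun x : (γ × (Bn × Bn)) × Bool => Max.max (g x.1.1) 1) :=
        PN.comp h0 PF.id'.fst.fst
      have h3 : PN (fun x : (γ × (Bn × Bn)) × Bool => false.toNat + 2 * x.1.2.2.n) :=
        PN.dbl (PN.ofBn PF.id'.fst.snd.snd) (PF.const _)
      have h4 : PN (fun x : (γ × (Bn × Bn)) × Bool => true.toNat + 2 * x.1.2.2.n) :=
        PN.dbl (PN.ofBn PF.id'.fst.snd.snd) (PF.const _)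
      refine (PF.ite (h1.lt h2) (PF.pair h1 h3) (PF.pair (h1.sub h2) h4)).cast (fun x => ?_)
      rw [divS]
      by_cases h : x.2.toNat + 2 * x.1.2.1.n < Max.max (g x.1.1) 1 <;> simp [h]
    · intro c l' hl'
      rw [show (fun s b => divS (Max.max (g c) 1) s b) = divS (Max.max (g c) 1) from rfl,
        div_fold _ (Nat.lt_of_lt_of_le Nat.one_pos (Nat.le_max_right _ _)), sz_pair]
      generalize Max.max (g c) 1 = m
      have h1 := sz_bn (W_d799b0_h82.val l'.reverse % m)
      have h2 := sz_bn (W_d799b0_h82.val l'.reverse / m)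
      have h3 := Nat.size_le_size (Nat.mod_le (W_d799b0_h82.val l'.reverse) m)
      have h4 := Nat.size_le_size (Nat.div_le_self (W_d799b0_h82.val l'.reverse) m)
      have h5 := size_val_le l'.reverse
      rw [List.length_reverse] at h5
      have h6 := hl'.length_le
      rw [List.length_reverse, Nat.size_eq_bits_len] at h6
      have h7 := hP c
      simp only [Polynomial.eval_add, Polynomial.eval_mul, Polynomial.eval_C,
        Polynomial.eval_ofNat]
      omega
  refine (PN.ite (hg.eq (PN.const 0)) (PN.const 0) (PN.ofBn h.snd)).congr (fun c => ?_)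
  rw [div_fold _ (Nat.lt_of_lt_of_le Nat.one_pos (Nat.le_max_right _ _)), List.reverse_reverse,
    val_bits]
  by_cases h1 : g c = 0
  · simp [h1]
  · have h2 : Max.max (g c) 1 = g c := Nat.max_eq_left (Nat.one_le_iff_ne_zero.2 h1)
    simp [h1, h2]

end

/-! ### integers -/

/-- An integer that is written in binary. -/
structure Bz where
  z : ℤ
  deriving DecidableEq

/-- An integer in binary is represented by its positive part and its negative part. -/
instance : ToD Bz := ⟨fun b => toD (Bn.mk b.z.toNat, Bn.mk (-b.z).toNat)⟩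

theorem toD_bz (b : Bz) : toD b = toD (Bn.mk b.z.toNat, Bn.mk (-b.z).toNat) := rfl

theorem sz_bz (z : ℤ) : sz (Bz.mk z) ≤ 8 * Nat.size z.natAbs + 3 := by
  change sz (Bn.mk z.toNat, Bn.mk (-z).toNat) ≤ _
  rw [sz_pair]
  have h1 := sz_bn z.toNat
  have h2 := sz_bn (-z).toNat
  have h3 : Nat.size z.toNat ≤ Nat.size z.natAbs := Nat.size_le_size (by omega)
  have h4 : Nat.size (-z).toNat ≤ Nat.size z.natAbs := Nat.size_le_size (by omega)
  omega

theorem size_le_sz_bz (z : ℤ) : Nat.size z.natAbs ≤ sz (Bz.mk z) := by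
  change _ ≤ sz (Bn.mk z.toNat, Bn.mk (-z).toNat)
  rw [sz_pair]
  have h1 := size_le_sz z.toNat
  have h2 := size_le_sz (-z).toNat
  rcases le_total 0 z with h | h
  · have h3 : z.natAbs = z.toNat := by omega
    rw [h3]; omega
  · have h3 : z.natAbs = (-z).toNat := by omega
    rw [h3]; omega

instance : ToDInj Bz := ⟨fun a b h => by
  have h1 : (Bn.mk a.z.toNat, Bn.mk (-a.z).toNat) = (Bn.mk b.z.toNat, Bn.mk (-b.z).toNat) :=
    ToDInj.inj h
  cases a; cases b
  simp only [Prod.mk.injEq, Bn.mk.injEq] at h1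
  rw [Bz.mk.injEq]
  omega⟩

/-- A function with values in the integers is computable in polynomial time if the values are
written in binary. -/
abbrev PZ {γ : Type} [ToD γ] (f : γ → ℤ) : Prop := PF (fun c => Bz.mk (f c))

section

variable {γ α : Type} [ToD γ] [ToD α]

theorem PZ.ofBz {f : γ → Bz} (hf : PF f) : PZ (fun c => (f c).z) := hf

theorem PZ.const (k : ℤ) : PZ (fun _ : γ => k) := PF.const _

theorem PZ.comp {f : α → ℤ} {g : γ → α} (hf : PZ f) (hg : PF g) : PZ (fun c => f (g c)) :=
  PF.comp (f := g) (g := fun b => Bz.mk (f b)) hf hg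

theorem PZ.congr {f g : γ → ℤ} (hf : PZ f) (h : ∀ c, g c = f c) : PZ g :=
  PF.cast (f := fun c => Bz.mk (f c)) hf (fun c => by rw [h c])

theorem PZ.parts {f : γ → ℤ} (hf : PZ f) :
    PF (fun c => (Bn.mk (f c).toNat, Bn.mk (-(f c)).toNat)) :=
  (PF.ident (f := fun b : Bz => (Bn.mk b.z.toNat, Bn.mk (-b.z).toNat)) (fun _ => rfl)).comp hf

theorem PZ.pos {f : γ → ℤ} (hf : PZ f) : PN (fun c => (f c).toNat) := hf.parts.fst

theorem PZ.neg' {f : γ → ℤ} (hf : PZ f) : PN (fun c => (-(f c)).toNat) := hf.parts.snd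

theorem PZ.ofDiff {f g : γ → ℕ} (hf : PN f) (hg : PN g) : PZ (fun c => (f c : ℤ) - g c) :=
  (PF.pair (hf.sub hg) (hg.sub hf)).cast (fun c => by
    have h1 : (((f c : ℤ) - g c)).toNat = f c - g c := by omega
    have h2 : (-((f c : ℤ) - g c)).toNat = g c - f c := by omega
    rw [toD_bz]
    dsimp only
    rw [h1, h2])

theorem PZ.ofPN {f : γ → ℕ} (hf : PN f) : PZ (fun c => (f c : ℤ)) :=
  (PZ.ofDiff hf (PN.const 0)).congr (fun c => by simp)

theorem PZ.neg {f : γ → ℤ} (hf : PZ f) : PZ (fun c => -(f c)) :=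
  (PZ.ofDiff hf.neg' hf.pos).congr (fun c => by omega)

theorem PZ.natAbs {f : γ → ℤ} (hf : PZ f) : PN (fun c => (f c).natAbs) :=
  (hf.pos.add hf.neg').congr (fun c => by omega)

theorem PZ.add {f g : γ → ℤ} (hf : PZ f) (hg : PZ g) : PZ (fun c => f c + g c) :=
  (PZ.ofDiff (hf.pos.add hg.pos) (hf.neg'.add hg.neg')).congr (fun c => by push_cast; omega)

theorem PZ.sub {f g : γ → ℤ} (hf : PZ f) (hg : PZ g) : PZ (fun c => f c - g c) :=
  (PZ.ofDiff (hf.pos.add hg.neg') (hf.neg'.add hg.pos)).congr (fun c => by push_cast; omega)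

theorem int_split (a : ℤ) : a = (a.toNat : ℤ) - ((-a).toNat : ℤ) := by omega

theorem PZ.mul {f g : γ → ℤ} (hf : PZ f) (hg : PZ g) : PZ (fun c => f c * g c) :=
  (PZ.ofDiff ((hf.pos.mul hg.pos).add (hf.neg'.mul hg.neg'))
    ((hf.pos.mul hg.neg').add (hf.neg'.mul hg.pos))).congr (fun c => by
    conv_lhs => rw [int_split (f c), int_split (g c)]
    push_cast
    ring)

theorem PZ.le {f g : γ → ℤ} (hf : PZ f) (hg : PZ g) : PF (fun c => decide (f c ≤ g c)) :=
  ((hf.pos.add hg.neg').le (hg.pos.add hf.neg')).cast (fun c => by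
    congr 1
    apply decide_eq_decide.2
    omega)

theorem PZ.lt {f g : γ → ℤ} (hf : PZ f) (hg : PZ g) : PF (fun c => decide (f c < g c)) :=
  ((hf.pos.add hg.neg').lt (hg.pos.add hf.neg')).cast (fun c => by
    congr 1
    apply decide_eq_decide.2
    omega)

theorem PZ.eq {f g : γ → ℤ} (hf : PZ f) (hg : PZ g) : PF (fun c => decide (f c = g c)) :=
  ((hf.pos.add hg.neg').eq (hg.pos.add hf.neg')).cast (fun c => by
    congr 1
    apply decide_eq_decide.2
    omega)

theorem PZ.ite {p : γ → Bool} {f g : γ → ℤ} (hp : PF p) (hf : PZ f) (hg : PZ g) :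
    PZ (fun c => if p c then f c else g c) :=
  (PF.ite hp hf hg).cast (fun c => by
    change toD (Bz.mk (if p c then f c else g c)) = toD (if p c then Bz.mk (f c) else Bz.mk (g c))
    cases p c <;> rfl)

/-- truncated division by a natural number (exact if the divisor divides) -/
theorem PZ.tdiv {f : γ → ℤ} {g : γ → ℕ} (hf : PZ f) (hg : PN g) :
    PZ (fun c => Int.tdiv (f c) (g c)) :=
  (PZ.ofDiff (hf.pos.div hg) (hf.neg'.div hg)).congr (fun c => by
    rcases le_total 0 (f c) with h | h
    · have h1 : (-(f c)).toNat = 0 := by omega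
      have h2 : f c = ((f c).toNat : ℤ) := by omega
      rw [h1, Nat.zero_div]
      conv_lhs => rw [h2]
      rw [Int.ofNat_tdiv]
      simp
    · have h1 : (f c).toNat = 0 := by omega
      have h2 : f c = -((-(f c)).toNat : ℤ) := by omega
      rw [h1, Nat.zero_div]
      conv_lhs => rw [h2]
      rw [Int.neg_tdiv, Int.ofNat_tdiv]
      simp)

theorem PZ.bound {f : γ → ℤ} (hf : PZ f) :
    ∃ P : Polynomial ℕ, ∀ c, Nat.size (f c).natAbs ≤ P.eval (sz c) := by
  obtain ⟨P, hP⟩ := PF.bound hf
  exact ⟨P, fun c => (size_le_sz_bz _).trans (hP c)⟩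

/-- Folding with a state that is an integer in binary. -/
theorem PZ.foldl {f : γ → ℤ → α → ℤ} {b : γ → ℤ} {l : γ → List α}
    (hf : PZ (fun x : (γ × Bz) × α => f x.1.1 x.1.2.z x.2)) (hb : PZ b) (hl : PF l)
    (P : Polynomial ℕ)
    (hP : ∀ c l', l' <+: l c → Nat.size (l'.foldl (f c) (b c)).natAbs ≤ P.eval (sz c)) :
    PZ (fun c => (l c).foldl (f c) (b c)) := by
  have key : ∀ (c : γ) (l : List α) (s : ℤ),
      l.foldl (fun (s : Bz) a => Bz.mk (f c s.z a)) (Bz.mk s) = Bz.mk (l.foldl (f c) s) := by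
    intro c l
    induction l with
    | nil => intro s; rfl
    | cons a l ih => intro s; rw [List.foldl_cons, List.foldl_cons, ih]
  have h : PF (fun c => (l c).foldl (fun (s : Bz) a => Bz.mk (f c s.z a)) (Bz.mk (b c))) := by
    refine PF.foldl' (f := fun c (s : Bz) a => Bz.mk (f c s.z a)) hf hb hl
      (Polynomial.C 8 * P + 3) ?_
    intro c l' hl'
    rw [key]
    have h1 := hP c l' hl'
    have h2 := sz_bz (l'.foldl (f c) (b c))
    simp only [Polynomial.eval_add, Polynomial.eval_mul, Polynomial.eval_C,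
      Polynomial.eval_ofNat]
    omega
  exact h.cast (fun c => by rw [key])

theorem natAbs_foldl_add_le (l : List ℤ) (s : ℤ) (B : ℕ) (h : ∀ z ∈ l, z.natAbs ≤ B) :
    (l.foldl (fun s z => s + z) s).natAbs ≤ s.natAbs + l.length * B := by
  induction l generalizing s with
  | nil => simp
  | cons a l ih =>
    rw [List.foldl_cons]
    refine (ih (s + a) (fun z hz => h z (List.mem_cons_of_mem _ hz))).trans ?_
    have h1 := Int.natAbs_add_le s a
    have h2 := h a List.mem_cons_self
    rw [List.length_cons]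
    have h3 : (l.length + 1) * B = l.length * B + B := by ring
    omega

theorem size_mem_le (l : List Bz) (b : Bz) (hb : b ∈ l) : Nat.size b.z.natAbs ≤ sz l :=
  (size_le_sz_bz _).trans (sz_mem hb).le

/-- the sum of a list of integers -/
theorem PZ.sum {l : γ → List Bz} (hl : PF l) : PZ (fun c => ((l c).map Bz.z).sum) := by
  obtain ⟨P, hP⟩ := hl.bound
  have h : PZ (fun c => (l c).foldl (fun s (b : Bz) => s + b.z) 0) := by
    refine PZ.foldl (f := fun _ s (b : Bz) => s + b.z)
      (PZ.add (PZ.ofBz PF.id'.fst.snd) (PZ.ofBz PF.id'.snd)) (PZ.const 0) hl (P + P) ?_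
    intro c l' hl'
    have h1 : l'.foldl (fun s (b : Bz) => s + b.z) 0 =
        (l'.map Bz.z).foldl (fun s z => s + z) 0 := by rw [List.foldl_map]
    rw [h1]
    have h2 := natAbs_foldl_add_le (l'.map Bz.z) 0 (2 ^ (P.eval (sz c)) - 1) (by
      intro z hz
      obtain ⟨b, hb, rfl⟩ := List.mem_map.1 hz
      have h3 := size_mem_le (l c) b (hl'.subset hb)
      have h4 := Nat.size_le.1 (h3.trans (hP c))
      omega)
    rw [Nat.size_le, Polynomial.eval_add, pow_add]
    refine lt_of_le_of_lt h2 ?_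
    rw [List.length_map]
    have h5 := hl'.length_le
    have h6 := length_le_sz (l c)
    have h7 := hP c
    have h8 : l'.length < 2 ^ (P.eval (sz c)) :=
      lt_of_le_of_lt (h5.trans (h6.trans h7)) Nat.lt_two_pow_self
    have h9 : 1 ≤ 2 ^ (P.eval (sz c)) := Nat.one_le_two_pow
    generalize 2 ^ (P.eval (sz c)) = X at h8 h9 ⊢
    have h10 : l'.length * (X - 1) ≤ (X - 1) * (X - 1) := Nat.mul_le_mul_right _ (by omega)
    have h11 : (X - 1) * (X - 1) < X * X := Nat.mul_lt_mul'' (by omega) (by omega)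
    simp only [Int.natAbs_zero, Nat.zero_add]
    omega
  refine h.congr (fun c => ?_)
  have key : ∀ (l : List Bz) (s : ℤ), l.foldl (fun s (b : Bz) => s + b.z) s =
      s + (l.map Bz.z).sum := by
    intro l
    induction l with
    | nil => intro s; simp
    | cons a l ih => intro s; rw [List.foldl_cons, ih, List.map_cons, List.sum_cons]; ring
  rw [key]
  simp

end

end Pool.Agent.PolyTime
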