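import Pool.Agent.W_d799b0_h82.SmallB

/-!
# The small case: few strings are kept

PROOF.  Let `Vs` be a finite set of strings of length `j ≤ n'` satisfying `keep`.  For each `v`
choose `Y v` (`keep_iff`).  For fixed `Y` let `Vs_Y` be those `v` with `Y v = Y`; by `list_bound`
(with `m = n'`, `h u = hq (g (instS .. (toPt u))) Y`, the polynomials `bP r v`, injective on
strings of the same length by `bP_inj`; `hh` from `sum_sq_hq_le` with `Lab = {Y}` and `Red.len`;
`hcor` from `tab_sum`) `card Vs_Y * r^3 ≤ 8 K^2 ∑ u, hq (g ..) Y ^ 2`.  Sum over the finite set of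
the values `Y v`, exchange the sums, `sum_sq_hq_le`: `card Vs * r^3 ≤ 8 K^2 * (r^3 * K^2)`, so
`card Vs ≤ 8 K ^ 4` (`Params.r_large` is the hypothesis `hr`, `Params.pos_N`, `card_HH`).
-/

set_option autoImplicit false

open Finset

namespace Pool.Agent.W_d799b0_h82

theorem keep_card (V : List Bool → List Bool → Bool) (g : Inst → List Query) (E : Env)
    (S : Set (List Bool)) (R : Finset (List (List Bool))) (hP : Params E)
    (hR : Red V g E S R) (ph : List (List Seed)) (i0 b0 j : ℕ) (hj : j ≤ eN E)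
    (hU : ∀ u, PtLt (eR E) u → Used E (instS E ph i0 b0 j u))
    (Vs : Finset (List Bool)) (hlen : ∀ v ∈ Vs, v.length = j)
    (hk : ∀ v ∈ Vs, keep (eR E) (eK E) (tabS g E ph i0 b0 j) v = true) :
    Vs.card ≤ 8 * eK E ^ 4 := by
  classical
  have hfact : Fact (eR E).Prime := ⟨hP.prime⟩
  have hr0 : 0 < eR E := hP.pos_r
  have hcardF : Fintype.card (ZMod (eR E)) = eR E := ZMod.card _
  have hcard3 : Fintype.card (ZMod (eR E) × ZMod (eR E) × ZMod (eR E)) = eR E ^ 3 := by
    rw [Fintype.card_prod, Fintype.card_prod, hcardF]; ring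
  -- the table
  set hh : List (List Bool) → ZMod (eR E) × ZMod (eR E) × ZMod (eR E) → ℤ :=
    fun Y u => hq (g (instS E ph i0 b0 j (toPt u))) Y with hhdef
  have hlenK : ∀ u : ZMod (eR E) × ZMod (eR E) × ZMod (eR E),
      ((g (instS E ph i0 b0 j (toPt u))).length : ℤ) ^ 2 ≤ (eK E : ℤ) ^ 2 := by
    intro u
    have h1 := hR.len _ (hU (toPt u) (toPt_lt _ u))
    have h2 : ((g (instS E ph i0 b0 j (toPt u))).length : ℤ) ≤ eK E := by exact_mod_cast h1
    exact pow_le_pow_left₀ (by positivity) h2 2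
  -- labels
  have hY : ∀ v, v ∈ Vs → ∃ Y, ((eR E : ℕ) : ℤ) ^ 3 ≤
      2 * eK E * ∑ u, hh Y u * sg (HH (eR E)) (bP (eR E) v) u := by
    intro v hv
    obtain ⟨Y, hY⟩ := (keep_iff (eR E) (eK E) hr0 _ v).1 (hk v hv)
    rw [tab_sum] at hY
    exact ⟨Y, hY⟩
  choose! Yf hYf using hY
  -- one label
  have hone : ∀ Y, ((Vs.filter fun v => Yf v = Y).card : ℤ) * (eR E : ℤ) ^ 3 ≤
      8 * (eK E : ℤ) ^ 2 * ∑ u, hh Y u ^ 2 := by
    intro Y
    have hinj : Set.InjOn (bP (eR E)) ((Vs.filter fun v => Yf v = Y) : Set (List Bool)) := by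
      intro v hv v' hv' he
      rw [Finset.mem_coe, Finset.mem_filter] at hv hv'
      exact bP_inj _ v v' ((hlen v hv.1).trans (hlen v' hv'.1).symm) he
    have hb := list_bound (F := ZMod (eR E)) (HH (eR E)) (by rw [hcardF]; exact card_HH E hP)
      (eN E) (eK E) hP.pos_N hP.pos_K (by rw [hcardF]; exact hP.r_large) (hh Y) (by
        rw [hcardF]
        calc ∑ u, hh Y u ^ 2 ≤ ∑ _u : ZMod (eR E) × ZMod (eR E) × ZMod (eR E),
              (eK E : ℤ) ^ 2 := by
              apply Finset.sum_le_sum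
              intro u _
              have h3 := sum_sq_hq_le (g (instS E ph i0 b0 j (toPt u))) {Y}
              rw [Finset.sum_singleton] at h3
              exact h3.trans (hlenK u)
          _ = (eK E : ℤ) ^ 2 * (eR E : ℤ) ^ 3 := by
              rw [Finset.sum_const, Finset.card_univ, hcard3, nsmul_eq_mul]
              push_cast; ring)
      ((Vs.filter fun v => Yf v = Y).image (bP (eR E))) (by
        intro q hq'
        obtain ⟨v, hv, rfl⟩ := Finset.mem_image.1 hq'
        rw [Finset.mem_filter] at hv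
        refine (bP_degree (eR E) v).trans_le ?_
        rw [hlen v hv.1]
        exact_mod_cast hj) (by
        intro q hq'
        obtain ⟨v, hv, rfl⟩ := Finset.mem_image.1 hq'
        rw [Finset.mem_filter] at hv
        rw [hcardF]
        have := hYf v hv.1
        rw [hv.2] at this
        exact this)
    rw [Finset.card_image_of_injOn hinj, hcardF] at hb
    exact hb
  -- sum over the labels
  have hsum : (Vs.card : ℤ) = ∑ Y ∈ Vs.image Yf, ((Vs.filter fun v => Yf v = Y).card : ℤ) := by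
    rw [Finset.card_eq_sum_card_image Yf Vs]
    push_cast
    rfl
  have hmain : (Vs.card : ℤ) * (eR E : ℤ) ^ 3 ≤ (8 * (eK E : ℤ) ^ 4) * (eR E : ℤ) ^ 3 := by
    calc (Vs.card : ℤ) * (eR E : ℤ) ^ 3
        = ∑ Y ∈ Vs.image Yf, ((Vs.filter fun v => Yf v = Y).card : ℤ) * (eR E : ℤ) ^ 3 := by
          rw [hsum, Finset.sum_mul]
      _ ≤ ∑ Y ∈ Vs.image Yf, 8 * (eK E : ℤ) ^ 2 * ∑ u, hh Y u ^ 2 :=
          Finset.sum_le_sum fun Y _ => hone Y
      _ = 8 * (eK E : ℤ) ^ 2 * ∑ u, ∑ Y ∈ Vs.image Yf, hh Y u ^ 2 := by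
          rw [← Finset.mul_sum, Finset.sum_comm]
      _ ≤ 8 * (eK E : ℤ) ^ 2 * ∑ _u : ZMod (eR E) × ZMod (eR E) × ZMod (eR E),
            (eK E : ℤ) ^ 2 := by
          apply mul_le_mul_of_nonneg_left _ (by positivity)
          apply Finset.sum_le_sum
          intro u _
          exact (sum_sq_hq_le (g (instS E ph i0 b0 j (toPt u))) (Vs.image Yf)).trans (hlenK u)
      _ = (8 * (eK E : ℤ) ^ 4) * (eR E : ℤ) ^ 3 := by
          rw [Finset.sum_const, Finset.card_univ, hcard3, nsmul_eq_mul]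
          push_cast; ring
  have hpos : (0 : ℤ) < (eR E : ℤ) ^ 3 := by positivity
  have := le_of_mul_le_mul_right hmain hpos
  exact_mod_cast this

end Pool.Agent.W_d799b0_h82
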