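import Pool.Agent.W_d799b0_h82.SmallB1
import Pool.Agent.W_d799b0_h82.SmallB2

/-!
# The small case: the search succeeds

PROOF.  `search_nodup`: by induction on `j`, the list after `j` steps of the fold in `searchS` has
no duplicates and consists of strings of length `j` (`extL` of a list without duplicates of strings
of length `j` has no duplicates).  `search_mem`: if `a` is isolated by `(i0, b0)` then `a.take j`
belongs to the list after `j` steps: it is in `extL` of the previous list (`a.take (j+1)` is
`a.take j` with one more bit), it satisfies `keep` (`survive`), and the truncation `take (8 K^4)`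
does nothing because the filtered list has no duplicates and, by `keep_card`, at most `8 K ^ 4`
elements.  `small_of_few`: `isolate`, `search_mem` with `j = n'`, and `V x a = true`.
`small_sound`: all strings in `searchS` have length `n'`.
-/

set_option autoImplicit false

namespace Pool.Agent.W_d799b0_h82

theorem mem_extL (L : List (List Bool)) (w : List Bool) :
    w ∈ extL L ↔ ∃ v ∈ L, ∃ b, w = v ++ [b] := by
  simp only [extL, List.mem_flatMap, List.mem_cons, List.not_mem_nil, or_false]
  constructor
  · rintro ⟨v, hv, h | h⟩
    · exact ⟨v, hv, false, h⟩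
    · exact ⟨v, hv, true, h⟩
  · rintro ⟨v, hv, b, h⟩
    cases b
    · exact ⟨v, hv, Or.inl h⟩
    · exact ⟨v, hv, Or.inr h⟩

theorem nodup_extL (L : List (List Bool)) (h : L.Nodup) : (extL L).Nodup := by
  unfold extL
  rw [List.nodup_flatMap]
  constructor
  · intro v _
    simp
  · refine List.Pairwise.imp ?_ h
    intro a b hab
    simp only [Function.onFun, List.Disjoint]
    intro w h1 h2
    apply hab
    simp only [List.mem_cons, List.not_mem_nil, or_false] at h1 h2
    have e : ∀ (x y : Bool), w = a ++ [x] → w = b ++ [y] → a = b := by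
      intro x y hx hy
      have h3 := hx.symm.trans hy
      exact (List.append_inj' h3 rfl).1
    rcases h1 with h1 | h1 <;> rcases h2 with h2 | h2 <;> exact e _ _ h1 h2

theorem search_inv (g : Inst → List Query) (E : Env) (ph : List (List Seed)) (i0 b0 n : ℕ) :
    ((List.range n).foldl (stepS g E ph i0 b0) [[]]).Nodup ∧
      ∀ v ∈ (List.range n).foldl (stepS g E ph i0 b0) [[]], v.length = n := by
  induction n with
  | zero => simp
  | succ n ih =>
    rw [List.range_succ, List.foldl_append, List.foldl_cons, List.foldl_nil]
    set L := (List.range n).foldl (stepS g E ph i0 b0) [[]]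
    obtain ⟨h1, h2⟩ := ih
    unfold stepS
    constructor
    · exact List.Nodup.sublist (List.take_sublist _ _) ((nodup_extL L h1).filter _)
    · intro v hv
      have h3 := List.mem_of_mem_filter (List.mem_of_mem_take hv)
      obtain ⟨w, hw, b, rfl⟩ := (mem_extL L v).1 h3
      rw [List.length_append, h2 w hw]
      rfl

theorem searchS_length (g : Inst → List Query) (E : Env) (ph : List (List Seed)) (i0 b0 : ℕ)
    (v : List Bool) (hv : v ∈ searchS g E ph i0 b0) : v.length = eN E :=
  (search_inv g E ph i0 b0 (eN E)).2 v hv

theorem small_sound (V : List Bool → List Bool → Bool) (g : Inst → List Query) (E : Env)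
    (ph : List (List Seed)) (h : small V g E ph = true) :
    ∃ B : List Bool, B.length = eN E ∧ V (eX E) B = true := by
  unfold small at h
  simp only [List.any_eq_true] at h
  obtain ⟨i0, _, b0, _, v, hv, hV⟩ := h
  exact ⟨v, searchS_length g E ph i0 b0 v hv, hV⟩

theorem search_mem (V : List Bool → List Bool → Bool) (g : Inst → List Query) (E : Env)
    (S : Set (List Bool)) (R : Finset (List (List Bool))) (hP : Params E)
    (hR : Red V g E S R) (ph : List (List Seed)) (i0 b0 : ℕ) (hb : b0 < eR E)
    (hU : ∀ j ≤ eN E, ∀ u, PtLt (eR E) u → Used E (instS E ph i0 b0 j u))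
    (a : List Bool) (ha : a ∈ D0 V E ph) (hab : bB (eR E) a i0 = b0)
    (huniq : ∀ B0 ∈ D0 V E ph, bB (eR E) B0 i0 = b0 → B0 = a)
    (n : ℕ) (hn : n ≤ eN E) :
    a.take n ∈ (List.range n).foldl (stepS g E ph i0 b0) [[]] := by
  induction n with
  | zero => simp
  | succ n ih =>
    have ih := ih (by omega)
    obtain ⟨h1, h2⟩ := search_inv g E ph i0 b0 n
    rw [List.range_succ, List.foldl_append, List.foldl_cons, List.foldl_nil]
    set L := (List.range n).foldl (stepS g E ph i0 b0) [[]]
    unfold stepS
    set Fl := (extL L).filter (keep (eR E) (eK E) (tabS g E ph i0 b0 (n + 1))) with hFl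
    have hnd : Fl.Nodup := (nodup_extL L h1).filter _
    have hlen : Fl.length ≤ 8 * eK E ^ 4 := by
      rw [← List.toFinset_card_of_nodup hnd]
      apply keep_card V g E S R hP hR ph i0 b0 (n + 1) hn (hU (n + 1) hn)
      · intro v hv
        have h3 := List.mem_of_mem_filter (List.mem_toFinset.1 hv)
        obtain ⟨w, hw, b, rfl⟩ := (mem_extL L v).1 h3
        rw [List.length_append, h2 w hw]
        rfl
      · intro v hv
        exact (List.mem_filter.1 (List.mem_toFinset.1 hv)).2
    rw [List.take_of_length_le hlen, hFl, List.mem_filter]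
    refine ⟨?_, survive V g E S R hP hR ph i0 b0 hb hU a ha hab huniq (n + 1) hn⟩
    rw [mem_extL]
    have hal : n < a.length := by rw [ha.1]; omega
    exact ⟨a.take n, ih, a[n], (List.take_append_getElem hal).symm⟩

theorem small_of_few (V : List Bool → List Bool → Bool) (g : Inst → List Query) (E : Env)
    (S : Set (List Bool)) (R : Finset (List (List Bool))) (hP : Params E)
    (hR : Red V g E S R) (ph : List (List Seed))
    (hU : ∀ i0 < eR E, ∀ b0 < eR E, ∀ j ≤ eN E, ∀ u, PtLt (eR E) u →
      Used E (instS E ph i0 b0 j u))
    (hne : (D0 V E ph).Nonempty) (hlt : (D0 V E ph).ncard < w0 E) :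
    small V g E ph = true := by
  obtain ⟨a, ha, i0, hi0, b0, hb0, hab, huniq⟩ := isolate V E hP ph hne hlt
  have h := search_mem V g E S R hP hR ph i0 b0 hb0 (hU i0 hi0 b0 hb0) a ha hab huniq
    (eN E) le_rfl
  rw [List.take_of_length_le (by rw [ha.1])] at h
  unfold small
  simp only [List.any_eq_true, List.mem_range]
  exact ⟨i0, hi0, b0, hb0, a, h, ha.2.1⟩

end Pool.Agent.W_d799b0_h82
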