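import Pool.Agent.W_d799b0_h82.LargeB
import Pool.Agent.W_d799b0_h82.SeedEx
import Pool.Agent.W_d799b0_h82.SmallC

/-!
# The algorithm is correct

SOUNDNESS: the first component of the state becomes true only if some `small` is true;
`small_sound`.
COMPLETENESS: suppose there is a witness.  Invariant of the loop: either `found = true`, or
`m > 0`, `SInv E ph σ m` and `DD V E ph σ` is not empty, or `m = 0`, `PInv E 1 ph`, `σ = []` and
`D0 V E ph` is not empty.  Start: `ph = []`, `σ = []`, `m = M`: `DD V E [] []` contains the
witness.  Step (`m > 0`, not found): if `(DD V E ph σ).ncard < w0` then `small V g E (σ :: ph)` is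
true by `small_of_few` (`D0_nonempty_iff`, `D0_ncard_le`, `used_instS`).  Otherwise
`DD V E ph (σ ++ [s])` is not empty for `s = pickSeed ..` (`pickSeed_good`, `large_step`), and
`PhOK` is preserved (`phOK_snoc`).  If `(σ ++ [s]).length = m`, the new phase is complete:
`PInv E m ((σ ++ [s]) :: ph)` (`Lens M m (τ :: ph)` is `τ.length = m ∧ Lens M (2 m) ph`), and if
`m ≥ 2`, `m` is even (a power of two, from `lens_length` or `Params.pow_m`) so `m = 2 (m / 2)` and
`SInv` holds with `m / 2`, `σ = []`; `DD V E (τ :: ph) []` is not empty because it contains the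
string of symbols.  If `m = 1` the new value is `0` and `PInv E 1 (τ :: ph)`; `D0` is not empty.
The number of steps: every step with `m > 0` adds a seed, so after `2 M` steps `m = 0`
(`lens_sum`: the total number of seeds is at most `2 M - 1`).
END: `small V g E ph` is true by `small_of_few`: `(D0 V E ph).ncard ≤ 2 ^ (2 e) < w0`
(`D0_ncard_le_pow` with `k = 1`, `Params.pow_lt_w0`, `used_instS_final`).
-/

set_option autoImplicit false

namespace Pool.Agent.W_d799b0_h82

/-- The first component of the state after one step. -/
theorem step_fst (V : List Bool → List Bool → Bool) (g : Inst → List Query) (E : Env) (s : St) :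
    (step V g E s).1 = if s.2.2.2 = 0 then s.1 else (s.1 || small V g E (s.2.2.1 :: s.2.1)) := by
  unfold step
  split_ifs <;> rfl

theorem run_sound (V : List Bool → List Bool → Bool) (g : Inst → List Query) (E : Env)
    (h : run V g E = true) : ∃ B : List Bool, B.length = eN E ∧ V (eX E) B = true := by
  have key : ∀ (t : ℕ) (s : St), ((step V g E)^[t] s).1 = true →
      s.1 = true ∨ ∃ B : List Bool, B.length = eN E ∧ V (eX E) B = true := by
    intro t
    induction t with
    | zero => intro s hs; exact Or.inl hs
    | succ t ih =>
      intro s hs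
      rw [Function.iterate_succ_apply] at hs
      rcases ih _ hs with h1 | h1
      · rw [step_fst] at h1
        split_ifs at h1 with h0
        · exact Or.inl h1
        · rw [Bool.or_eq_true] at h1
          rcases h1 with h1 | h1
          · exact Or.inl h1
          · exact Or.inr (small_sound V g E _ h1)
      · exact Or.inr h1
  unfold run at h
  rw [Bool.or_eq_true] at h
  rcases h with h | h
  · rcases key _ _ h with h1 | h1
    · exact absurd h1 (by simp)
    · exact h1
  · exact small_sound V g E _ h

/-- The invariant of the main loop after `t` steps, if there is a witness. -/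
def LInv (V : List Bool → List Bool → Bool) (E : Env) (t : ℕ) (s : St) : Prop :=
  s.1 = true ∨
    (SInv E s.2.1 s.2.2.1 s.2.2.2 ∧ (DD V E s.2.1 s.2.2.1).Nonempty ∧
      (s.2.1.map List.length).sum + s.2.2.1.length = t) ∨
    (s.2.2.2 = 0 ∧ PInv E 1 s.2.1 ∧ (D0 V E s.2.1).Nonempty)

theorem phOK_nil (r w : ℕ) : PhOK r w [] := by
  refine ⟨?_, ?_, ?_⟩
  · intro s hs; exact absurd hs (by simp)
  · intro s hs; exact absurd hs (by simp)
  · exact List.Pairwise.nil

theorem link_nil (e r : ℕ) (B : List Bool) : link e r [] B [] = true := by
  simp [link]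

/-- If the number of blocks is at least two it is even. -/
theorem SInv.even {E : Env} (hP : Params E) {ph : List (List Seed)} {σ : List Seed} {m : ℕ}
    (h : SInv E ph σ m) (hm : m ≠ 1) : m = 2 * (m / 2) := by
  obtain ⟨P, hP2⟩ := hP.pow_m
  have h1 := lens_length (eM E) (2 * m) ph h.inv.lens
  have h2 : m * 2 ^ ph.length = 2 ^ P := by
    rw [← hP2]
    have : 2 * (m * 2 ^ ph.length) = 2 * eM E := by rw [← h1]; ring
    omega
  have h3 : m ∣ 2 ^ P := ⟨_, h2.symm⟩
  obtain ⟨k, -, hk⟩ := (Nat.dvd_prime_pow Nat.prime_two).1 h3
  rcases k with _ | k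
  · exact absurd (by simpa using hk) hm
  · rw [pow_succ] at hk
    omega

theorem linv_step {V : List Bool → List Bool → Bool} {g : Inst → List Query} {E : Env}
    {S : Set (List Bool)} {R : Finset (List (List Bool))} (hP : Params E)
    (hR : Red V g E S R) {t : ℕ} {s : St} (h : LInv V E t s) :
    LInv V E (t + 1) (step V g E s) := by
  rcases h with h | h | h
  · left
    rw [step_fst]
    split_ifs
    · exact h
    · rw [h, Bool.true_or]
  · obtain ⟨hS, hne, hc⟩ := h
    obtain ⟨fd, ph, σ, m⟩ := s
    simp only at hS hne hc
    have hm0 : m ≠ 0 := by have := hS.pos; omega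
    by_cases hsm : small V g E (σ :: ph) = true
    · left
      rw [step_fst]
      simp only [hm0, if_false, hsm, Bool.or_true]
    · have hw : w0 E ≤ (DD V E ph σ).ncard := by
        by_contra hlt
        rw [not_le] at hlt
        apply hsm
        refine small_of_few V g E S R hP hR (σ :: ph) ?_ ?_ ?_
        · intro i0 hi b0 hb j hj u hu
          exact used_instS E hP ph σ m hS i0 b0 j hi hb hj u hu
        · exact (D0_nonempty_iff V E ph σ).2 hne
        · exact lt_of_le_of_lt (D0_ncard_le V E hP (2 * m) ph hS.inv σ) hlt
      obtain ⟨hg, h1, h2⟩ := pickSeed_good V g E S R hP hR ph σ m hS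
      have hne' := large_step V g E S R hP hR ph σ m hS hw _ hg
      have hok' := phOK_snoc g E ph σ hS.ok _ hg h1 h2
      right
      by_cases hlen : (σ ++ [pickSeed g E ph σ]).length = m
      · have hst : step V g E (fd, (ph, (σ, m))) =
            (fd || small V g E (σ :: ph),
              ((σ ++ [pickSeed g E ph σ]) :: ph, ([], m / 2))) := by
          unfold step
          simp only [hm0, if_false, hlen, if_true]
        rw [hst]
        have hokall : ∀ τ ∈ (σ ++ [pickSeed g E ph σ]) :: ph, PhOK (eR E) (eW E) τ := by
          intro τ hτ
          rw [List.mem_cons] at hτ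
          rcases hτ with rfl | hτ
          · exact hok'
          · exact hS.inv.ok τ hτ
        by_cases hm1 : m = 1
        · right
          refine ⟨?_, ⟨?_, hokall⟩, ?_⟩
          · show m / 2 = 0
            rw [hm1]
          · refine ⟨?_, ?_⟩
            · rw [hlen, hm1]
            · have := hS.inv.lens
              rw [hm1] at this
              exact this
          · exact (D0_nonempty_iff V E ph _).2 hne'
        · left
          have hev := hS.even hP hm1
          have hpos := hS.pos
          refine ⟨⟨?_, ⟨?_, hokall⟩, phOK_nil _ _, ?_⟩, ?_, ?_⟩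
          · show 0 < m / 2
            omega
          · refine ⟨?_, ?_⟩
            · show (σ ++ [pickSeed g E ph σ]).length = 2 * (m / 2)
              rw [hlen]
              exact hev
            · show Lens (eM E) (2 * (2 * (m / 2))) ph
              rw [← hev]
              exact hS.inv.lens
          · show 0 < m / 2
            omega
          · obtain ⟨B, hB, B', hB'⟩ := hne'
            exact ⟨B', ⟨B, hB, hB'⟩, [], link_nil _ _ _⟩
          · show (((σ ++ [pickSeed g E ph σ]) :: ph).map List.length).sum + 0 = t + 1
            rw [List.map_cons, List.sum_cons, List.length_append, List.length_singleton]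
            omega
      · have hst : step V g E (fd, (ph, (σ, m))) =
            (fd || small V g E (σ :: ph), (ph, (σ ++ [pickSeed g E ph σ], m))) := by
          unfold step
          simp only [hm0, if_false, hlen]
        rw [hst]
        left
        refine ⟨⟨hS.pos, hS.inv, hok', ?_⟩, hne', ?_⟩
        · show (σ ++ [pickSeed g E ph σ]).length < m
          have h3 := hS.lt
          rw [List.length_append, List.length_singleton] at hlen ⊢
          omega
        · show (ph.map List.length).sum + (σ ++ [pickSeed g E ph σ]).length = t + 1
          rw [List.length_append, List.length_singleton]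
          omega
  · right; right
    have hst : step V g E s = s := by
      unfold step
      rw [if_pos h.1]
    rw [hst]
    exact h

theorem run_complete (V : List Bool → List Bool → Bool) (g : Inst → List Query) (E : Env)
    (S : Set (List Bool)) (R : Finset (List (List Bool))) (hP : Params E)
    (hR : Red V g E S R) (h : ∃ B : List Bool, B.length = eN E ∧ V (eX E) B = true) :
    run V g E = true := by
  have h0 : LInv V E 0 (false, ([], ([], eM E))) := by
    right; left
    refine ⟨⟨hP.pos_M, ⟨?_, ?_⟩, phOK_nil _ _, ?_⟩, ?_, ?_⟩
    · show 2 * eM E = 2 * eM E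
      rfl
    · intro τ hτ
      exact absurd hτ (by simp)
    · exact hP.pos_M
    · obtain ⟨B, hB1, hB2⟩ := h
      refine ⟨B, ⟨hB1, hB2, ?_⟩, [], link_nil _ _ _⟩
      intro τ hτ
      exact absurd hτ (by simp)
    · rfl
  have hall : ∀ t, LInv V E t ((step V g E)^[t] (false, ([], ([], eM E)))) := by
    intro t
    induction t with
    | zero => exact h0
    | succ t ih =>
      rw [Function.iterate_succ_apply']
      exact linv_step hP hR ih
  have hend : LInv V E (2 * eM E) (loop V g E) := hall (2 * eM E)
  unfold run
  rw [Bool.or_eq_true]
  rcases hend with h1 | ⟨h1, -, h2⟩ | ⟨-, h1, h2⟩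
  · exact Or.inl h1
  · exfalso
    have h3 := lens_sum (eM E) (2 * (loop V g E).2.2.2) (loop V g E).2.1 h1.inv.lens
    have h4 := h1.lt
    have h5 := h1.pos
    omega
  · right
    refine small_of_few V g E S R hP hR _ ?_ h2 ?_
    · intro i0 hi b0 hb j hj u hu
      exact used_instS_final E hP _ h1 i0 b0 j hi hb hj u hu
    · refine lt_of_le_of_lt (D0_ncard_le_pow V E hP 1 _ h1) ?_
      rw [mul_one]
      exact hP.pow_lt_w0

end Pool.Agent.W_d799b0_h82
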