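import Mathlib

/-!
# Pairwise independent samples: the variance

PROOF OF `sample_var`.  Write `r = card F`, `t = card L`, `M = ∑ u, h u`, `Q = ∑ u, h u ^ 2`.
For fixed `l` the map `(α, β) ↦ (α + l β, β)` is a bijection, so
`∑ s, h (s.1 + l s.2) = r ^ 3 * M` and `∑ s, h (s.1 + l s.2) ^ 2 = r ^ 3 * Q`; for `l ≠ l'` the map
`(α, β) ↦ (α + l β, α + l' β)` is a bijection (inverse `β = (x - y) / (l - l')`), so
`∑ s, h (s.1 + l s.2) * h (s.1 + l' s.2) = M ^ 2`.  Hence
`∑ s, (∑ l, h ..) ^ 2 = t r^3 Q + t (t - 1) M^2`, and expanding the square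
`∑ s, (r^3 ∑ l, h .. - t M) ^ 2 = r^6 (t r^3 Q + t (t-1) M^2) - 2 r^3 t M (t r^3 M) + r^6 t^2 M^2
 = r^9 t Q - r^6 t M^2 ≤ r^9 t Q`.
-/

set_option autoImplicit false

open Finset

namespace Pool.Agent.W_d799b0_h82

variable {F : Type} [Field F] [Fintype F] [DecidableEq F]

/-- `(alpha, beta) ↦ (alpha + l beta, alpha + l' beta)` is a bijection for `l ≠ l'`. -/
def sbEquiv (l l' : F) (h : l ≠ l') :
    (F × F × F) × (F × F × F) ≃ (F × F × F) × (F × F × F) where
  toFun s := (s.1 + l • s.2, s.1 + l' • s.2)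
  invFun q := (q.1 - l • ((l - l')⁻¹ • (q.1 - q.2)), (l - l')⁻¹ • (q.1 - q.2))
  left_inv s := by
    have hv : l - l' ≠ 0 := sub_ne_zero.2 h
    have h1 : s.1 + l • s.2 - (s.1 + l' • s.2) = (l - l') • s.2 := by
      rw [sub_smul]; abel
    have h2 : (l - l')⁻¹ • (s.1 + l • s.2 - (s.1 + l' • s.2)) = s.2 := by
      rw [h1, smul_smul, inv_mul_cancel₀ hv, one_smul]
    simp only [h2]
    ext1
    · simp
    · simp
  right_inv q := by
    have hv : l - l' ≠ 0 := sub_ne_zero.2 h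
    ext1
    · simp
    · simp only
      have h1 : (l - l') • ((l - l')⁻¹ • (q.1 - q.2)) = q.1 - q.2 := by
        rw [smul_smul, mul_inv_cancel₀ hv, one_smul]
      have h2 : l • ((l - l')⁻¹ • (q.1 - q.2)) - l' • ((l - l')⁻¹ • (q.1 - q.2))
          = q.1 - q.2 := by rw [← sub_smul]; exact h1
      have h3 : q.1 - l • ((l - l')⁻¹ • (q.1 - q.2)) + l' • ((l - l')⁻¹ • (q.1 - q.2))
          = q.1 - (l • ((l - l')⁻¹ • (q.1 - q.2)) - l' • ((l - l')⁻¹ • (q.1 - q.2))) := by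
        abel
      rw [h3, h2]; abel

lemma sb_card : Fintype.card (F × F × F) = Fintype.card F ^ 3 := by
  simp only [Fintype.card_prod]; ring

lemma sb_one (g : F × F × F → ℤ) (l : F) :
    ∑ s : (F × F × F) × (F × F × F), g (s.1 + l • s.2)
      = (Fintype.card F : ℤ) ^ 3 * ∑ u, g u := by
  rw [Fintype.sum_prod_type_right]
  have h : ∀ β : F × F × F, ∑ α : F × F × F, g (α + l • β) = ∑ u, g u := fun β =>
    Fintype.sum_equiv (Equiv.addRight (l • β)) _ _ (fun α => rfl)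
  simp only [h, Finset.sum_const, Finset.card_univ, sb_card, nsmul_eq_mul]
  push_cast; ring

lemma sb_two (g g' : F × F × F → ℤ) (l l' : F) (h : l ≠ l') :
    ∑ s : (F × F × F) × (F × F × F), g (s.1 + l • s.2) * g' (s.1 + l' • s.2)
      = (∑ u, g u) * ∑ u, g' u := by
  rw [Finset.sum_mul_sum, ← Fintype.sum_prod_type']
  exact Fintype.sum_equiv (sbEquiv l l' h) _ _ (fun s => rfl)

/-- The variance of the sample `α + l β`, `l ∈ L`. -/
theorem sample_var (h : F × F × F → ℤ) (L : Finset F) :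
    ∑ s : (F × F × F) × (F × F × F),
      ((Fintype.card F : ℤ) ^ 3 * ∑ l ∈ L, h (s.1 + l • s.2) - L.card * ∑ u, h u) ^ 2 ≤
      (Fintype.card F : ℤ) ^ 9 * L.card * ∑ u, h u ^ 2 := by
  classical
  set H := ∑ u, h u with hH
  set r : ℕ := Fintype.card F with hr
  let g : F × F × F → ℤ := fun u => r ^ 3 * h u - H
  have hcardU : Fintype.card (F × F × F) = r ^ 3 := sb_card
  have hg0 : ∑ u, g u = 0 := by
    simp only [g]
    rw [Finset.sum_sub_distrib, ← Finset.mul_sum, Finset.sum_const, Finset.card_univ, hcardU,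
      nsmul_eq_mul, ← hH]
    push_cast; ring
  have hg2 : ∑ u, g u * g u ≤ r ^ 6 * ∑ u, h u ^ 2 := by
    have h1 : ∀ u, g u * g u = r ^ 6 * h u ^ 2 - 2 * r ^ 3 * H * h u + H ^ 2 := fun u => by
      simp only [g]; ring
    simp only [h1]
    rw [Finset.sum_add_distrib, Finset.sum_sub_distrib, ← Finset.mul_sum, ← Finset.mul_sum,
      Finset.sum_const, Finset.card_univ, hcardU, nsmul_eq_mul, ← hH]
    have h2 : 0 ≤ (r : ℤ) ^ 3 * H ^ 2 := by positivity
    push_cast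
    nlinarith
  have hre : ∀ s : (F × F × F) × (F × F × F),
      (r : ℤ) ^ 3 * ∑ l ∈ L, h (s.1 + l • s.2) - L.card * H = ∑ l ∈ L, g (s.1 + l • s.2) := by
    intro s
    simp only [g]
    rw [Finset.sum_sub_distrib, ← Finset.mul_sum, Finset.sum_const, nsmul_eq_mul]
  simp only [hre]
  have hsq : ∀ s : (F × F × F) × (F × F × F), (∑ l ∈ L, g (s.1 + l • s.2)) ^ 2
      = ∑ l ∈ L, ∑ l' ∈ L, g (s.1 + l • s.2) * g (s.1 + l' • s.2) := by
    intro s; rw [sq, Finset.sum_mul_sum]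
  simp only [hsq]
  rw [Finset.sum_comm]
  have h3 : ∀ l ∈ L, ∑ s : (F × F × F) × (F × F × F), ∑ l' ∈ L,
      g (s.1 + l • s.2) * g (s.1 + l' • s.2) ≤ r ^ 3 * (r ^ 6 * ∑ u, h u ^ 2) := by
    intro l hl
    rw [Finset.sum_comm]
    have h4 : ∀ l' ∈ L, ∑ s : (F × F × F) × (F × F × F),
        g (s.1 + l • s.2) * g (s.1 + l' • s.2)
        = if l' = l then (r : ℤ) ^ 3 * ∑ u, g u * g u else 0 := by
      intro l' hl'
      by_cases e : l' = l
      · subst e
        rw [if_pos rfl]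
        exact sb_one (fun u => g u * g u) l'
      · rw [if_neg e, sb_two g g l l' (fun e' => e e'.symm), hg0, zero_mul]
    rw [Finset.sum_congr rfl h4, Finset.sum_ite_eq' L l, if_pos hl]
    exact mul_le_mul_of_nonneg_left hg2 (by positivity)
  refine (Finset.sum_le_sum h3).trans ?_
  rw [Finset.sum_const, nsmul_eq_mul]
  have : (L.card : ℤ) * (r ^ 3 * (r ^ 6 * ∑ u, h u ^ 2))
      = r ^ 9 * L.card * ∑ u, h u ^ 2 := by ring
  rw [this]

end Pool.Agent.W_d799b0_h82
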