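import Pool.Agent.W_d799b0_h82.CountB1
import Pool.Agent.W_d799b0_h82.CountB2

/-!
# Existence of a good seed

PROOF.  There are `r ^ 6` seeds, `r = card F`.  By `bad_eval` and `h1` at most `r^6 / 8` violate
the first condition, by `bad_mult` and `h2` at most `r^6 / 8` the second one.  Let
`X Y s = r^3 ∑ l ∈ L, h Y (s.1 + l • s.2) - card L * ∑ u, h Y u`.  If `s` violates the third
condition for the label `Y` then `(4 K X Y s)^2 > (card L * r^3)^2`, hence the number of those `s`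
is at most `16 K^2 ∑ s, X Y s ^ 2 / ((card L)^2 r^6) ≤ 16 K^2 r^3 (∑ u, h Y u ^ 2) / card L` by
`sample_var`.  Summation over `Y ∈ Lab`, exchange of the sums and `hsq` give at most
`16 K^4 r^6 / card L ≤ r^6 / 4` violating seeds.  In total fewer than `r ^ 6` seeds are bad.
(Work with natural numbers or integers multiplied by `card L`; `card L > 0` by `hL`.)
-/

set_option autoImplicit false

open Finset

namespace Pool.Agent.W_d799b0_h82

variable {F : Type} [Field F] [Fintype F] [DecidableEq F]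

/-- number of seeds with an inaccurate label -/
lemma card_inacc {ι : Type} (Lab : Finset ι) (h : ι → F × F × F → ℤ)
    (L : Finset F) (K : ℕ) (hsq : ∀ u, ∑ Y ∈ Lab, h Y u ^ 2 ≤ (K : ℤ) ^ 2) :
    ((univ : Finset ((F × F × F) × (F × F × F))).filter fun s => ∃ Y ∈ Lab,
      (L.card : ℤ) * (Fintype.card F : ℤ) ^ 3 <
        4 * (K : ℤ) * |(Fintype.card F : ℤ) ^ 3 * ∑ l ∈ L, h Y (s.1 + l • s.2) -
        L.card * ∑ u, h Y u|).card * L.card ≤ 16 * K ^ 4 * Fintype.card F ^ 6 := by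
  classical
  rcases Nat.eq_zero_or_pos L.card with h0 | hpos
  · rw [h0, Nat.mul_zero]; exact Nat.zero_le _
  set r : ℕ := Fintype.card F with hr
  have hr0 : 0 < (r : ℤ) := by exact_mod_cast Fintype.card_pos
  set t : ℤ := (L.card : ℤ) with ht
  set E : ι → (F × F × F) × (F × F × F) → ℤ := fun Y s =>
    (r : ℤ) ^ 3 * ∑ l ∈ L, h Y (s.1 + l • s.2) - t * ∑ u, h Y u with hE
  set B : ι → Finset ((F × F × F) × (F × F × F)) := fun Y =>
    univ.filter fun s => t * (r : ℤ) ^ 3 < 4 * (K : ℤ) * |E Y s| with hB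
  have hsub : ((univ : Finset ((F × F × F) × (F × F × F))).filter fun s => ∃ Y ∈ Lab,
      t * (r : ℤ) ^ 3 < 4 * (K : ℤ) * |E Y s|) ⊆ Lab.biUnion B := by
    intro s hs
    obtain ⟨Y, hY, h1⟩ := (Finset.mem_filter.1 hs).2
    exact Finset.mem_biUnion.2 ⟨Y, hY, Finset.mem_filter.2 ⟨Finset.mem_univ _, h1⟩⟩
  have hone : ∀ Y ∈ Lab, ((B Y).card : ℤ) * (t * r ^ 3) ^ 2
      ≤ 16 * K ^ 2 * (r ^ 9 * t * ∑ u, h Y u ^ 2) := by
    intro Y _
    have h2 : ∑ s ∈ B Y, (t * (r : ℤ) ^ 3) ^ 2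
        ≤ ∑ s : (F × F × F) × (F × F × F), 16 * (K : ℤ) ^ 2 * E Y s ^ 2 := by
      calc ∑ s ∈ B Y, (t * (r : ℤ) ^ 3) ^ 2
          ≤ ∑ s ∈ B Y, 16 * (K : ℤ) ^ 2 * E Y s ^ 2 := by
            refine Finset.sum_le_sum fun s hs => ?_
            have h3 := (Finset.mem_filter.1 hs).2
            have h4 : (0 : ℤ) ≤ t * r ^ 3 := by positivity
            have h5 : (t * (r : ℤ) ^ 3) ^ 2 ≤ (4 * (K : ℤ) * |E Y s|) ^ 2 :=
              pow_le_pow_left₀ h4 (le_of_lt h3) 2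
            calc (t * (r : ℤ) ^ 3) ^ 2 ≤ (4 * (K : ℤ) * |E Y s|) ^ 2 := h5
              _ = 16 * (K : ℤ) ^ 2 * |E Y s| ^ 2 := by ring
              _ = 16 * (K : ℤ) ^ 2 * E Y s ^ 2 := by rw [sq_abs]
        _ ≤ _ := Finset.sum_le_sum_of_subset_of_nonneg (Finset.subset_univ _)
            (fun s _ _ => by positivity)
    rw [Finset.sum_const, nsmul_eq_mul, ← Finset.mul_sum] at h2
    refine h2.trans (mul_le_mul_of_nonneg_left ?_ (by positivity))
    exact sample_var (h Y) L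
  have hsum2 : ∑ Y ∈ Lab, ∑ u, h Y u ^ 2 ≤ (K : ℤ) ^ 2 * r ^ 3 := by
    rw [Finset.sum_comm]
    refine (Finset.sum_le_sum fun u _ => hsq u).trans ?_
    rw [Finset.sum_const, Finset.card_univ, sb_card, nsmul_eq_mul]
    push_cast
    exact le_of_eq (by ring)
  set N := ((univ : Finset ((F × F × F) × (F × F × F))).filter fun s => ∃ Y ∈ Lab,
      t * (r : ℤ) ^ 3 < 4 * (K : ℤ) * |E Y s|).card with hN
  have hN1 : (N : ℤ) ≤ ∑ Y ∈ Lab, ((B Y).card : ℤ) := by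
    have h9 := (Finset.card_le_card hsub).trans Finset.card_biUnion_le
    exact_mod_cast h9
  have hN2 : (N : ℤ) * (t * r ^ 3) ^ 2 ≤ 16 * K ^ 2 * (r ^ 9 * t * (K ^ 2 * r ^ 3)) := by
    calc (N : ℤ) * (t * r ^ 3) ^ 2
        ≤ (∑ Y ∈ Lab, ((B Y).card : ℤ)) * (t * r ^ 3) ^ 2 :=
          mul_le_mul_of_nonneg_right hN1 (by positivity)
      _ = ∑ Y ∈ Lab, ((B Y).card : ℤ) * (t * r ^ 3) ^ 2 := by rw [Finset.sum_mul]
      _ ≤ ∑ Y ∈ Lab, 16 * (K : ℤ) ^ 2 * (r ^ 9 * t * ∑ u, h Y u ^ 2) :=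
          Finset.sum_le_sum hone
      _ = 16 * K ^ 2 * (r ^ 9 * t * ∑ Y ∈ Lab, ∑ u, h Y u ^ 2) := by
          rw [← Finset.mul_sum, ← Finset.mul_sum]
      _ ≤ _ := by
          refine mul_le_mul_of_nonneg_left (mul_le_mul_of_nonneg_left hsum2 (by positivity))
            (by positivity)
  have hfin : (t * (r : ℤ) ^ 6) * (N * t) ≤ (t * r ^ 6) * (16 * K ^ 4 * r ^ 6) := by
    calc (t * (r : ℤ) ^ 6) * (N * t) = (N : ℤ) * (t * r ^ 3) ^ 2 := by ring
      _ ≤ _ := hN2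
      _ = _ := by ring
  have ht1 : (0 : ℤ) < t := by rw [ht]; exact_mod_cast hpos
  have hdone : (N : ℤ) * t ≤ 16 * K ^ 4 * r ^ 6 :=
    le_of_mul_le_mul_left hfin (by positivity)
  rw [ht] at hdone
  exact_mod_cast hdone

/-- There is a seed with new evaluation points and nonvanishing multipliers for which the sample
is accurate for all labels. -/
theorem exists_seed {ι : Type} [DecidableEq ι] (Lab : Finset ι) (h : ι → F × F × F → ℤ)
    (L U : Finset F) (K : ℕ) (hK : 0 < K)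
    (hsq : ∀ u, ∑ Y ∈ Lab, h Y u ^ 2 ≤ (K : ℤ) ^ 2)
    (hL : 64 * K ^ 4 ≤ L.card) (h1 : 8 * L.card * U.card ≤ Fintype.card F)
    (h2 : 8 * L.card ≤ Fintype.card F) :
    ∃ s : (F × F × F) × (F × F × F), (∀ l ∈ L, s.1.1 + l * s.2.1 ∉ U) ∧
      (∀ l ∈ L, s.1.2.1 + l * s.2.2.1 ≠ 0) ∧
      ∀ Y ∈ Lab, 4 * (K : ℤ) * |(Fintype.card F : ℤ) ^ 3 * ∑ l ∈ L, h Y (s.1 + l • s.2) -
        L.card * ∑ u, h Y u| ≤ L.card * (Fintype.card F : ℤ) ^ 3 := by
  classical
  set r : ℕ := Fintype.card F with hr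
  have hr0 : 0 < r := Fintype.card_pos
  have ht1 : 0 < L.card := by
    have : 0 < 64 * K ^ 4 := by positivity
    omega
  set B1 : Finset ((F × F × F) × (F × F × F)) :=
    univ.filter fun s => ∃ l ∈ L, s.1.1 + l * s.2.1 ∈ U with hB1
  set B2 : Finset ((F × F × F) × (F × F × F)) :=
    univ.filter fun s => ∃ l ∈ L, s.1.2.1 + l * s.2.2.1 = 0 with hB2
  set B3 : Finset ((F × F × F) × (F × F × F)) :=
    univ.filter fun s => ∃ Y ∈ Lab, (L.card : ℤ) * (r : ℤ) ^ 3 <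
        4 * (K : ℤ) * |(r : ℤ) ^ 3 * ∑ l ∈ L, h Y (s.1 + l • s.2) -
        L.card * ∑ u, h Y u| with hB3
  have hb1 : 8 * B1.card ≤ r ^ 6 := by
    calc 8 * B1.card ≤ 8 * (L.card * U.card * r ^ 5) := Nat.mul_le_mul_left _ (bad_eval L U)
      _ = (8 * L.card * U.card) * r ^ 5 := by ring
      _ ≤ r * r ^ 5 := Nat.mul_le_mul_right _ h1
      _ = r ^ 6 := by ring
  have hb2 : 8 * B2.card ≤ r ^ 6 := by
    calc 8 * B2.card ≤ 8 * (L.card * r ^ 5) := Nat.mul_le_mul_left _ (bad_mult L)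
      _ = (8 * L.card) * r ^ 5 := by ring
      _ ≤ r * r ^ 5 := Nat.mul_le_mul_right _ h2
      _ = r ^ 6 := by ring
  have hb3 : 4 * B3.card ≤ r ^ 6 := by
    have h5 : B3.card * L.card ≤ 16 * K ^ 4 * r ^ 6 := card_inacc Lab h L K hsq
    have h6 : (4 * B3.card) * L.card ≤ r ^ 6 * L.card := by
      calc (4 * B3.card) * L.card = 4 * (B3.card * L.card) := by ring
        _ ≤ 4 * (16 * K ^ 4 * r ^ 6) := Nat.mul_le_mul_left _ h5
        _ = (64 * K ^ 4) * r ^ 6 := by ring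
        _ ≤ L.card * r ^ 6 := Nat.mul_le_mul_right _ hL
        _ = r ^ 6 * L.card := by ring
    exact Nat.le_of_mul_le_mul_right h6 ht1
  have hcard : (B1 ∪ B2 ∪ B3).card < Fintype.card ((F × F × F) × (F × F × F)) := by
    have h7 : Fintype.card ((F × F × F) × (F × F × F)) = r ^ 6 := by
      simp only [Fintype.card_prod]; ring
    rw [h7]
    have h8 : (B1 ∪ B2 ∪ B3).card ≤ B1.card + B2.card + B3.card :=
      (Finset.card_union_le _ _).trans (Nat.add_le_add_right (Finset.card_union_le _ _) _)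
    have h9 : 0 < r ^ 6 := by positivity
    omega
  obtain ⟨s, hs⟩ : ∃ s, s ∉ B1 ∪ B2 ∪ B3 := by
    by_contra hcon
    push Not at hcon
    have : B1 ∪ B2 ∪ B3 = Finset.univ := Finset.eq_univ_iff_forall.2 hcon
    rw [this, Finset.card_univ] at hcard
    exact lt_irrefl _ hcard
  rw [Finset.mem_union, Finset.mem_union] at hs
  push Not at hs
  obtain ⟨⟨hs1, hs2⟩, hs3⟩ := hs
  refine ⟨s, fun l hl hm => hs1 ?_, fun l hl hm => hs2 ?_, fun Y hY => ?_⟩
  · exact Finset.mem_filter.2 ⟨Finset.mem_univ _, l, hl, hm⟩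
  · exact Finset.mem_filter.2 ⟨Finset.mem_univ _, l, hl, hm⟩
  · by_contra hcon
    push Not at hcon
    exact hs3 (Finset.mem_filter.2 ⟨Finset.mem_univ _, Y, hY, hcon⟩)

end Pool.Agent.W_d799b0_h82
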