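import Mathlib

/-!
# Almost orthogonal tests

PROOFS.  `∑ x : F, (if x ∈ H then 1 else -1) = card H - (card F - card H) = 1`.
`sg_sum`: for fixed `i, c` the sum over `d` of `sg` is this sum (shift by `c v(i)`), so the total is
`r ^ 2`.
`sg_orth`: for fixed `i`: if `v(i) = v'(i)` the sum over `(c, d)` of the product is `r ^ 2` (all
terms are 1), and there are fewer than `m` such `i` because `v - v' ≠ 0` has degree `< m`
(`Polynomial.card_roots'`).  If `v(i) ≠ v'(i)`, the map `(c, d) ↦ (c v(i) + d, c v'(i) + d)` is a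
bijection of `F × F`, so the sum over `(c, d)` is `(∑ x, ±1) * (∑ y, ±1) = 1`.  Total at most
`m r^2 + r`.
-/

set_option autoImplicit false

open Finset Polynomial

namespace Pool.Agent.W_d799b0_h82

variable {F : Type} [Field F] [Fintype F] [DecidableEq F]

lemma c1_sum_ind (H : Finset F) (hH : 2 * H.card = Fintype.card F + 1) :
    ∑ x : F, (if x ∈ H then (1 : ℤ) else -1) = 1 := by
  have h1 : ∀ x : F, (if x ∈ H then (1 : ℤ) else -1) = 2 * (if x ∈ H then 1 else 0) - 1 := by
    intro x; split_ifs <;> norm_num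
  simp only [h1]
  rw [Finset.sum_sub_distrib, ← Finset.mul_sum, Finset.sum_ite_mem, Finset.univ_inter,
    Finset.sum_const, Finset.sum_const, Finset.card_univ, nsmul_eq_mul, nsmul_eq_mul]
  have h2 : (2 * (H.card : ℤ)) = Fintype.card F + 1 := by exact_mod_cast hH
  linarith

lemma c1_sum_pair_one (f : F → ℤ) (v : F) :
    ∑ p : F × F, f (p.1 * v + p.2) = Fintype.card F * ∑ x, f x := by
  rw [Fintype.sum_prod_type]
  have h : ∀ c : F, ∑ d : F, f (c * v + d) = ∑ x, f x := fun c =>
    Fintype.sum_equiv (Equiv.addLeft (c * v)) _ _ (fun d => rfl)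
  simp only [h, Finset.sum_const, Finset.card_univ, nsmul_eq_mul]

/-- `(c, d) ↦ (c v + d, c v' + d)` is a bijection for `v ≠ v'`. -/
def c1PairEquiv (v v' : F) (h : v ≠ v') : F × F ≃ F × F where
  toFun p := (p.1 * v + p.2, p.1 * v' + p.2)
  invFun q := ((q.1 - q.2) / (v - v'), q.1 - (q.1 - q.2) / (v - v') * v)
  left_inv p := by
    have hv : v - v' ≠ 0 := sub_ne_zero.2 h
    have h1 : (p.1 * v + p.2 - (p.1 * v' + p.2)) / (v - v') = p.1 := by
      rw [div_eq_iff hv]; ring
    simp only [h1]
    ext <;> simp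
  right_inv q := by
    have hv : v - v' ≠ 0 := sub_ne_zero.2 h
    ext
    · simp
    · have h1 : (q.1 - q.2) / (v - v') * (v - v') = q.1 - q.2 := div_mul_cancel₀ _ hv
      simp only
      linear_combination (-1 : F) * h1

lemma c1_sum_pair_two (f g : F → ℤ) (v v' : F) (h : v ≠ v') :
    ∑ p : F × F, f (p.1 * v + p.2) * g (p.1 * v' + p.2)
      = (∑ x, f x) * ∑ x, g x := by
  rw [Finset.sum_mul_sum, ← Fintype.sum_prod_type']
  exact Fintype.sum_equiv (c1PairEquiv v v' h) _ _ (fun p => rfl)

lemma c1_sum_U (G : F × F × F → ℤ) :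
    ∑ u : F × F × F, G u = ∑ i : F, ∑ p : F × F, G (i, p.1, p.2) := by
  rw [Fintype.sum_prod_type]

/-- polynomials of degree `< m` agree at most at `m` points -/
lemma c1_agree (m : ℕ) (z z' : F[X]) (hz : z.degree < m) (hz' : z'.degree < m) (hne : z ≠ z') :
    (univ.filter fun i : F => z.eval i = z'.eval i).card ≤ m := by
  have h0 : z - z' ≠ 0 := sub_ne_zero.2 hne
  have h1 : (univ.filter fun i : F => z.eval i = z'.eval i) ⊆ (z - z').roots.toFinset := by
    intro i hi
    rw [Multiset.mem_toFinset, mem_roots h0, IsRoot.def, eval_sub]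
    exact sub_eq_zero.2 (Finset.mem_filter.1 hi).2
  have h2 : (z - z').degree < m := lt_of_le_of_lt (degree_sub_le _ _) (max_lt hz hz')
  have h3 : (z - z').natDegree < m := (natDegree_lt_iff_degree_lt h0).2 h2
  calc _ ≤ (z - z').roots.toFinset.card := Finset.card_le_card h1
    _ ≤ Multiset.card (z - z').roots := Multiset.toFinset_card_le _
    _ ≤ (z - z').natDegree := card_roots' _
    _ ≤ m := h3.le

/-- The sign of the test given by the point `u` on the polynomial `v`. -/
def sg (H : Finset F) (v : F[X]) (u : F × F × F) : ℤ :=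
  if u.2.1 * v.eval u.1 + u.2.2 ∈ H then 1 else -1

theorem sg_sum (H : Finset F) (hH : 2 * H.card = Fintype.card F + 1) (v : F[X]) :
    ∑ u, sg H v u = (Fintype.card F : ℤ) ^ 2 := by
  rw [c1_sum_U]
  have h1 : ∀ i : F, ∑ p : F × F, sg H v (i, p.1, p.2) = Fintype.card F := by
    intro i
    have h2 := c1_sum_pair_one (fun x => if x ∈ H then (1 : ℤ) else -1) (v.eval i)
    rw [c1_sum_ind H hH, mul_one] at h2
    exact h2
  simp only [h1, Finset.sum_const, Finset.card_univ, nsmul_eq_mul]
  ring

theorem sg_orth (H : Finset F) (hH : 2 * H.card = Fintype.card F + 1) (m : ℕ) (v v' : F[X])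
    (hv : v.degree < m) (hv' : v'.degree < m) (hne : v ≠ v') :
    ∑ u, sg H v u * sg H v' u ≤ (m : ℤ) * (Fintype.card F : ℤ) ^ 2 + Fintype.card F := by
  rw [c1_sum_U]
  have key : ∀ i : F, ∑ p : F × F, sg H v (i, p.1, p.2) * sg H v' (i, p.1, p.2)
      ≤ 1 + (if v.eval i = v'.eval i then (Fintype.card F : ℤ) ^ 2 else 0) := by
    intro i
    by_cases h : v.eval i = v'.eval i
    · rw [if_pos h]
      have h1 : ∀ p : F × F, sg H v (i, p.1, p.2) * sg H v' (i, p.1, p.2) = 1 := by
        intro p
        unfold sg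
        simp only
        rw [← h]
        split_ifs <;> norm_num
      simp only [h1, Finset.sum_const, Finset.card_univ, nsmul_eq_mul, Fintype.card_prod]
      push_cast
      nlinarith
    · rw [if_neg h, add_zero]
      have h2 := c1_sum_pair_two (fun x => if x ∈ H then (1 : ℤ) else -1)
        (fun x => if x ∈ H then (1 : ℤ) else -1) (v.eval i) (v'.eval i) h
      rw [c1_sum_ind H hH, mul_one] at h2
      exact le_of_eq h2
  refine (Finset.sum_le_sum fun i _ => key i).trans ?_
  rw [Finset.sum_add_distrib, Finset.sum_const, Finset.card_univ, nsmul_eq_mul, mul_one,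
    ← Finset.sum_filter, Finset.sum_const, nsmul_eq_mul]
  have h4 : (((univ.filter fun i : F => v.eval i = v'.eval i).card : ℕ) : ℤ) ≤ m := by
    exact_mod_cast c1_agree m v v' hv hv' hne
  have h5 : 0 ≤ (Fintype.card F : ℤ) ^ 2 := by positivity
  nlinarith

end Pool.Agent.W_d799b0_h82
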