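import Pool.Agent.W_d799b0_h82.Alg

/-!
# Invariants
-/

set_option autoImplicit false

namespace Pool.Agent.W_d799b0_h82

/-- The string `B` is reached from the witness `B0` through the phases. -/
def Reach (e r : ℕ) : List (List Seed) → List Bool → List Bool → Prop
  | [], B0, B => B = B0
  | σ :: ph, B0, B' => ∃ B, Reach e r ph B0 B ∧ link e r σ B B' = true

/-- All witnesses from which some string is reached through the phases. -/
def D0 (V : List Bool → List Bool → Bool) (E : Env) (ph : List (List Seed)) : Set (List Bool) :=
  {B0 | B0.length = eN E ∧ V (eX E) B0 = true ∧ ∃ B, Reach (eE E) (eR E) ph B0 B}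

/-- The strings reached through the complete phases `ph` for which there are symbols for the
current phase `σ`. -/
def DD (V : List Bool → List Bool → Bool) (E : Env) (ph : List (List Seed)) (σ : List Seed) :
    Set (List Bool) :=
  {B | Ch V (hdE E) [] ph B ∧ ∃ B', link (eE E) (eR E) σ B B' = true}

/-- The bound that separates the small from the large case. -/
def w0 (E : Env) : ℕ := eR E / eN E

/-- The seeds of a phase: the multipliers do not vanish, the evaluation points of different seeds
are different, and all numbers are less than `r`. -/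
def PhOK (r w : ℕ) (σ : List Seed) : Prop :=
  (∀ s ∈ σ, PtLt r s.1 ∧ PtLt r s.2) ∧ (∀ s ∈ σ, ∀ l < w, pC r s l ≠ 0) ∧
    σ.Pairwise fun s s' => ∀ l < w, ∀ l' < w, pI r s l ≠ pI r s' l'

/-- `Lens M k ph`: the phases `ph` are complete and the strings reached through them have
`2 e k` bits; the witnesses have `4 e M` bits. -/
def Lens (M : ℕ) : ℕ → List (List Seed) → Prop
  | k, [] => k = 2 * M
  | k, τ :: ph => τ.length = k ∧ Lens M (2 * k) ph

/-- The invariant of the main loop for complete phases. -/
structure PInv (E : Env) (k : ℕ) (ph : List (List Seed)) : Prop where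
  lens : Lens (eM E) k ph
  ok : ∀ τ ∈ ph, PhOK (eR E) (eW E) τ

/-- The difference of the number of positive and negative queries with label `Y`. -/
def hq (L : List Query) (Y : List (List Bool)) : ℤ :=
  (L.count (true, Y) : ℤ) - L.count (false, Y)

/-- A point of `F ^ 3` as a triple of numbers. -/
def toPt {r : ℕ} (u : ZMod r × ZMod r × ZMod r) : Pt := (⟨u.1.val⟩, ⟨u.2.1.val⟩, ⟨u.2.2.val⟩)

/-- A seed given by two points of `F ^ 3`. -/
def toSeed {r : ℕ} (s : (ZMod r × ZMod r × ZMod r) × (ZMod r × ZMod r × ZMod r)) : Seed :=
  (toPt s.1, toPt s.2)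

end Pool.Agent.W_d799b0_h82
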