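import Pool.Agent.W_d799b0_h82.LargeA
import Pool.Agent.W_d799b0_h82.HqA

/-!
# The large case: a good seed keeps the set nonempty

PROOF OF `large_step` (Claim 1).  Let `F = ZMod r` and `Bad` be as in `few_bad`.  By `Red`: the
weight of `g (instL ..)` is `≥ 1` if `Theta` holds, and always `≥ -K` (`neg_le_weight`, `len`,
`used_instL`, `toPt_lt`); so the sum `W` of the weights over the `r ^ 3` points satisfies
`W ≥ (r^3 - N) - K N ≥ r^3 - 2 K N ≥ r ^ 3 / 2`, `N = card Bad`, i.e. `2 W ≥ r ^ 3`.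
`W = weight S (allQ g E ph σ)` (`weight_flatMap`, `sum_pts`) `= ∑ Y ∈ R, hq (allQ ..) Y`
(`weight_eq_sum`); the same for the sample: `Ws = weight S (smpQ ..) = ∑ Y ∈ R, hq (smpQ ..) Y`.
Accuracy (`accOK_iff`; for labels not occurring in `allQ` both sides are zero by `hq_of_not_mem`,
because the points of the sample belong to `pts r`, `pt_lt`, `mem_pts`):
`4 K |r^3 hq(smpQ) Y - w hq(allQ) Y| ≤ w r^3` for all `Y ∈ R`;
summing over the at most `K` elements of `R`: `4 K |r^3 Ws - w W| ≤ K w r^3`, so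
`4 r^3 Ws ≥ 4 w W - w r^3 ≥ 2 w r^3 - w r^3 > 0` and `Ws > 0`.  So for some `l < w` the weight of
`g (instL E ph σ (pt r s l))` is positive, `Theta` holds for it (`Red.corr`, `used_instL`), and by
`theta_instL` some `B ∈ DD V E ph σ` has `c_l z_B(i_l) + d_l mod r < 2 ^ e`; by
`exists_link_snoc` and `exists_sym` `B ∈ DD V E ph (σ ++ [s])`.
-/

set_option autoImplicit false

namespace Pool.Agent.W_d799b0_h82

private theorem LargeB_mem_allQ {g : Inst → List Query} {E : Env} {ph : List (List Seed)} {σ : List Seed} {q : Query} :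
    q ∈ allQ g E ph σ ↔ ∃ u, PtLt (eR E) u ∧ q ∈ g (instL E ph σ u) := by
  unfold allQ
  rw [List.mem_flatMap]
  simp only [mem_pts]

private theorem LargeB_mem_smpQ {g : Inst → List Query} {E : Env} {ph : List (List Seed)} {σ : List Seed} {s : Seed}
    {q : Query} : q ∈ smpQ g E ph σ s ↔ ∃ l < eW E, q ∈ g (instL E ph σ (pt (eR E) s l)) := by
  unfold smpQ
  rw [List.mem_flatMap]
  simp only [List.mem_range]

/-- the total weight is large -/
private theorem LargeB_W (V : List Bool → List Bool → Bool) (g : Inst → List Query) (E : Env)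
    (S : Set (List Bool)) (R : Finset (List (List Bool))) (hP : Params E)
    (hR : Red V g E S R) (ph : List (List Seed)) (σ : List Seed) (m : ℕ) (h : SInv E ph σ m)
    (hD : w0 E ≤ (DD V E ph σ).ncard) :
    ((eR E : ℤ)) ^ 3 ≤ 2 * weight S (allQ g E ph σ) := by
  have : NeZero (eR E) := ⟨hP.prime.ne_zero⟩
  obtain ⟨Bad, hB1, hB2⟩ := few_bad V E hP ph σ m h hD
  have hused := fun u : ZMod (eR E) × ZMod (eR E) × ZMod (eR E) =>
    used_instL E hP ph σ m h (toPt u) (toPt_lt (eR E) u)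
  have e1 : weight S (allQ g E ph σ) =
      ∑ u : ZMod (eR E) × ZMod (eR E) × ZMod (eR E), weight S (g (instL E ph σ (toPt u))) := by
    unfold allQ
    rw [weight_flatMap]
    exact sum_pts (eR E) fun u => weight S (g (instL E ph σ u))
  have e2 : ∀ u : ZMod (eR E) × ZMod (eR E) × ZMod (eR E),
      (1 : ℤ) - (if u ∈ Bad then (2 * (eK E : ℤ)) else 0) ≤ weight S (g (instL E ph σ (toPt u))) := by
    intro u
    have hK : (1 : ℤ) ≤ eK E := by exact_mod_cast hP.pos_K
    split_ifs with hu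
    · have h1 := neg_le_weight S (g (instL E ph σ (toPt u)))
      have h2 : ((g (instL E ph σ (toPt u))).length : ℤ) ≤ eK E := by exact_mod_cast hR.len _ (hused u)
      linarith
    · have h1 := (hR.corr _ (hused u)).1 (hB2 u hu)
      linarith
  have e3 := Finset.sum_le_sum fun u (_ : u ∈ (Finset.univ : Finset (ZMod (eR E) × ZMod (eR E) × ZMod (eR E)))) => e2 u
  rw [← e1, Finset.sum_sub_distrib, Finset.sum_const, Finset.sum_ite_mem, Finset.univ_inter, Finset.sum_const,
    Finset.card_univ, Fintype.card_prod, Fintype.card_prod, ZMod.card] at e3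
  simp only [nsmul_eq_mul, Nat.cast_mul, mul_one] at e3
  have e4 : (4 * (eK E : ℤ) * Bad.card) ≤ (eR E : ℤ) ^ 3 := by exact_mod_cast hB1
  nlinarith

/-- the accuracy for all relevant labels -/
private theorem LargeB_acc (V : List Bool → List Bool → Bool) (g : Inst → List Query) (E : Env)
    (S : Set (List Bool)) (R : Finset (List (List Bool))) (hP : Params E)
    (hR : Red V g E S R) (ph : List (List Seed)) (σ : List Seed) (m : ℕ) (h : SInv E ph σ m)
    (s : Seed) (hs : accOK (eK E) (eW E) (eR E ^ 3) (allQ g E ph σ) (smpQ g E ph σ s) = true) :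
    4 * |(eR E : ℤ) ^ 3 * weight S (smpQ g E ph σ s) - eW E * weight S (allQ g E ph σ)| ≤
      eW E * (eR E : ℤ) ^ 3 := by
  have hK : (1 : ℤ) ≤ eK E := by exact_mod_cast hP.pos_K
  have hsub : ∀ q ∈ smpQ g E ph σ s, q ∈ allQ g E ph σ := by
    intro q hq
    obtain ⟨l, _, hl⟩ := LargeB_mem_smpQ.1 hq
    exact LargeB_mem_allQ.2 ⟨_, pt_lt (eR E) hP.prime.pos s l, hl⟩
  have hall : ∀ q ∈ allQ g E ph σ, (∀ y ∈ q.2, y ∈ S) → q.2 ∈ R := by
    intro q hq hy
    obtain ⟨u, hu, hq'⟩ := LargeB_mem_allQ.1 hq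
    exact hR.mem _ (used_instL E hP ph σ m h u hu) q hq' hy
  have w1 := weight_eq_sum S R hR.sub (allQ g E ph σ) hall
  have w2 := weight_eq_sum S R hR.sub (smpQ g E ph σ s) fun q hq => hall q (hsub q hq)
  have hY : ∀ Y ∈ R, 4 * (eK E : ℤ) * |(eR E : ℤ) ^ 3 * hq (smpQ g E ph σ s) Y - eW E * hq (allQ g E ph σ) Y| ≤
      eW E * (eR E : ℤ) ^ 3 := by
    intro Y _
    by_cases hex : ∃ q ∈ allQ g E ph σ, q.2 = Y
    · obtain ⟨q, hq, rfl⟩ := hex
      have := (accOK_iff _ _ _ _ _).1 hs q hq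
      push_cast at this
      exact this
    · push Not at hex
      rw [hq_of_not_mem _ Y hex, hq_of_not_mem _ Y fun q hq => hex q (hsub q hq)]
      simp only [mul_zero, sub_self, abs_zero]
      positivity
  have h1 : 4 * (eK E : ℤ) * |(eR E : ℤ) ^ 3 * weight S (smpQ g E ph σ s) - eW E * weight S (allQ g E ph σ)| ≤
      R.card * (eW E * (eR E : ℤ) ^ 3) := by
    rw [w1, w2, Finset.mul_sum, Finset.mul_sum, ← Finset.sum_sub_distrib]
    calc 4 * (eK E : ℤ) * |∑ Y ∈ R, ((eR E : ℤ) ^ 3 * hq (smpQ g E ph σ s) Y - eW E * hq (allQ g E ph σ) Y)| ≤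
        4 * (eK E : ℤ) * ∑ Y ∈ R, |(eR E : ℤ) ^ 3 * hq (smpQ g E ph σ s) Y - eW E * hq (allQ g E ph σ) Y| :=
          mul_le_mul_of_nonneg_left (Finset.abs_sum_le_sum_abs _ _) (by positivity)
      _ = ∑ Y ∈ R, 4 * (eK E : ℤ) * |(eR E : ℤ) ^ 3 * hq (smpQ g E ph σ s) Y - eW E * hq (allQ g E ph σ) Y| := by
          rw [Finset.mul_sum]
      _ ≤ ∑ _Y ∈ R, (eW E * (eR E : ℤ) ^ 3) := Finset.sum_le_sum hY
      _ = _ := by rw [Finset.sum_const, nsmul_eq_mul]
  have h2 : (R.card : ℤ) * (eW E * (eR E : ℤ) ^ 3) ≤ eK E * (eW E * (eR E : ℤ) ^ 3) :=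
    mul_le_mul_of_nonneg_right (by exact_mod_cast hR.card) (by positivity)
  have h3 : (eK E : ℤ) * (4 * |(eR E : ℤ) ^ 3 * weight S (smpQ g E ph σ s) - eW E * weight S (allQ g E ph σ)|) ≤
      eK E * (eW E * (eR E : ℤ) ^ 3) := by
    refine le_trans (le_of_eq ?_) (h1.trans h2)
    ring
  exact le_of_mul_le_mul_left h3 (by linarith)

theorem large_step (V : List Bool → List Bool → Bool) (g : Inst → List Query) (E : Env)
    (S : Set (List Bool)) (R : Finset (List (List Bool))) (hP : Params E)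
    (hR : Red V g E S R) (ph : List (List Seed)) (σ : List Seed) (m : ℕ) (h : SInv E ph σ m)
    (hD : w0 E ≤ (DD V E ph σ).ncard) (s : Seed) (hs : goodSeed g E ph σ s = true) :
    (DD V E ph (σ ++ [s])).Nonempty := by
  unfold goodSeed at hs
  rw [Bool.and_eq_true] at hs
  have h1 := LargeB_W V g E S R hP hR ph σ m h hD
  have h2 := LargeB_acc V g E S R hP hR ph σ m h s hs.2
  have hr : (0 : ℤ) < (eR E : ℤ) ^ 3 := by
    have : (0 : ℤ) < eR E := by exact_mod_cast hP.prime.pos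
    positivity
  have hw : (0 : ℤ) < eW E := by
    rw [hP.w_eq]
    positivity
  have h3 : 0 < weight S (smpQ g E ph σ s) := by
    have h4 := (abs_le.1 (show |(eR E : ℤ) ^ 3 * weight S (smpQ g E ph σ s) - eW E * weight S (allQ g E ph σ)| ≤
      |(eR E : ℤ) ^ 3 * weight S (smpQ g E ph σ s) - eW E * weight S (allQ g E ph σ)| from le_rfl)).1
    have h5 : (eW E : ℤ) * (eR E : ℤ) ^ 3 ≤ eW E * (2 * weight S (allQ g E ph σ)) :=
      mul_le_mul_of_nonneg_left h1 hw.le
    have h6 : 0 < (eW E : ℤ) * (eR E : ℤ) ^ 3 := mul_pos hw hr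
    have h7 : 0 < (eR E : ℤ) ^ 3 * weight S (smpQ g E ph σ s) := by linarith
    exact (pos_iff_pos_of_mul_pos h7).1 hr
  have h4 : ∃ l < eW E, 0 < weight S (g (instL E ph σ (pt (eR E) s l))) := by
    by_contra hcon
    push Not at hcon
    unfold smpQ at h3
    rw [weight_flatMap] at h3
    have h8 := List.sum_le_card_nsmul ((List.range (eW E)).map fun l =>
      weight S (g (instL E ph σ (pt (eR E) s l)))) 0 (by
        intro x hx
        rw [List.mem_map] at hx
        obtain ⟨l, hl, rfl⟩ := hx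
        exact hcon l (List.mem_range.1 hl))
    rw [smul_zero] at h8
    exact absurd h3 (not_lt.2 h8)
  obtain ⟨l, hl, hw'⟩ := h4
  have hpt := pt_lt (eR E) hP.prime.pos s l
  have h5 := (hR.corr _ (used_instL E hP ph σ m h _ hpt)).2 hw'
  rw [theta_instL V E ph σ _ hpt] at h5
  obtain ⟨B, hB, hB2⟩ := h5
  refine ⟨B, hB.1, ?_⟩
  rw [exists_link_snoc]
  refine ⟨hB.2, ?_⟩
  rw [exists_sym]
  exact ⟨l, by rw [← hP.w_eq]; exact hl, hB2⟩

end Pool.Agent.W_d799b0_h82
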