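import Pool.Agent.W_d799b0_h42.NPT
import Pool.Agent.W_d799b0_h82.Parse
import Pool.Agent.W_d799b0_h82.Pad
import Pool.Agent.W_d799b0_h82.Size
import Pool.Agent.W_d799b0_h82.Labels
import Pool.Agent.W_d799b0_h82.EnvB
import Pool.Agent.W_d799b0_h42.AlgP4
import Pool.Agent.W_d799b0_h82.Correct

/-!
# If NP has sparse hard sets for threshold reductions, then P = NP

Let `A` be in NP with `p` and `V`, `hV := pf_of_verifier`, `W := Vof p V` (`pf_Vof`).
`exists_lang` gives a language `L` in NP with `en I ∈ L ↔ Theta W I`.  Let `f` reduce `L` to `S`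
with degree `k`, `g I = f (en I)` (`pf_of_reduction`, `PF.enc`, so `PF g`).  Let `P` be a
polynomial with `(encQ (f z)).length ≤ P z.length` (`Poly.length_bound`), `pS` the polynomial of
`Sparse S`, `Q = P + (pS.comp P + 1) ^ k + 1`.  `exists_params` gives `q`; `E = mkEnv p q Q x`,
`N = 300 (..)`, `sz I ≤ N` for used `I` (`used_sz`), so `(encQ (g I)).length ≤ P N`
(`eval_mono`).  `Red W g E S R` with `R` from `exists_labels S k (P N) (pS (P N))`; `eK E = Q N`.
`χ x = run W g (mkEnv p q Q x)`: `PF.run`, `pf_mkEnv`, `raw_of_pf`; `run_sound`, `run_complete`,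
`witness_iff`, `le_eN`, `eX (mkEnv p q Q x) = x`.
-/

set_option autoImplicit false

open Turing Computability

namespace Pool.Agent.W_d799b0_h82

open Pool.Agent.PolyTime Function

theorem inP_of_threshold (S : Set (List Bool)) (hS : Sparse S)
    (h : ∀ A : Set (List Bool), InNP A → ∃ k : ℕ, ThrRed k A S)
    (A : Set (List Bool)) (hA : InNP A) : InP A := by
  obtain ⟨p, V, hV, hA⟩ := hA
  have hW : PF (fun q : List Bool × List Bool => Vof p V q.1 q.2) :=
    pf_Vof p (pf_of_verifier hV)
  obtain ⟨L, hL, hLT⟩ := exists_lang hW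
  obtain ⟨k, f, hf, hk, hcorr⟩ := h L hL
  have hg : PF (fun I : Inst => f (en I)) := (pf_of_reduction hf).comp (pf_en PF.id')
  obtain ⟨P, hP⟩ := Poly.length_bound hf
  obtain ⟨pS, hpS⟩ := hS
  obtain ⟨q, hq⟩ := exists_params p (P + (pS.comp P + 1) ^ k + 1) (by
    intro n
    rw [Polynomial.eval_add, Polynomial.eval_one]
    exact Nat.succ_pos _)
  have hQ1 : ∀ n, P.eval n ≤ (P + (pS.comp P + 1) ^ k + 1).eval n := by
    intro n
    simp only [Polynomial.eval_add, Polynomial.eval_one]
    omega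
  have hQ2 : ∀ n, (pS.eval (P.eval n) + 1) ^ k ≤ (P + (pS.comp P + 1) ^ k + 1).eval n := by
    intro n
    simp only [Polynomial.eval_add, Polynomial.eval_one, Polynomial.eval_pow, Polynomial.eval_comp]
    omega
  refine ⟨fun x => run (Vof p V) (fun I : Inst => f (en I)) (mkEnv p q (P + (pS.comp P + 1) ^ k + 1) x),
    raw_of_pf (PF.run hW hg (pf_mkEnv p q _)), ?_⟩
  intro x
  rw [hA x, ← witness_iff p V x _ (le_eN p q (P + (pS.comp P + 1) ^ k + 1) x)]
  have hE := hq x
  have hKE := eK_mkEnv p q (P + (pS.comp P + 1) ^ k + 1) x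
  constructor
  · intro hB
    obtain ⟨R, hR1, hR2, hR3⟩ := exists_labels S k _ _ (hpS (P.eval (300 *
      (((eX (mkEnv p q (P + (pS.comp P + 1) ^ k + 1) x)).length + 1) *
        (eM (mkEnv p q (P + (pS.comp P + 1) ^ k + 1) x) + 1) *
      (eE (mkEnv p q (P + (pS.comp P + 1) ^ k + 1) x) + 1)))))
    have hlen : ∀ I, Used (mkEnv p q (P + (pS.comp P + 1) ^ k + 1) x) I →
        (encQ (f (en I))).length ≤ P.eval (300 *
      (((eX (mkEnv p q (P + (pS.comp P + 1) ^ k + 1) x)).length + 1) *
        (eM (mkEnv p q (P + (pS.comp P + 1) ^ k + 1) x) + 1) *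
      (eE (mkEnv p q (P + (pS.comp P + 1) ^ k + 1) x) + 1))) := by
      intro I hI
      exact (hP (en I)).trans (eval_mono P (used_sz hE hI))
    refine run_complete (Vof p V) (fun I : Inst => f (en I)) _ S R hE ?_ hB
    refine ⟨?_, ?_, ?_, hR2, ?_⟩
    · intro I _
      rw [← hLT I]
      exact hcorr (en I)
    · intro I hI
      rw [hKE]
      exact (length_le_encQ _).trans ((hlen I hI).trans (hQ1 _))
    · rw [hKE]
      exact hR1.trans (hQ2 _)
    · intro I hI r hr hy
      exact hR3 _ (hk (en I) r hr) (fun y hy' => (length_mem_encQ hr hy').trans (hlen I hI)) hy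
  · intro hr
    exact run_sound (Vof p V) (fun I : Inst => f (en I)) _ hr

end Pool.Agent.W_d799b0_h82
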