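import Pool.Agent.W_d799b0_h82.Inv

/-!
# Binary numerals and polynomials given by lists

All proofs are inductions on lists.  `polyL r (a :: l) = C a + X * polyL r l`; evaluation gives
`ev_cast` with `ZMod.natCast_mod`; `polyL_inj`: compare the constant coefficients
(`coeff_zero`; `(a : ZMod r) = a'` with `a, a' < r` gives `a = a'`), then cancel `X`.
-/

set_option autoImplicit false

open Polynomial

namespace Pool.Agent.W_d799b0_h82

theorem val_lt (l : List Bool) : val l < 2 ^ l.length := by
  induction l with
  | nil => simp [val]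
  | cons b l ih =>
    have h1 : b.toNat ≤ 1 := Bool.toNat_le b
    simp only [val, List.length_cons, pow_succ]
    omega

theorem val_inj (l l' : List Bool) (h : l.length = l'.length) (hv : val l = val l') : l = l' := by
  induction l generalizing l' with
  | nil =>
    rw [List.length_nil] at h
    exact (List.eq_nil_of_length_eq_zero h.symm).symm
  | cons b l ih =>
    cases l' with
    | nil => simp at h
    | cons b' l' =>
      have h1 : b.toNat ≤ 1 := Bool.toNat_le b
      have h2 : b'.toNat ≤ 1 := Bool.toNat_le b'
      simp only [val] at hv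
      have h3 : val l = val l' := by omega
      have h4 : b.toNat = b'.toNat := by omega
      have h5 : b = b' := by cases b <;> cases b' <;> simp_all
      rw [h5, ih l' (by simpa using h) h3]

theorem exists_val (k n : ℕ) (h : n < 2 ^ k) : ∃ l : List Bool, l.length = k ∧ val l = n := by
  induction k generalizing n with
  | zero =>
    refine ⟨[], rfl, ?_⟩
    rw [pow_zero] at h
    simp only [val]
    omega
  | succ k ih =>
    rw [pow_succ] at h
    obtain ⟨l, hl, hv⟩ := ih (n / 2) (by omega)
    rcases Nat.mod_two_eq_zero_or_one n with h1 | h1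
    · refine ⟨false :: l, by simp [hl], ?_⟩
      simp only [val, Bool.toNat_false, hv]
      omega
    · refine ⟨true :: l, by simp [hl], ?_⟩
      simp only [val, Bool.toNat_true, hv]
      omega

/-- The polynomial with the given list of coefficients. -/
noncomputable def polyL (r : ℕ) (l : List ℕ) : (ZMod r)[X] :=
  l.foldr (fun a p => C (a : ZMod r) + X * p) 0

theorem ev_lt (r : ℕ) (hr : 0 < r) (l : List ℕ) (i : ℕ) : ev r l i < r := by
  cases l with
  | nil => simpa [ev] using hr
  | cons a l => exact Nat.mod_lt _ hr

theorem ev_cast (r : ℕ) (l : List ℕ) (i : ℕ) :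
    ((ev r l i : ℕ) : ZMod r) = (polyL r l).eval (i : ZMod r) := by
  induction l with
  | nil => simp [ev, polyL]
  | cons a l ih =>
    have h1 : ev r (a :: l) i = (a + i * ev r l i) % r := rfl
    have h2 : polyL r (a :: l) = C (a : ZMod r) + X * polyL r l := rfl
    rw [h1, h2, ZMod.natCast_mod, Nat.cast_add, Nat.cast_mul, ih, eval_add, eval_C, eval_mul,
      eval_X]

theorem NumA_coeff (r : ℕ) (l : List ℕ) (n : ℕ) :
    (polyL r l).coeff n = ((l.getD n 0 : ℕ) : ZMod r) := by
  induction l generalizing n with
  | nil => simp [polyL]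
  | cons a l ih =>
    have h2 : polyL r (a :: l) = C (a : ZMod r) + X * polyL r l := rfl
    rw [h2]
    cases n with
    | zero => simp
    | succ n =>
      rw [coeff_add, coeff_X_mul, coeff_C_succ, ih, zero_add, List.getD_cons_succ]

theorem polyL_degree (r : ℕ) [Fact r.Prime] (l : List ℕ) : (polyL r l).degree < l.length := by
  rw [degree_lt_iff_coeff_zero]
  intro m hm
  rw [NumA_coeff, List.getD_eq_default _ _ hm, Nat.cast_zero]

theorem polyL_append_zeros (r : ℕ) (l : List ℕ) (k : ℕ) :
    polyL r (l ++ List.replicate k 0) = polyL r l := by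
  ext n
  rw [NumA_coeff, NumA_coeff]
  congr 1
  rcases Nat.lt_or_ge n l.length with h | h
  · rw [List.getD_append _ _ _ _ h]
  · rw [List.getD_append_right _ _ _ _ h, List.getD_eq_default _ _ h]
    rcases Nat.lt_or_ge (n - l.length) k with h1 | h1
    · rw [List.getD_eq_getElem _ _ (by simpa using h1), List.getElem_replicate]
    · rw [List.getD_eq_default _ _ (by simpa using h1)]

theorem polyL_inj (r : ℕ) [Fact r.Prime] (l l' : List ℕ) (h : l.length = l'.length)
    (hl : ∀ a ∈ l, a < r) (hl' : ∀ a ∈ l', a < r) (hp : polyL r l = polyL r l') : l = l' := by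
  refine List.ext_getElem h fun i h1 h2 => ?_
  have h3 : (polyL r l).coeff i = (polyL r l').coeff i := by rw [hp]
  rw [NumA_coeff, NumA_coeff, List.getD_eq_getElem _ _ h1, List.getD_eq_getElem _ _ h2,
    ZMod.natCast_eq_natCast_iff'] at h3
  rwa [Nat.mod_eq_of_lt (hl _ (List.getElem_mem h1)),
    Nat.mod_eq_of_lt (hl' _ (List.getElem_mem h2))] at h3

end Pool.Agent.W_d799b0_h82
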