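import Pool.Agent.W_d799b0_h82.SmallB

/-!
# The small case: survival of the prefixes

PROOF.  Let `a` be isolated by `(i0, b0)`, `v = a.take j`, `j ≤ n'`.  By `theta_instS` and
isolation, for every `u` of `F^3`: `Theta V (instS .. j (toPt u))` iff `chi r (toPt u) v`.  So with
`W u = weight S (g (instS .. (toPt u)))` we have `W u ≥ 1` if the sign `χ u = sg ..` is `1` and
`W u ≤ 0` if it is `-1` (`Red.corr`), hence `(2 W u - 1) χ u ≥ 1`, and summing and using
`∑ χ = r^2 ≥ 0` (`sg_sum`, `card_HH`): `2 ∑ u, W u χ u ≥ r ^ 3`.  `W u = ∑ Y ∈ R, hq (g ..) Y`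
(`weight_eq_sum`), so `2 ∑ Y ∈ R, hq (corr ..) Y ≥ r^3` (`tab_sum`); as `R` has at most `K`
elements, some `Y ∈ R` has `2 K hq (corr ..) Y ≥ r ^ 3` (if all were smaller, the sum of `2 K hq`
over `R` would be `< card R * r^3 ≤ K r^3`, contradiction to `≥ K r^3`; `R` is not empty because
`r^3 > 0`).  Conclude by `keep_iff`.
-/

set_option autoImplicit false

open Finset

namespace Pool.Agent.W_d799b0_h82

theorem survive (V : List Bool → List Bool → Bool) (g : Inst → List Query) (E : Env)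
    (S : Set (List Bool)) (R : Finset (List (List Bool))) (hP : Params E)
    (hR : Red V g E S R) (ph : List (List Seed)) (i0 b0 : ℕ) (hb : b0 < eR E)
    (hU : ∀ j ≤ eN E, ∀ u, PtLt (eR E) u → Used E (instS E ph i0 b0 j u))
    (a : List Bool) (ha : a ∈ D0 V E ph) (hab : bB (eR E) a i0 = b0)
    (huniq : ∀ B0 ∈ D0 V E ph, bB (eR E) B0 i0 = b0 → B0 = a)
    (j : ℕ) (hj : j ≤ eN E) :
    keep (eR E) (eK E) (tabS g E ph i0 b0 j) (a.take j) = true := by
  classical
  have : Fact (eR E).Prime := ⟨hP.prime⟩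
  have hr : 0 < eR E := hP.pos_r
  set v : List Bool := a.take j with hv
  set G : ZMod (eR E) × ZMod (eR E) × ZMod (eR E) → List Query :=
    fun u => g (instS E ph i0 b0 j (toPt u)) with hG
  have hUse : ∀ u : ZMod (eR E) × ZMod (eR E) × ZMod (eR E),
      Used E (instS E ph i0 b0 j (toPt u)) := fun u => hU j hj (toPt u) (toPt_lt (eR E) u)
  have hchi : ∀ u : ZMod (eR E) × ZMod (eR E) × ZMod (eR E),
      0 < weight S (G u) ↔ chi (eR E) (toPt u) v = true := by
    intro u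
    rw [hG, ← hR.corr _ (hUse u), theta_instS V E hP ph i0 b0 j hb hj]
    constructor
    · rintro ⟨B0, hB0, h1, h2⟩
      rw [huniq B0 hB0 h1] at h2
      exact h2
    · intro h
      exact ⟨a, ha, hab, h⟩
  have hterm : ∀ u : ZMod (eR E) × ZMod (eR E) × ZMod (eR E),
      1 + sg (HH (eR E)) (bP (eR E) v) u ≤ 2 * (weight S (G u) * sg (HH (eR E)) (bP (eR E) v) u)
      := by
    intro u
    rw [chi_eq_sg]
    by_cases h : chi (eR E) (toPt u) v = true
    · have h1 := (hchi u).2 h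
      rw [if_pos h]
      linarith
    · have h1 : ¬ 0 < weight S (G u) := fun h0 => h ((hchi u).1 h0)
      rw [if_neg h]
      linarith
  have hsum1 : ∑ u : ZMod (eR E) × ZMod (eR E) × ZMod (eR E), (1 : ℤ) = (eR E : ℤ) ^ 3 := by
    rw [Finset.sum_const, Finset.card_univ, Fintype.card_prod, Fintype.card_prod, ZMod.card]
    simp only [smul_eq_mul, nsmul_eq_mul, mul_one]
    push_cast
    ring
  have hsum2 : (eR E : ℤ) ^ 3 ≤
      2 * ∑ u : ZMod (eR E) × ZMod (eR E) × ZMod (eR E),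
        weight S (G u) * sg (HH (eR E)) (bP (eR E) v) u := by
    have h1 := Finset.sum_le_sum fun u (_ : u ∈ (Finset.univ :
      Finset (ZMod (eR E) × ZMod (eR E) × ZMod (eR E)))) => hterm u
    rw [Finset.sum_add_distrib, hsum1, ← Finset.mul_sum] at h1
    have h2 := sg_sum (HH (eR E)) (by rw [card_HH E hP, ZMod.card]) (bP (eR E) v)
    rw [h2] at h1
    have h3 : (0 : ℤ) ≤ ((Fintype.card (ZMod (eR E)) : ℕ) : ℤ) ^ 2 := by positivity
    linarith
  have hswap : ∑ u : ZMod (eR E) × ZMod (eR E) × ZMod (eR E),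
        weight S (G u) * sg (HH (eR E)) (bP (eR E) v) u =
      ∑ Y ∈ R, hq (corr (eR E) (tabS g E ph i0 b0 j) v) Y := by
    have h1 : ∀ u : ZMod (eR E) × ZMod (eR E) × ZMod (eR E),
        weight S (G u) * sg (HH (eR E)) (bP (eR E) v) u =
          ∑ Y ∈ R, hq (G u) Y * sg (HH (eR E)) (bP (eR E) v) u := by
      intro u
      rw [weight_eq_sum S R hR.sub (G u) (hR.mem _ (hUse u)), Finset.sum_mul]
    rw [Finset.sum_congr rfl fun u _ => h1 u, Finset.sum_comm]
    refine Finset.sum_congr rfl fun Y _ => ?_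
    rw [tab_sum]
  rw [hswap] at hsum2
  rw [keep_iff _ _ hr]
  by_contra hcon
  have hcon' : ∀ Y, 2 * (eK E : ℤ) * hq (corr (eR E) (tabS g E ph i0 b0 j) v) Y <
      (eR E : ℤ) ^ 3 := by
    intro Y
    by_contra hY
    exact hcon ⟨Y, not_lt.1 hY⟩
  have hr3 : (0 : ℤ) < (eR E : ℤ) ^ 3 := by positivity
  have hK : (0 : ℤ) < (eK E : ℤ) := by exact_mod_cast hP.pos_K
  have hRne : R.Nonempty := by
    rcases R.eq_empty_or_nonempty with h | h
    · rw [h, Finset.sum_empty] at hsum2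
      linarith
    · exact h
  have h1 : ∑ Y ∈ R, 2 * (eK E : ℤ) * hq (corr (eR E) (tabS g E ph i0 b0 j) v) Y <
      ∑ _Y ∈ R, (eR E : ℤ) ^ 3 := Finset.sum_lt_sum_of_nonempty hRne fun Y _ => hcon' Y
  rw [← Finset.mul_sum, Finset.sum_const, nsmul_eq_mul] at h1
  have h2 : (R.card : ℤ) ≤ eK E := by exact_mod_cast hR.card
  nlinarith

end Pool.Agent.W_d799b0_h82
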