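import Pool.Agent.W_d799b0_h82.Main
import Pool.Agent.W_d799b0_h82.Cor2

/-!
# MP_d799b0_lc: sparse hard sets for NP under disjunctive and threshold reductions

The definitions `InP`, `InNP`, `Sparse`, `Query`, `weight`, `Sym`, `encQ`, `ThrRed`, `encL`,
`DisjRed`, `ConjRed`, `MajRed` are in `Pool/Agent/W_d799b0_h82/Defs.lean`; polynomial time is
Mathlib's `TM2ComputableInPolyTime`.
-/

set_option autoImplicit false

open Turing Computability

namespace Pool.Agent.Results.MP_d799b0_lc.SparseHard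

open Pool.Agent.W_d799b0_h82

/-- The following are equivalent: P = NP; some sparse set is hard for NP under disjunctive
reductions; under conjunctive reductions; under majority reductions; under threshold reductions of
constant degree (the constant may depend on the language); some sparse set `S` is such that every
language in NP reduces to `S` by a reduction of one of these kinds. -/
theorem result : List.TFAE [
    ∀ A : Set (List Bool), InNP A ↔ InP A,
    ∃ S : Set (List Bool), Sparse S ∧ ∀ A : Set (List Bool), InNP A → DisjRed A S,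
    ∃ S : Set (List Bool), Sparse S ∧ ∀ A : Set (List Bool), InNP A → ConjRed A S,
    ∃ S : Set (List Bool), Sparse S ∧ ∀ A : Set (List Bool), InNP A → MajRed A S,
    ∃ S : Set (List Bool), Sparse S ∧ ∀ A : Set (List Bool), InNP A → ∃ k : ℕ, ThrRed k A S,
    ∃ S : Set (List Bool), Sparse S ∧ ∀ A : Set (List Bool), InNP A →
      DisjRed A S ∨ ConjRed A S ∨ MajRed A S ∨ ∃ k : ℕ, ThrRed k A S] := by
  tfae_have 1 → 2 := fun h => ⟨_, sparse_single, fun A hA => (InP.red ((h A).1 hA)).1⟩
  tfae_have 1 → 3 := fun h => ⟨_, sparse_single, fun A hA => (InP.red ((h A).1 hA)).2.1⟩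
  tfae_have 1 → 4 := fun h => ⟨_, sparse_single, fun A hA => (InP.red ((h A).1 hA)).2.2⟩
  tfae_have 2 → 5 := fun ⟨S, hS, h⟩ => ⟨S, hS, fun A hA => ⟨1, (h A hA).thr⟩⟩
  tfae_have 3 → 5 := fun ⟨S, hS, h⟩ => ⟨S, hS, fun A hA => ⟨1, (h A hA).thr⟩⟩
  tfae_have 4 → 5 := fun ⟨S, hS, h⟩ => ⟨S, hS, fun A hA => ⟨1, (h A hA).thr⟩⟩
  tfae_have 5 → 6 := fun ⟨S, hS, h⟩ => ⟨S, hS, fun A hA => Or.inr (Or.inr (Or.inr (h A hA)))⟩
  tfae_have 6 → 1 := by
    rintro ⟨S, hS, h⟩ A
    refine ⟨fun hA => inP_of_threshold S hS (fun B hB => ?_) A hA, InP.inNP⟩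
    rcases h B hB with h1 | h1 | h1 | h1
    · exact ⟨1, h1.thr⟩
    · exact ⟨1, h1.thr⟩
    · exact ⟨1, h1.thr⟩
    · exact h1
  tfae_finish

end Pool.Agent.Results.MP_d799b0_lc.SparseHard
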