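import Pool.Agent.W_d799b0_h82.NumB
import Pool.Agent.W_d799b0_h82.LinkA

/-!
# A string is determined by its symbols

PROOF OF `link_unique`.  Let `σ` have `m` seeds satisfying `PhOK`.  For `j < m` let `(l, v)` be the
`j`-th symbol of `B'`; `l < 2 ^ e = w` by `val_lt`.  By `link_get` both `B` and `C` satisfy
`c z(i) + d = v` modulo `r` with `c ≠ 0`; so `z_B` and `z_C` agree at the point `i = pI r σ[j] l`
of `ZMod r`.  These points are different for different `j` (`PhOK`; all numbers are `< r`, so the
casts to `ZMod r` are different too).  The difference `z_B - z_C` has degree `< m` (`zP_degree`)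
and `m` different zeros, so it is zero (`Polynomial.card_roots'` or
`Polynomial.eq_of_degree_sub_lt_of_eval_finset_eq`); conclude by `zP_inj`.
`reach_length`: induction on `ph`, `link_length`; `reach_unique`: induction on `ph`: from
`Reach (τ :: ph) B0 B'` and `Reach (τ :: ph) C0 B'` get `B, C` with `link τ B B'`, `link τ C B'`,
both of length `4 * e * k` (`reach_length` for `Lens M (2 * k) ph`), so `B = C` by `link_unique`.
-/

set_option autoImplicit false

namespace Pool.Agent.W_d799b0_h82

theorem sym_agree (e r : ℕ) (hp : r.Prime) (s : Seed) (B C y : List Bool)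
    (hc : pC r s (val (y.take e)) ≠ 0)
    (h1 : symOK e r s B y = true) (h2 : symOK e r s C y = true) :
    (zP e r B).eval ((pI r s (val (y.take e)) : ℕ) : ZMod r) =
      (zP e r C).eval ((pI r s (val (y.take e)) : ℕ) : ZMod r) := by
  have : Fact r.Prime := ⟨hp⟩
  simp only [symOK, decide_eq_true_eq] at h1 h2
  set l := val (y.take e) with hl
  have h3 : (pC r s l * zB e r B (pI r s l) + pD r s l) % r =
      (pC r s l * zB e r C (pI r s l) + pD r s l) % r := by rw [h1, h2]
  have h4 : (((pC r s l * zB e r B (pI r s l) + pD r s l : ℕ)) : ZMod r) =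
      ((pC r s l * zB e r C (pI r s l) + pD r s l : ℕ) : ZMod r) :=
    (ZMod.natCast_eq_natCast_iff' _ _ _).2 h3
  push_cast at h4
  rw [zB_cast, zB_cast] at h4
  have h5 : ((pC r s l : ℕ) : ZMod r) ≠ 0 := by
    intro h
    rw [ZMod.natCast_eq_zero_iff] at h
    have hlt : pC r s l < r := Nat.mod_lt _ hp.pos
    exact hc (Nat.eq_zero_of_dvd_of_lt h hlt)
  have h6 := add_right_cancel h4
  exact mul_left_cancel₀ h5 h6

theorem link_unique (e r : ℕ) (hp : r.Prime) (he : 0 < e) (hr : 2 ^ (4 * e) < r)
    (σ : List Seed) (hσ : PhOK r (2 ^ e) σ) (B C B' : List Bool)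
    (hB : B.length = 4 * e * σ.length) (hC : C.length = 4 * e * σ.length)
    (h1 : link e r σ B B' = true) (h2 : link e r σ C B' = true) : B = C := by
  have : Fact r.Prime := ⟨hp⟩
  obtain ⟨hlt, hc, hpw⟩ := hσ
  have hlen := link_length e r σ B B' h1
  -- the label of the `j`-th symbol
  have hl : ∀ j, j < σ.length → val ((chunk (2 * e) j B').take e) < 2 ^ e := by
    intro j hj
    refine lt_of_lt_of_le (val_lt _) (Nat.pow_le_pow_right (by norm_num) ?_)
    simp
  let f : Fin σ.length → ZMod r := fun j =>
    ((pI r (σ[j.1]'j.2) (val ((chunk (2 * e) j.1 B').take e)) : ℕ) : ZMod r)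
  have hf : Function.Injective f := by
    have key : ∀ j j' : Fin σ.length, j.1 < j'.1 → f j ≠ f j' := by
      intro j j' hjj h
      have hne := (List.pairwise_iff_getElem.1 hpw) j.1 j'.1 j.2 j'.2 hjj
        (val ((chunk (2 * e) j.1 B').take e)) (hl _ j.2)
        (val ((chunk (2 * e) j'.1 B').take e)) (hl _ j'.2)
      apply hne
      have h' := (ZMod.natCast_eq_natCast_iff' _ _ _).1 h
      have hpI : ∀ s l, pI r s l < r := fun s l => Nat.mod_lt _ hp.pos
      rwa [Nat.mod_eq_of_lt (hpI _ _), Nat.mod_eq_of_lt (hpI _ _)] at h'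
    intro j j' h
    rcases lt_trichotomy j.1 j'.1 with h3 | h3 | h3
    · exact absurd h (key j j' h3)
    · exact Fin.ext h3
    · exact absurd h.symm (key j' j h3)
  have hcard : (Finset.univ.image f).card = σ.length := by
    rw [Finset.card_image_of_injective _ hf, Finset.card_univ, Fintype.card_fin]
  have hdB := zP_degree e r σ.length he B hB
  have hdC := zP_degree e r σ.length he C hC
  apply zP_inj e r σ.length he hr B C hB hC
  apply Polynomial.eq_of_degree_sub_lt_of_eval_finset_eq (Finset.univ.image f)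
  · rw [hcard]
    exact lt_of_le_of_lt (Polynomial.degree_sub_le _ _) (max_lt hdB hdC)
  · intro x hx
    obtain ⟨j, -, rfl⟩ := Finset.mem_image.1 hx
    exact sym_agree e r hp _ B C (chunk (2 * e) j.1 B')
      (hc _ (List.getElem_mem j.2) _ (hl _ j.2))
      (link_get e r σ B B' h1 j.1 j.2) (link_get e r σ C B' h2 j.1 j.2)

theorem reach_length (e r M k : ℕ) (ph : List (List Seed)) (h : Lens M k ph)
    (B0 B : List Bool) (hB0 : B0.length = 4 * e * M) (hR : Reach e r ph B0 B) :
    B.length = 2 * e * k := by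
  cases ph with
  | nil =>
    simp only [Lens] at h
    simp only [Reach] at hR
    subst h
    rw [hR, hB0]
    ring
  | cons σ ph =>
    simp only [Lens] at h
    obtain ⟨C, -, h2⟩ := hR
    rw [link_length e r σ C B h2, h.1]

theorem reach_unique (e r M k : ℕ) (hp : r.Prime) (he : 0 < e) (hr : 2 ^ (4 * e) < r)
    (ph : List (List Seed)) (h : Lens M k ph) (hok : ∀ τ ∈ ph, PhOK r (2 ^ e) τ)
    (B0 C0 B : List Bool) (hB0 : B0.length = 4 * e * M) (hC0 : C0.length = 4 * e * M)
    (h1 : Reach e r ph B0 B) (h2 : Reach e r ph C0 B) : B0 = C0 := by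
  induction ph generalizing k B with
  | nil =>
    simp only [Reach] at h1 h2
    rw [← h1, ← h2]
  | cons σ ph ih =>
    obtain ⟨hk, hL⟩ := h
    obtain ⟨D, h3, h4⟩ := h1
    obtain ⟨D', h5, h6⟩ := h2
    have hD := reach_length e r M (2 * k) ph hL B0 D hB0 h3
    have hD' := reach_length e r M (2 * k) ph hL C0 D' hC0 h5
    have hDD : D = D' := by
      refine link_unique e r hp he hr σ (hok σ (by simp)) D D' B ?_ ?_ h4 h6
      · rw [hD, hk]; ring
      · rw [hD', hk]; ring
    subst hDD
    exact ih (2 * k) hL (fun τ hτ => hok τ (by simp [hτ])) D h3 h5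

end Pool.Agent.W_d799b0_h82
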